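import Pool.Agent.Helper17.CL.Defs

/-!
# Project CL: definable relations on a transitive set, closure properties of inner models
-/

set_option autoImplicit false

namespace Pool.Agent.Helper17.CL

open ZFSet

/-! ### Definable relations -/

/-- The relation `R` on the elements of `u` is definable over `(u, ∈)`. -/
def DR (u : ZFSet.{0}) (R : (ℕ → ZFSet.{0}) → Prop) : Prop :=
  ∃ φ : Fml, ∀ v : ℕ → ZFSet.{0}, (∀ i, v i ∈ u) → (R v ↔ Sat (u : Set ZFSet.{0}) φ v)

theorem cons_mem {u a : ZFSet.{0}} {v : ℕ → ZFSet.{0}} (ha : a ∈ u) (hv : ∀ i, v i ∈ u) :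
    ∀ i, cons a v i ∈ u := by
  intro i
  cases i with
  | zero => exact ha
  | succ n => exact hv n

@[simp] theorem cons_zero (a : ZFSet.{0}) (v : ℕ → ZFSet.{0}) : cons a v 0 = a := rfl

@[simp] theorem cons_succ (a : ZFSet.{0}) (v : ℕ → ZFSet.{0}) (n : ℕ) :
    cons a v (n + 1) = v n := rfl

@[simp] theorem cons_one (a : ZFSet.{0}) (v : ℕ → ZFSet.{0}) : cons a v 1 = v 0 := rfl
@[simp] theorem cons_two (a : ZFSet.{0}) (v : ℕ → ZFSet.{0}) : cons a v 2 = v 1 := rfl
@[simp] theorem cons_three (a : ZFSet.{0}) (v : ℕ → ZFSet.{0}) : cons a v 3 = v 2 := rfl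
@[simp] theorem cons_four (a : ZFSet.{0}) (v : ℕ → ZFSet.{0}) : cons a v 4 = v 3 := rfl
@[simp] theorem cons_five (a : ZFSet.{0}) (v : ℕ → ZFSet.{0}) : cons a v 5 = v 4 := rfl
@[simp] theorem cons_six (a : ZFSet.{0}) (v : ℕ → ZFSet.{0}) : cons a v 6 = v 5 := rfl
@[simp] theorem cons_seven (a : ZFSet.{0}) (v : ℕ → ZFSet.{0}) : cons a v 7 = v 6 := rfl
@[simp] theorem cons_eight (a : ZFSet.{0}) (v : ℕ → ZFSet.{0}) : cons a v 8 = v 7 := rfl

section DR

variable {u : ZFSet.{0}} {R S : (ℕ → ZFSet.{0}) → Prop}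

theorem DR.congr (h : DR u R) (h' : ∀ v, (∀ i, v i ∈ u) → (S v ↔ R v)) : DR u S := by
  obtain ⟨φ, hφ⟩ := h
  exact ⟨φ, fun v hv => (h' v hv).trans (hφ v hv)⟩

theorem DR.mem (i j : ℕ) : DR u (fun v => v i ∈ v j) := ⟨.mem i j, fun _ _ => Iff.rfl⟩

theorem DR.eq (i j : ℕ) : DR u (fun v => v i = v j) := ⟨.eq i j, fun _ _ => Iff.rfl⟩

theorem DR.nand (hR : DR u R) (hS : DR u S) : DR u (fun v => ¬ (R v ∧ S v)) := by
  obtain ⟨φ, hφ⟩ := hR
  obtain ⟨ψ, hψ⟩ := hS
  refine ⟨.nand φ ψ, fun v hv => ?_⟩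
  show ¬ (R v ∧ S v) ↔ ¬ (Sat (u : Set ZFSet.{0}) φ v ∧ Sat (u : Set ZFSet.{0}) ψ v)
  rw [hφ v hv, hψ v hv]

theorem DR.not (hR : DR u R) : DR u (fun v => ¬ R v) :=
  (hR.nand hR).congr fun v _ => by rw [and_self_iff]

theorem DR.and (hR : DR u R) (hS : DR u S) : DR u (fun v => R v ∧ S v) :=
  (hR.nand hS).not.congr fun v _ => by rw [not_not]

theorem DR.or (hR : DR u R) (hS : DR u S) : DR u (fun v => R v ∨ S v) :=
  (hR.not.nand hS.not).congr fun v _ => by tauto

theorem DR.imp (hR : DR u R) (hS : DR u S) : DR u (fun v => R v → S v) :=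
  (hR.nand hS.not).congr fun v _ => by tauto

theorem DR.iff (hR : DR u R) (hS : DR u S) : DR u (fun v => R v ↔ S v) :=
  ((hR.imp hS).and (hS.imp hR)).congr fun v _ => by tauto

theorem DR.all (hR : DR u R) : DR u (fun v => ∀ a ∈ u, R (cons a v)) := by
  obtain ⟨φ, hφ⟩ := hR
  refine ⟨.all φ, fun v hv => ?_⟩
  show (∀ a ∈ u, R (cons a v)) ↔ ∀ a ∈ (u : Set ZFSet.{0}), Sat u φ (cons a v)
  refine forall_congr' fun a => ?_
  rw [SetLike.mem_coe]
  refine imp_congr_right fun ha => ?_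
  rw [hφ _ (cons_mem ha hv)]

theorem DR.ex (hR : DR u R) : DR u (fun v => ∃ a ∈ u, R (cons a v)) :=
  hR.not.all.not.congr fun v _ => by push Not; rfl

theorem DR.isDef (hR : DR u R) {v : ℕ → ZFSet.{0}} (hv : ∀ i, v i ∈ u) :
    IsDef u (ZFSet.sep (fun z => R (cons z v)) u) := by
  obtain ⟨φ, hφ⟩ := hR
  refine ⟨φ, v, hv, fun z => ?_⟩
  rw [mem_sep]
  refine and_congr_right fun hz => ?_
  rw [hφ _ (cons_mem hz hv)]

variable (hu : u.IsTransitive)
include hu

theorem DR.upair (i j k : ℕ) : DR u (fun v => v i = {v j, v k}) := by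
  have h1 : DR u (fun v => v j ∈ v i ∧ v k ∈ v i ∧
      ∀ a ∈ u, cons a v 0 ∈ cons a v (i + 1) → cons a v 0 = cons a v (j + 1) ∨
        cons a v 0 = cons a v (k + 1)) :=
    (DR.mem j i).and ((DR.mem k i).and
      (((DR.mem 0 (i + 1)).imp ((DR.eq 0 (j + 1)).or (DR.eq 0 (k + 1)))).all))
  refine h1.congr fun v hv => ?_
  simp only [cons_zero, cons_succ]
  constructor
  · intro h
    rw [h]
    refine ⟨by simp, by simp, fun a _ ha => by simpa using ha⟩
  · rintro ⟨h2, h3, h4⟩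
    ext z
    rw [mem_pair]
    constructor
    · intro hz
      exact h4 z (hu.mem_trans hz (hv i)) hz
    · rintro (rfl | rfl)
      · exact h2
      · exact h3

theorem DR.pair (i j k : ℕ) : DR u (fun v => v i = ZFSet.pair (v j) (v k)) := by
  have h1 : DR u (fun v => ∃ a ∈ u, ∃ b ∈ u,
      cons b (cons a v) 1 = {cons b (cons a v) (j + 2), cons b (cons a v) (j + 2)} ∧
      cons b (cons a v) 0 = {cons b (cons a v) (j + 2), cons b (cons a v) (k + 2)} ∧
      cons b (cons a v) (i + 2) = {cons b (cons a v) 1, cons b (cons a v) 0}) :=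
    ((DR.upair hu 1 (j + 2) (j + 2)).and ((DR.upair hu 0 (j + 2) (k + 2)).and
      (DR.upair hu (i + 2) 1 0))).ex.ex
  refine h1.congr fun v hv => ?_
  simp only [cons_zero, cons_succ]
  constructor
  · intro h
    have h2 : ({v j} : ZFSet.{0}) ∈ v i := by rw [h, ZFSet.pair]; simp
    have h3 : ({v j, v k} : ZFSet.{0}) ∈ v i := by rw [h, ZFSet.pair]; simp
    exact ⟨{v j}, hu.mem_trans h2 (hv i), {v j, v k}, hu.mem_trans h3 (hv i),
      (pair_eq_singleton _).symm, rfl, h⟩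
  · rintro ⟨a, _, b, _, h2, h3, h4⟩
    rw [h4, h2, h3, pair_eq_singleton]
    rfl

end DR

/-! ### Closure properties of inner models -/

theorem mem_of_eq {M : Set ZFSet.{0}} {a b : ZFSet.{0}} (e : a = b) (h : b ∈ M) : a ∈ M := by
  rw [e]
  exact h

section Inner

variable {M : Set ZFSet.{0}} (h : IsInner M)
include h

theorem IsInner.cof' {s : ZFSet.{0}} (hs : s ∈ M) :
    ∃ u ∈ M, u.IsTransitive ∧ s ∈ u ∧ ∀ d, IsDef u d → d ∈ M := by
  obtain ⟨u, hu, ht, hsu, hd⟩ := h.cof {s} (fun z hz => by rw [mem_singleton] at hz; rwa [hz])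
  exact ⟨u, hu, ht, hsu (by simp), hd⟩

/-- Separation for relations which are definable over every transitive set. -/
theorem IsInner.sepD {R : (ℕ → ZFSet.{0}) → Prop} (hR : ∀ u : ZFSet.{0}, u.IsTransitive → DR u R)
    {a b c d : ZFSet.{0}} (ha : a ∈ M) (hb : b ∈ M) (hc : c ∈ M) (hd : d ∈ M) :
    ZFSet.sep (fun z => R (cons z (cons a (cons b (cons c fun _ => d))))) a ∈ M := by
  obtain ⟨u, hu, ht, hsu, hdef⟩ := h.cof {a, b, c, d} (fun z hz => by
    simp only [mem_insert_iff, mem_singleton] at hz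
    rcases hz with rfl | rfl | rfl | rfl <;> assumption)
  have hau : a ∈ u := hsu (by simp)
  have hbu : b ∈ u := hsu (by simp)
  have hcu : c ∈ u := hsu (by simp)
  have hdu : d ∈ u := hsu (by simp)
  have hv : ∀ i, (cons a (cons b (cons c fun _ => d))) i ∈ u :=
    cons_mem hau (cons_mem hbu (cons_mem hcu fun _ => hdu))
  have h1 := hdef _ (((DR.mem 0 1).and (hR u ht)).isDef hv)
  refine mem_of_eq ?_ h1
  ext z
  simp only [mem_sep, cons_zero, cons_one]
  constructor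
  · rintro ⟨h2, h3⟩
    exact ⟨ht.mem_trans h2 hau, h2, h3⟩
  · rintro ⟨_, h2, h3⟩
    exact ⟨h2, h3⟩

theorem IsInner.upair_mem {a b : ZFSet.{0}} (ha : a ∈ M) (hb : b ∈ M) :
    ({a, b} : ZFSet.{0}) ∈ M := by
  obtain ⟨u, hu, ht, hsu, hdef⟩ := h.cof {a, b} (fun z hz => by
    simp only [mem_insert_iff, mem_singleton] at hz
    rcases hz with rfl | rfl <;> assumption)
  have hau : a ∈ u := hsu (by simp)
  have hbu : b ∈ u := hsu (by simp)
  have h1 := hdef _ (((DR.eq 0 1).or (DR.eq 0 2)).isDef (cons_mem hau fun _ => hbu))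
  refine mem_of_eq ?_ h1
  ext z
  simp only [mem_sep, cons_zero, cons_one, cons_two, mem_pair]
  constructor
  · rintro (rfl | rfl)
    · exact ⟨hau, Or.inl rfl⟩
    · exact ⟨hbu, Or.inr rfl⟩
  · rintro ⟨_, h⟩
    exact h

theorem IsInner.singleton_mem {a : ZFSet.{0}} (ha : a ∈ M) : ({a} : ZFSet.{0}) ∈ M := by
  rw [← pair_eq_singleton]
  exact h.upair_mem ha ha

theorem IsInner.pair_mem {a b : ZFSet.{0}} (ha : a ∈ M) (hb : b ∈ M) : ZFSet.pair a b ∈ M :=
  h.upair_mem (h.singleton_mem ha) (h.upair_mem ha hb)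

theorem IsInner.pair_mem_iff {a b : ZFSet.{0}} : ZFSet.pair a b ∈ M ↔ a ∈ M ∧ b ∈ M := by
  refine ⟨fun hp => ?_, fun hp => h.pair_mem hp.1 hp.2⟩
  have h1 : ({a, b} : ZFSet.{0}) ∈ M := h.trans _ hp _ (by rw [ZFSet.pair]; simp)
  exact ⟨h.trans _ h1 _ (by simp), h.trans _ h1 _ (by simp)⟩

theorem IsInner.sUnion_mem {a : ZFSet.{0}} (ha : a ∈ M) : (⋃₀ a : ZFSet.{0}) ∈ M := by
  obtain ⟨u, hu, ht, hsu, hdef⟩ := h.cof' ha
  have h1 := hdef _ ((((DR.mem 0 2).and (DR.mem 1 0)).ex).isDef (fun _ => hsu) )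
  refine mem_of_eq ?_ h1
  ext z
  simp only [mem_sep, cons_zero, cons_one, cons_two, mem_sUnion]
  constructor
  · rintro ⟨w, hw, hz⟩
    have hwu := ht.mem_trans hw hsu
    exact ⟨ht.mem_trans hz hwu, w, hwu, hw, hz⟩
  · rintro ⟨_, w, _, hw, hz⟩
    exact ⟨w, hw, hz⟩

theorem IsInner.union_mem {a b : ZFSet.{0}} (ha : a ∈ M) (hb : b ∈ M) : a ∪ b ∈ M := by
  rw [← sUnion_pair]
  exact h.sUnion_mem (h.upair_mem ha hb)

theorem IsInner.insert_mem {a b : ZFSet.{0}} (ha : a ∈ M) (hb : b ∈ M) : insert a b ∈ M := by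
  rw [insert_eq]
  exact h.union_mem (h.singleton_mem ha) hb

theorem IsInner.sdiff_mem {a b : ZFSet.{0}} (ha : a ∈ M) (hb : b ∈ M) : a \ b ∈ M := by
  have h1 := h.sepD (R := fun v => ¬ v 0 ∈ v 2) (fun u _ => (DR.mem 0 2).not) ha hb hb hb
  exact mem_of_eq (by ext z; simp) h1

theorem IsInner.inter_mem {a b : ZFSet.{0}} (ha : a ∈ M) (hb : b ∈ M) : a ∩ b ∈ M := by
  have h1 := h.sepD (R := fun v => v 0 ∈ v 2) (fun u _ => DR.mem 0 2) ha hb hb hb
  exact mem_of_eq (by ext z; simp) h1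

theorem IsInner.prod_mem {a b : ZFSet.{0}} (ha : a ∈ M) (hb : b ∈ M) : ZFSet.prod a b ∈ M := by
  obtain ⟨u, hu, ht, hsu, hdef⟩ := h.cof (insert a (insert b (ZFSet.prod a b))) (fun z hz => by
    simp only [mem_insert_iff, mem_prod] at hz
    rcases hz with rfl | rfl | ⟨x, hx, y, hy, rfl⟩
    · exact ha
    · exact hb
    · exact h.pair_mem (h.trans _ ha _ hx) (h.trans _ hb _ hy))
  have hau : a ∈ u := hsu (by simp)
  have hbu : b ∈ u := hsu (by simp)
  have h1 := hdef _ ((((DR.mem 1 3).and ((DR.mem 0 4).and (DR.pair ht 2 1 0))).ex.ex).isDef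
    (cons_mem hau fun _ => hbu))
  refine mem_of_eq ?_ h1
  ext z
  simp only [mem_sep, cons_zero, cons_one, cons_two, cons_three, cons_four, mem_prod]
  constructor
  · rintro ⟨x, hx, y, hy, rfl⟩
    exact ⟨hsu (by simp [hx, hy]), x, ht.mem_trans hx hau, y, ht.mem_trans hy hbu, hx, hy, rfl⟩
  · rintro ⟨_, x, _, y, _, hx, hy, hz⟩
    exact ⟨x, hx, y, hy, hz⟩

/-- The power set in an inner model. -/
theorem IsInner.powerset_mem {a : ZFSet.{0}} (ha : a ∈ M) :
    ZFSet.sep (fun z => z ∈ M) (powerset a) ∈ M := by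
  obtain ⟨u, hu, ht, hsu, hdef⟩ := h.cof (insert a (ZFSet.sep (fun z => z ∈ M) (powerset a)))
    (fun z hz => by
      simp only [mem_insert_iff, mem_sep] at hz
      rcases hz with rfl | ⟨_, hz⟩
      · exact ha
      · exact hz)
  have hau : a ∈ u := hsu (by simp)
  have h1 := hdef _ ((((DR.mem 0 1).imp (DR.mem 0 2)).all).isDef (fun _ => hau))
  refine mem_of_eq ?_ h1
  ext z
  simp only [mem_sep, cons_zero, cons_one, cons_two, mem_powerset]
  constructor
  · rintro ⟨h2, h3⟩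
    exact ⟨hsu (by simp [h2, h3]), fun w _ hw => h2 hw⟩
  · rintro ⟨h2, h3⟩
    exact ⟨fun w hw => h3 w (ht.mem_trans hw h2) hw, h.trans _ hu _ h2⟩

/-- All ordinals are elements of an inner model. -/
theorem IsInner.ord_mem (o : Ordinal.{0}) : o.toZFSet ∈ M := by
  induction o using WellFoundedLT.induction with
  | _ o ih =>
    obtain ⟨u, hu, ht, hsu, hdef⟩ := h.cof o.toZFSet (fun z hz => by
      obtain ⟨a, ha, rfl⟩ := Ordinal.mem_toZFSet_iff.1 hz
      exact ih a ha)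
    by_cases hou : ∃ w, w ∈ u
    · obtain ⟨w, hw⟩ := hou
      -- z is transitive: ∀ a ∈ z, ∀ b ∈ a, b ∈ z
      have hT : ∀ i : ℕ, DR u (fun v => ∀ a ∈ u, a ∈ v i → ∀ b ∈ u, b ∈ a → b ∈ v i) := by
        intro i
        have := ((DR.mem (u := u) 0 (i + 1)).imp
          (((DR.mem (u := u) 0 1).imp (DR.mem 0 (i + 2))).all)).all
        refine this.congr fun v _ => ?_
        simp only [cons_zero, cons_succ]
      have h1 := hdef _ (((hT 0).and (((DR.mem (u := u) 0 1).imp (hT 0)).all)).isDef (fun _ => hw))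
      have h2 : (ZFSet.sep (fun z => z.IsOrdinal) u) ∈ M := by
        refine mem_of_eq ?_ h1
        ext z
        simp only [mem_sep, cons_zero, cons_one]
        refine and_congr_right fun hz => ?_
        rw [isOrdinal_iff_forall_mem_isTransitive]
        have key : ∀ x ∈ u, x.IsTransitive ↔ ∀ a ∈ u, a ∈ x → ∀ b ∈ u, b ∈ a → b ∈ x := by
          intro x hx
          rw [isTransitive_iff_mem_trans]
          constructor
          · intro h3 a _ ha b _ hb
            exact h3 hb ha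
          · intro h3 b a hb ha
            have ha' := ht.mem_trans ha hx
            exact h3 a ha' ha b (ht.mem_trans hb ha') hb
        rw [key z hz]
        refine and_congr_right fun _ => ?_
        constructor
        · intro h3 a ha haz
          exact (key a ha).1 (h3 a haz)
        · intro h3 a haz
          have ha := ht.mem_trans haz hz
          exact (key a ha).2 (h3 a ha haz)
      have h3 : (ZFSet.sep (fun z => z.IsOrdinal) u).IsOrdinal := by
        rw [isOrdinal_iff_forall_mem_isOrdinal]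
        constructor
        · intro x hx z hz
          rw [mem_sep] at hx ⊢
          exact ⟨ht.mem_trans hz hx.1, hx.2.mem hz⟩
        · intro x hx
          exact (mem_sep.1 hx).2
      have h4 : o.toZFSet ⊆ ZFSet.sep (fun z => z.IsOrdinal) u := by
        intro z hz
        rw [mem_sep]
        exact ⟨hsu hz, (isOrdinal_toZFSet o).mem hz⟩
      rcases ((isOrdinal_toZFSet o).subset_iff_eq_or_mem h3).1 h4 with h5 | h5
      · rw [h5]
        exact h2
      · exact h.trans _ h2 _ h5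
    · have h1 : u = ∅ := by
        rw [eq_empty]
        exact fun w hw => hou ⟨w, hw⟩
      have h2 : o.toZFSet = ∅ := by
        rw [eq_empty]
        intro w hw
        exact hou ⟨w, hsu hw⟩
      rw [h2, ← h1]
      exact hu

theorem IsInner.empty_mem : (∅ : ZFSet.{0}) ∈ M := by
  have h1 := h.ord_mem 0
  rwa [Ordinal.toZFSet_zero] at h1

/-- Collection: the class `M` is almost universal, the bound can be taken transitive. -/
theorem IsInner.collect (s : ZFSet.{0}) (P : ZFSet.{0} → ZFSet.{0} → Prop) :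
    ∃ b ∈ M, b.IsTransitive ∧ ∀ z ∈ s, (∃ w ∈ M, P z w) → ∃ w ∈ b, P z w := by
  classical
  obtain ⟨b, hb, ht, hsb, _⟩ := h.cof (ZFSet.range (fun z : s =>
      if hz : ∃ w ∈ M, P z w then hz.choose else ∅)) (fun z hz => by
    rw [mem_range] at hz
    obtain ⟨w, rfl⟩ := hz
    split_ifs with hw
    · exact hw.choose_spec.1
    · exact h.empty_mem)
  refine ⟨b, hb, ht, fun z hz hw => ⟨hw.choose, hsb ?_, hw.choose_spec.2⟩⟩
  rw [mem_range]
  refine ⟨⟨z, hz⟩, ?_⟩
  rw [dif_pos hw]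

end Inner

end Pool.Agent.Helper17.CL
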