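import Pool.Agent.Helper17.CL.Cod

/-!
# Project CL: the calculus of amenable relations and functions
-/

set_option autoImplicit false

namespace Pool.Agent.Helper17.CL

open ZFSet

universe u₁ u₂ u₃

/-! ### Natural numbers, ordinals, sets of natural numbers -/

theorem mem_omg {z : ZFSet.{0}} : z ∈ omg ↔ ∃ n : ℕ, z = nat n := by
  unfold omg nat
  rw [Ordinal.mem_toZFSet_iff]
  constructor
  · rintro ⟨a, ha, rfl⟩
    obtain ⟨n, rfl⟩ := Ordinal.lt_omega0.1 ha
    exact ⟨n, rfl⟩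
  · rintro ⟨n, rfl⟩
    exact ⟨n, Ordinal.natCast_lt_omega0 n, rfl⟩

theorem nat_mem_omg (n : ℕ) : nat n ∈ omg := mem_omg.2 ⟨n, rfl⟩

theorem nat_inj : Function.Injective nat := by
  intro a b h
  exact Nat.cast_injective (Ordinal.toZFSet_injective h)

theorem nat_mem_nat {a b : ℕ} : nat a ∈ nat b ↔ a < b := by
  unfold nat
  rw [Ordinal.toZFSet_mem_toZFSet_iff, Nat.cast_lt]

theorem nat_zero : nat 0 = ∅ := by
  unfold nat
  simp

theorem nat_succ (n : ℕ) : nat (n + 1) = insert (nat n) (nat n) := by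
  unfold nat
  rw [Nat.cast_add, Nat.cast_one, Ordinal.toZFSet_add_one]

theorem mem_rl {y : Set ℕ} {z : ZFSet.{0}} : z ∈ rl y ↔ ∃ n ∈ y, z = nat n := by
  unfold rl
  rw [mem_sep]
  constructor
  · rintro ⟨_, h⟩
    exact h
  · rintro ⟨n, hn, rfl⟩
    exact ⟨nat_mem_omg n, n, hn, rfl⟩

theorem nat_mem_rl {y : Set ℕ} {n : ℕ} : nat n ∈ rl y ↔ n ∈ y := by
  rw [mem_rl]
  constructor
  · rintro ⟨m, hm, h⟩
    rw [nat_inj h]
    exact hm
  · intro h
    exact ⟨n, h, rfl⟩

theorem rl_inj : Function.Injective rl := by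
  intro a b h
  ext n
  rw [← nat_mem_rl, ← nat_mem_rl, h]

section DR

variable {u : ZFSet.{0}} (hu : u.IsTransitive)
include hu

theorem DR.isTransitive (i : ℕ) : DR u (fun v => (v i).IsTransitive) := by
  have h1 := ((DR.mem (u := u) 0 (i + 1)).imp
    (((DR.mem (u := u) 0 1).imp (DR.mem 0 (i + 2))).all)).all
  refine h1.congr fun v hv => ?_
  simp only [cons_zero, cons_succ]
  rw [isTransitive_iff_mem_trans]
  constructor
  · intro h3 a _ ha b _ hb
    exact h3 hb ha
  · intro h3 b a hb ha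
    have ha' := hu.mem_trans ha (hv i)
    exact h3 a ha' ha b (hu.mem_trans hb ha') hb

theorem DR.isOrdinal (i : ℕ) : DR u (fun v => (v i).IsOrdinal) := by
  have h1 := (DR.isTransitive hu i).and
    (((DR.mem (u := u) 0 (i + 1)).imp (DR.isTransitive hu 0)).all)
  refine h1.congr fun v hv => ?_
  simp only [cons_zero, cons_succ]
  rw [isOrdinal_iff_forall_mem_isTransitive]
  refine and_congr_right fun _ => ?_
  constructor
  · intro h3 a _ ha
    exact h3 a ha
  · intro h3 a ha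
    exact h3 a (hu.mem_trans ha (hv i)) ha

end DR

noncomputable instance : Cod Ordinal.{0} where
  code o := o.toZFSet
  inj := Ordinal.toZFSet_injective
  am {M} h s hs := by
    refine mem_of_eq ?_ (h.sepD (fun u hu => DR.isOrdinal hu 0) hs hs hs hs)
    ext z
    simp only [mem_sep, cons_zero]
    rw [isOrdinal_iff_mem_range_toZFSet]
    rfl

noncomputable instance : Cod ℕ where
  code n := nat n
  inj := nat_inj
  am {M} h s hs := by
    refine mem_of_eq ?_ (h.inter_mem hs (h.ord_mem Ordinal.omega0))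
    ext z
    simp only [mem_sep, mem_inter]
    refine and_congr_right fun _ => ?_
    rw [show (z ∈ Ordinal.omega0.toZFSet) ↔ z ∈ omg from Iff.rfl, mem_omg]
    exact exists_congr fun n => eq_comm

/-- Coded types whose codes form a set, which is an element of all inner models. -/
class SmallCod (α : Type u₁) [Cod α] where
  /-- the set of all codes -/
  all : ZFSet.{0}
  mem_all : ∀ z, z ∈ all ↔ ∃ x : α, z = code x
  inM : ∀ {M : Set ZFSet.{0}}, IsInner M → all ∈ M

noncomputable instance : SmallCod ℕ where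
  all := omg
  mem_all _ := mem_omg
  inM h := h.ord_mem Ordinal.omega0

noncomputable instance {α : Type u₁} {β : Type u₂} [Cod α] [Cod β] [SmallCod α] [SmallCod β] :
    SmallCod (α × β) where
  all := ZFSet.prod (SmallCod.all α) (SmallCod.all β)
  mem_all z := by
    rw [mem_prod]
    constructor
    · rintro ⟨a, ha, b, hb, rfl⟩
      obtain ⟨x, rfl⟩ := (SmallCod.mem_all a).1 ha
      obtain ⟨y, rfl⟩ := (SmallCod.mem_all b).1 hb
      exact ⟨(x, y), rfl⟩
    · rintro ⟨⟨x, y⟩, rfl⟩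
      exact ⟨code x, (SmallCod.mem_all _).2 ⟨x, rfl⟩, code y, (SmallCod.mem_all _).2 ⟨y, rfl⟩, rfl⟩
  inM h := h.prod_mem (SmallCod.inM h) (SmallCod.inM h)

theorem code_mem_all {α : Type u₁} [Cod α] [SmallCod α] (x : α) : code x ∈ SmallCod.all α :=
  (SmallCod.mem_all _).2 ⟨x, rfl⟩

/-- Sets of elements of a small coded type. -/
noncomputable instance {α : Type u₁} [Cod α] [SmallCod α] : Cod (Set α) where
  code y := ZFSet.sep (fun z => ∃ x ∈ y, z = code x) (SmallCod.all α)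
  inj a b h := by
    have key : ∀ (s : Set α) (x : α),
        code x ∈ ZFSet.sep (fun z => ∃ x ∈ s, z = code x) (SmallCod.all α) ↔ x ∈ s := by
      intro s x
      rw [mem_sep]
      constructor
      · rintro ⟨_, x', hx', h1⟩
        rw [Cod.inj h1]
        exact hx'
      · intro hx
        exact ⟨code_mem_all x, x, hx, rfl⟩
    ext x
    rw [← key a, ← key b]
    simp only at h
    rw [h]
  am {M} h s hs := by
    have hD : ∀ u : ZFSet.{0}, u.IsTransitive → DR u (fun v => v 0 ⊆ v 2) := by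
      intro u hu
      refine (((DR.mem (u := u) 0 1).imp (DR.mem 0 3)).all).congr fun v hv => ?_
      simp only [cons_zero, cons_one, cons_three]
      constructor
      · intro h1 a _ ha
        exact h1 ha
      · intro h1 a ha
        exact h1 a (hu.mem_trans ha (hv 0)) ha
    refine mem_of_eq ?_ (h.sepD hD hs (SmallCod.inM (α := α) h) hs hs)
    ext z
    simp only [mem_sep, cons_zero, cons_one, cons_two]
    refine and_congr_right fun _ => ?_
    constructor
    · rintro ⟨y, rfl⟩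
      exact sep_subset
    · intro h1
      refine ⟨{x | code x ∈ z}, ?_⟩
      ext w
      rw [mem_sep]
      constructor
      · rintro ⟨_, x, hx, rfl⟩
        exact hx
      · intro hw
        obtain ⟨x, rfl⟩ := (SmallCod.mem_all _).1 (h1 hw)
        exact ⟨code_mem_all x, x, hw, rfl⟩

theorem code_setOf {α : Type u₁} [Cod α] [SmallCod α] {y : Set α} {z : ZFSet.{0}} :
    z ∈ code y ↔ ∃ x ∈ y, z = code x := by
  show z ∈ ZFSet.sep (fun z => ∃ x ∈ y, z = code x) (SmallCod.all α) ↔ _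
  rw [mem_sep]
  constructor
  · exact fun h => h.2
  · rintro ⟨x, hx, rfl⟩
    exact ⟨code_mem_all x, x, hx, rfl⟩

theorem code_mem_code {α : Type u₁} [Cod α] [SmallCod α] {y : Set α} {x : α} :
    code x ∈ code y ↔ x ∈ y := by
  rw [code_setOf]
  constructor
  · rintro ⟨x', hx', h⟩
    rw [Cod.inj h]
    exact hx'
  · intro hx
    exact ⟨x, hx, rfl⟩

/-- Functions between small coded types. -/
noncomputable instance {α : Type u₁} {β : Type u₂} [Cod α] [Cod β] [SmallCod α] [SmallCod β] :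
    Cod (α → β) where
  code f := ZFSet.sep (fun z => ∃ x, z = ZFSet.pair (code x) (code (f x)))
    (ZFSet.prod (SmallCod.all α) (SmallCod.all β))
  inj f g h := by
    have key : ∀ (f : α → β) (x : α) (y : β), ZFSet.pair (code x) (code y) ∈
        ZFSet.sep (fun z => ∃ x, z = ZFSet.pair (code x) (code (f x)))
          (ZFSet.prod (SmallCod.all α) (SmallCod.all β)) ↔ f x = y := by
      intro f x y
      rw [mem_sep, pair_mem_prod]
      constructor
      · rintro ⟨_, x', h1⟩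
        rw [pair_inj] at h1
        rw [Cod.inj h1.1, Cod.inj h1.2]
      · rintro rfl
        exact ⟨⟨code_mem_all x, code_mem_all (f x)⟩, x, rfl⟩
    funext x
    simp only at h
    rw [key f x (g x) |>.1 (h ▸ (key g x (g x)).2 rfl)]
  am {M} h s hs := by
    have hD : ∀ u : ZFSet.{0}, u.IsTransitive → DR u (fun v =>
        (∀ t ∈ v 0, ∃ a ∈ v 2, ∃ b ∈ v 3, t = ZFSet.pair a b) ∧
        (∀ a ∈ v 2, ∃ b ∈ v 3, ZFSet.pair a b ∈ v 0 ∧
          ∀ b' ∈ v 3, ZFSet.pair a b' ∈ v 0 → b' = b)) := by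
      intro u hu
      have e1 : DR u (fun v => ∀ t ∈ u, t ∈ v 0 → ∃ a ∈ u, ∃ b ∈ u,
          a ∈ v 2 ∧ b ∈ v 3 ∧ t = ZFSet.pair a b) := by
        refine (((DR.mem (u := u) 0 1).imp ((((DR.mem (u := u) 1 5).and ((DR.mem 0 6).and
          (DR.pair hu 2 1 0))).ex).ex)).all).congr fun v _ => ?_
        simp only [cons_zero, cons_one, cons_two, cons_five, cons_six, cons_three, cons_four]
      have e2 : DR u (fun v => ∀ a ∈ u, a ∈ v 2 → ∃ b ∈ u, b ∈ v 3 ∧
          (∃ t ∈ u, t = ZFSet.pair a b ∧ t ∈ v 0) ∧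
          ∀ b' ∈ u, b' ∈ v 3 → (∃ t ∈ u, t = ZFSet.pair a b' ∧ t ∈ v 0) → b' = b) := by
        have e3 := ((DR.mem (u := u) 0 5).and ((((DR.pair hu 0 2 1).and (DR.mem 0 3)).ex).and
          ((((DR.mem (u := u) 0 6).imp (((DR.pair hu 0 3 1).and (DR.mem 0 4)).ex.imp
            (DR.eq 0 1)))).all))).ex
        refine (((DR.mem (u := u) 0 3).imp (((DR.mem (u := u) 0 5).and
          ((((DR.pair hu 0 2 1).and (DR.mem 0 3)).ex).and
          ((((DR.mem (u := u) 0 6).imp (((DR.pair hu 0 3 1).and (DR.mem 0 4)).ex.imp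
            (DR.eq 0 1)))).all))).ex)).all).congr fun v _ => ?_
        simp only [cons_zero, cons_one, cons_two, cons_five, cons_six, cons_three, cons_four]
      refine (e1.and e2).congr fun v hv => ?_
      refine and_congr ?_ ?_
      · constructor
        · intro h1 t _ ht
          obtain ⟨a, ha, b, hb, h2⟩ := h1 t ht
          exact ⟨a, hu.mem_trans ha (hv 2), b, hu.mem_trans hb (hv 3), ha, hb, h2⟩
        · intro h1 t ht
          obtain ⟨a, _, b, _, ha, hb, h2⟩ := h1 t (hu.mem_trans ht (hv 0)) ht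
          exact ⟨a, ha, b, hb, h2⟩
      · constructor
        · intro h1 a _ ha
          obtain ⟨b, hb, h2, h3⟩ := h1 a ha
          refine ⟨b, hu.mem_trans hb (hv 3), hb, ⟨_, hu.mem_trans h2 (hv 0), rfl, h2⟩, ?_⟩
          rintro b' _ hb' ⟨_, _, rfl, h4⟩
          exact h3 b' hb' h4
        · intro h1 a ha
          obtain ⟨b, _, hb, ⟨_, _, rfl, h2⟩, h3⟩ := h1 a (hu.mem_trans ha (hv 2)) ha
          exact ⟨b, hb, h2, fun b' hb' h4 => h3 b' (hu.mem_trans hb' (hv 3)) hb'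
            ⟨_, hu.mem_trans h4 (hv 0), rfl, h4⟩⟩
    refine mem_of_eq ?_ (h.sepD hD hs (SmallCod.inM (α := α) h) (SmallCod.inM (α := β) h) hs)
    ext z
    simp only [mem_sep, cons_zero, cons_one, cons_two, cons_three]
    refine and_congr_right fun _ => ?_
    constructor
    · rintro ⟨f, rfl⟩
      constructor
      · intro t ht
        rw [mem_sep] at ht
        obtain ⟨_, x, rfl⟩ := ht
        exact ⟨_, code_mem_all x, _, code_mem_all (f x), rfl⟩
      · intro a ha
        obtain ⟨x, rfl⟩ := (SmallCod.mem_all _).1 ha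
        refine ⟨_, code_mem_all (f x), ?_, ?_⟩
        · rw [mem_sep, pair_mem_prod]
          exact ⟨⟨code_mem_all x, code_mem_all (f x)⟩, x, rfl⟩
        · intro b' _ hb'
          rw [mem_sep] at hb'
          obtain ⟨_, x', h1⟩ := hb'
          rw [pair_inj] at h1
          rw [h1.2, Cod.inj h1.1]
    · rintro ⟨h1, h2⟩
      have h3 : ∀ x : α, ∃ y : β, ZFSet.pair (code x) (code y) ∈ z ∧
          ∀ y' : β, ZFSet.pair (code x) (code y') ∈ z → y' = y := by
        intro x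
        obtain ⟨b, hb, h4, h5⟩ := h2 _ (code_mem_all x)
        obtain ⟨y, rfl⟩ := (SmallCod.mem_all _).1 hb
        exact ⟨y, h4, fun y' hy' => Cod.inj (h5 _ (code_mem_all y') hy')⟩
      choose f hf hf' using h3
      refine ⟨f, ?_⟩
      ext t
      rw [mem_sep, mem_prod]
      constructor
      · rintro ⟨_, x, rfl⟩
        exact hf x
      · intro ht
        obtain ⟨a, ha, b, hb, rfl⟩ := h1 t ht
        refine ⟨⟨a, ha, b, hb, rfl⟩, ?_⟩
        obtain ⟨x, rfl⟩ := (SmallCod.mem_all _).1 ha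
        obtain ⟨y, rfl⟩ := (SmallCod.mem_all _).1 hb
        exact ⟨x, by rw [hf' x y ht]⟩

theorem mem_code_fun {α : Type u₁} {β : Type u₂} [Cod α] [Cod β] [SmallCod α] [SmallCod β]
    {f : α → β} {z : ZFSet.{0}} : z ∈ code f ↔ ∃ x, z = ZFSet.pair (code x) (code (f x)) := by
  show z ∈ ZFSet.sep (fun z => ∃ x, z = ZFSet.pair (code x) (code (f x)))
    (ZFSet.prod (SmallCod.all α) (SmallCod.all β)) ↔ _
  rw [mem_sep]
  constructor
  · exact fun h => h.2
  · rintro ⟨x, rfl⟩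
    exact ⟨pair_mem_prod.2 ⟨code_mem_all x, code_mem_all (f x)⟩, x, rfl⟩

@[simp] theorem code_ord (o : Ordinal.{0}) : code o = o.toZFSet := rfl
@[simp] theorem code_nat (n : ℕ) : code n = nat n := rfl
@[simp] theorem code_real (y : Set ℕ) : code y = rl y := rfl

/-- Types all of whose codes are in all inner models. -/
class AbsCod (α : Type u₁) [Cod α] : Prop where
  mem : ∀ {M : Set ZFSet.{0}}, IsInner M → ∀ x : α, code x ∈ M

instance : AbsCod Ordinal.{0} := ⟨fun h o => h.ord_mem o⟩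
instance {α : Type u₁} [Cod α] [SmallCod α] : AbsCod α :=
  ⟨fun h x => h.trans _ (SmallCod.inM h) _ (code_mem_all x)⟩
instance {α : Type u₁} {β : Type u₂} [Cod α] [Cod β] [AbsCod α] [AbsCod β] : AbsCod (α × β) :=
  ⟨fun h x => (code_mem_prod h).2 ⟨AbsCod.mem h x.1, AbsCod.mem h x.2⟩⟩

/-! ### Graphs, images, application -/

/-- The graph of `f` on the set `x`. -/
noncomputable def gr (f : ZFSet.{0} → ZFSet.{0}) (x : ZFSet.{0}) : ZFSet.{0} :=
  ZFSet.range (fun z : x => ZFSet.pair z (f z))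

/-- The image of the set `x`. -/
noncomputable def img (f : ZFSet.{0} → ZFSet.{0}) (x : ZFSet.{0}) : ZFSet.{0} :=
  ZFSet.range (fun z : x => f z)

/-- The value of the function `g` at `x`. -/
noncomputable def app (g x : ZFSet.{0}) : ZFSet.{0} :=
  ⋃₀ (ZFSet.sep (fun w => ZFSet.pair x w ∈ g) (⋃₀ (⋃₀ g : ZFSet.{0})))

/-- The restriction of the relation `g` to `a`. -/
noncomputable def res (g a : ZFSet.{0}) : ZFSet.{0} :=
  ZFSet.sep (fun t => ∃ x ∈ a, ∃ w, t = ZFSet.pair x w) g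

theorem mem_gr {f : ZFSet.{0} → ZFSet.{0}} {x t : ZFSet.{0}} :
    t ∈ gr f x ↔ ∃ z ∈ x, t = ZFSet.pair z (f z) := by
  unfold gr
  rw [mem_range]
  constructor
  · rintro ⟨⟨z, hz⟩, rfl⟩
    exact ⟨z, hz, rfl⟩
  · rintro ⟨z, hz, rfl⟩
    exact ⟨⟨z, hz⟩, rfl⟩

theorem mem_img {f : ZFSet.{0} → ZFSet.{0}} {x t : ZFSet.{0}} :
    t ∈ img f x ↔ ∃ z ∈ x, t = f z := by
  unfold img
  rw [mem_range]
  constructor
  · rintro ⟨⟨z, hz⟩, rfl⟩
    exact ⟨z, hz, rfl⟩
  · rintro ⟨z, hz, rfl⟩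
    exact ⟨⟨z, hz⟩, rfl⟩

theorem pair_mem_gr {f : ZFSet.{0} → ZFSet.{0}} {x z w : ZFSet.{0}} :
    ZFSet.pair z w ∈ gr f x ↔ z ∈ x ∧ w = f z := by
  rw [mem_gr]
  constructor
  · rintro ⟨z', hz', h⟩
    rw [pair_inj] at h
    obtain ⟨rfl, rfl⟩ := h
    exact ⟨hz', rfl⟩
  · rintro ⟨hz, rfl⟩
    exact ⟨z, hz, rfl⟩

theorem mem_app {g x z : ZFSet.{0}} : z ∈ app g x ↔ ∃ w, ZFSet.pair x w ∈ g ∧ z ∈ w := by
  unfold app
  simp only [mem_sUnion, mem_sep]
  constructor
  · rintro ⟨w, ⟨_, hw⟩, hz⟩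
    exact ⟨w, hw, hz⟩
  · rintro ⟨w, hw, hz⟩
    refine ⟨w, ⟨⟨{x, w}, ⟨_, hw, ?_⟩, by simp⟩, hw⟩, hz⟩
    rw [ZFSet.pair]
    simp

theorem app_eq {g x w : ZFSet.{0}} (h : ZFSet.pair x w ∈ g)
    (h' : ∀ w', ZFSet.pair x w' ∈ g → w' = w) : app g x = w := by
  ext z
  rw [mem_app]
  constructor
  · rintro ⟨w', hw', hz⟩
    rw [← h' w' hw']
    exact hz
  · intro hz
    exact ⟨w, h, hz⟩

theorem app_gr {f : ZFSet.{0} → ZFSet.{0}} {x z : ZFSet.{0}} (hz : z ∈ x) :
    app (gr f x) z = f z :=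
  app_eq (pair_mem_gr.2 ⟨hz, rfl⟩) (fun _ hw => (pair_mem_gr.1 hw).2)

theorem res_gr {f : ZFSet.{0} → ZFSet.{0}} {x a : ZFSet.{0}} (ha : a ⊆ x) :
    res (gr f x) a = gr f a := by
  ext t
  unfold res
  simp only [mem_sep, mem_gr]
  constructor
  · rintro ⟨⟨z, _, rfl⟩, y, hy, w, h⟩
    rw [pair_inj] at h
    obtain ⟨rfl, rfl⟩ := h
    exact ⟨z, hy, rfl⟩
  · rintro ⟨z, hz, rfl⟩
    exact ⟨⟨z, ha hz, rfl⟩, z, hz, _, rfl⟩

section

variable {M : Set ZFSet.{0}} (h : IsInner M)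
variable {α : Type u₁} {β : Type u₂} {γ : Type u₃}
variable [Cod α] [Cod β] [Cod γ]

include h

/-- A set of elements of `M` which is given by an amenable predicate is an element of `M`. -/
theorem IsInner.mem_of_am {s : ZFSet.{0}} {R : ZFSet.{0} → Prop} (hs : ∀ z ∈ s, z ∈ M)
    (hR : Am M R) (e : ∀ z ∈ M, (z ∈ s ↔ R z)) : s ∈ M := by
  obtain ⟨b, hb, _, hsb, _⟩ := h.cof s hs
  refine mem_of_eq ?_ (hR b hb)
  ext z
  simp only [mem_sep, code_set, exists_eq_left]
  constructor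
  · intro hz
    exact ⟨hsb hz, (e z (hs z hz)).1 hz⟩
  · rintro ⟨hz, h1⟩
    exact (e z (h.trans _ hb _ hz)).2 h1

/-! ### Substitution in two variables -/

theorem Am.comp₂ {R : β → γ → Prop} {f : α → β} {g : α → γ}
    (hR : Am M (fun q : β × γ => R q.1 q.2)) (hf : AmF M f) (hg : AmF M g) :
    Am M (fun x => R (f x) (g x)) := hR.comp h (hf.prod h hg)

theorem AmF.comp₂ {δ : Type*} [Cod δ] {k : β → γ → δ} {f : α → β} {g : α → γ}
    (hk : AmF M (fun q : β × γ => k q.1 q.2)) (hf : AmF M f) (hg : AmF M g) :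
    AmF M (fun x => k (f x) (g x)) := hk.comp h (hf.prod h hg)

/-! ### Quantifiers -/

theorem Am.exA [AbsCod β] {R : α → β → Prop} (hR : Am M (fun q : α × β => R q.1 q.2)) :
    Am M (fun x => ∃ y, R x y) :=
  (hR.ex h).congr h fun x _ => exists_congr fun y => by
    simp [AbsCod.mem h y]

theorem Am.allA [AbsCod β] {R : α → β → Prop} (hR : Am M (fun q : α × β => R q.1 q.2)) :
    Am M (fun x => ∀ y, R x y) :=
  (hR.all h).congr h fun x _ => forall_congr' fun y => by
    simp [AbsCod.mem h y]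

theorem Am.bex {f : α → ZFSet.{0}} {R : α → ZFSet.{0} → Prop} (hf : AmF M f)
    (hR : Am M (fun q : α × ZFSet.{0} => R q.1 q.2)) : Am M (fun x => ∃ z ∈ f x, R x z) := by
  have h1 : Am M (fun q : α × ZFSet.{0} => q.2 ∈ f q.1 ∧ R q.1 q.2) :=
    (Am.mem h (AmF.snd h) (hf.comp h (AmF.fst h))).and h hR
  refine (h1.ex h (R := fun x z => z ∈ f x ∧ R x z)).congr h fun x hx => ?_
  constructor
  · rintro ⟨z, hz, h2⟩
    exact ⟨z, h.trans _ (hf.mem _ hx) _ hz, hz, h2⟩
  · rintro ⟨z, _, hz, h2⟩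
    exact ⟨z, hz, h2⟩

theorem Am.ball {f : α → ZFSet.{0}} {R : α → ZFSet.{0} → Prop} (hf : AmF M f)
    (hR : Am M (fun q : α × ZFSet.{0} => R q.1 q.2)) : Am M (fun x => ∀ z ∈ f x, R x z) :=
  ((Am.bex h hf (R := fun x z => ¬ R x z) (hR.not h)).not h).congr h fun x _ => by
    push Not
    rfl

/-! ### Set operations -/

theorem AmF.insert {f g : α → ZFSet.{0}} (hf : AmF M f) (hg : AmF M g) :
    AmF M (fun x => Insert.insert (f x) (g x)) := by
  refine AmF.ofMem h (fun x hx => h.insert_mem (hf.mem x hx) (hg.mem x hx)) ?_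
  refine ((Am.eq h (AmF.snd h) (hf.comp h (AmF.fst h))).or h
    (Am.mem h (AmF.snd h) (hg.comp h (AmF.fst h)))).congr h fun q _ => ?_
  rw [mem_insert_iff]

theorem AmF.empty : AmF M (fun _ : α => (∅ : ZFSet.{0})) := AmF.const h _ h.empty_mem

theorem AmF.singleton {f : α → ZFSet.{0}} (hf : AmF M f) :
    AmF M (fun x => ({f x} : ZFSet.{0})) := by
  refine AmF.ofMem h (fun x hx => h.singleton_mem (hf.mem x hx)) ?_
  refine (Am.eq h (AmF.snd h) (hf.comp h (AmF.fst h))).congr h fun q _ => ?_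
  rw [mem_singleton]

theorem AmF.upair {f g : α → ZFSet.{0}} (hf : AmF M f) (hg : AmF M g) :
    AmF M (fun x => ({f x, g x} : ZFSet.{0})) := hf.insert h (hg.singleton h)

theorem AmF.pair {f g : α → ZFSet.{0}} (hf : AmF M f) (hg : AmF M g) :
    AmF M (fun x => ZFSet.pair (f x) (g x)) :=
  (hf.singleton h).upair h (hf.upair h hg)

theorem AmF.union {f g : α → ZFSet.{0}} (hf : AmF M f) (hg : AmF M g) :
    AmF M (fun x => f x ∪ g x) := by
  refine AmF.ofMem h (fun x hx => h.union_mem (hf.mem x hx) (hg.mem x hx)) ?_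
  refine ((Am.mem h (AmF.snd h) (hf.comp h (AmF.fst h))).or h
    (Am.mem h (AmF.snd h) (hg.comp h (AmF.fst h)))).congr h fun q _ => ?_
  rw [mem_union]

theorem AmF.inter {f g : α → ZFSet.{0}} (hf : AmF M f) (hg : AmF M g) :
    AmF M (fun x => f x ∩ g x) := by
  refine AmF.ofMem h (fun x hx => h.inter_mem (hf.mem x hx) (hg.mem x hx)) ?_
  refine ((Am.mem h (AmF.snd h) (hf.comp h (AmF.fst h))).and h
    (Am.mem h (AmF.snd h) (hg.comp h (AmF.fst h)))).congr h fun q _ => ?_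
  rw [mem_inter]

theorem AmF.sdiff {f g : α → ZFSet.{0}} (hf : AmF M f) (hg : AmF M g) :
    AmF M (fun x => f x \ g x) := by
  refine AmF.ofMem h (fun x hx => h.sdiff_mem (hf.mem x hx) (hg.mem x hx)) ?_
  refine ((Am.mem h (AmF.snd h) (hf.comp h (AmF.fst h))).and h
    ((Am.mem h (AmF.snd h) (hg.comp h (AmF.fst h))).not h)).congr h fun q _ => ?_
  rw [mem_sdiff]

theorem AmF.sUnion {f : α → ZFSet.{0}} (hf : AmF M f) :
    AmF M (fun x => (⋃₀ (f x) : ZFSet.{0})) := by
  refine AmF.ofMem h (fun x hx => h.sUnion_mem (hf.mem x hx)) ?_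
  refine (Am.bex h (hf.comp h (AmF.fst h)) (R := fun (q : α × ZFSet.{0}) z => q.2 ∈ z)
    (Am.mem h ((AmF.snd h).comp h (AmF.fst h)) (AmF.snd h))).congr h fun q _ => ?_
  rw [mem_sUnion]

theorem AmF.zprod {f g : α → ZFSet.{0}} (hf : AmF M f) (hg : AmF M g) :
    AmF M (fun x => ZFSet.prod (f x) (g x)) := by
  refine AmF.ofMem h (fun x hx => h.prod_mem (hf.mem x hx) (hg.mem x hx)) ?_
  refine (Am.bex h (hf.comp h (AmF.fst h)) (R := fun (q : α × ZFSet.{0}) a =>
    ∃ b ∈ g q.1, q.2 = ZFSet.pair a b) (Am.bex h (hg.comp h ((AmF.fst h).comp h (AmF.fst h)))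
      (R := fun (q : (α × ZFSet.{0}) × ZFSet.{0}) b => q.1.2 = ZFSet.pair q.2 b) ?_)).congr h
        fun q _ => ?_
  · exact Am.eq h ((AmF.snd h).comp h ((AmF.fst h).comp h (AmF.fst h)))
      (((AmF.snd h).comp h (AmF.fst h)).pair h (AmF.snd h))
  · rw [mem_prod]

theorem Am.subset {f g : α → ZFSet.{0}} (hf : AmF M f) (hg : AmF M g) :
    Am M (fun x => f x ⊆ g x) := by
  refine (Am.ball h hf (R := fun x z => z ∈ g x)
    (Am.mem h (AmF.snd h) (hg.comp h (AmF.fst h)))).congr h fun x _ => ?_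
  rfl

theorem AmF.ite {R : α → Prop} [DecidablePred R] {f g : α → β} (hR : Am M R) (hf : AmF M f)
    (hg : AmF M g) : AmF M (fun x => if R x then f x else g x) := by
  refine AmF.mk' (fun x hx => ?_) ?_
  · split_ifs
    · exact hf.mem x hx
    · exact hg.mem x hx
  · refine (((hR.comp h (AmF.fst h)).and h hf.graph).or h
      (((hR.comp h (AmF.fst h)).not h).and h hg.graph)).congr h fun q _ => ?_
    by_cases hq : R q.1
    · simp [hq]
    · simp [hq]

/-- Replacement. -/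
theorem AmF.img {f : α → ZFSet.{0} → ZFSet.{0}} {g : α → ZFSet.{0}} (hg : AmF M g)
    (hf : AmF M (fun q : α × ZFSet.{0} => f q.1 q.2)) :
    AmF M (fun x => CL.img (f x) (g x)) := by
  have h1 : Am M (fun q : α × ZFSet.{0} => q.2 ∈ CL.img (f q.1) (g q.1)) := by
    refine (Am.bex h (hg.comp h (AmF.fst h)) (R := fun (q : α × ZFSet.{0}) z => q.2 = f q.1 z)
      (Am.eq h ((AmF.snd h).comp h (AmF.fst h)) (hf.comp h (f := fun q : (α × ZFSet.{0}) × ZFSet.{0}
        => (q.1.1, q.2)) (((AmF.fst h).comp h (AmF.fst h)).prod h (AmF.snd h))))).congr h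
          fun q _ => ?_
    rw [mem_img]
  refine AmF.ofMem h (fun x hx => ?_) h1
  refine h.mem_of_am (R := fun z => z ∈ CL.img (f x) (g x)) (fun z hz => ?_) ?_ (fun z _ => Iff.rfl)
  · rw [mem_img] at hz
    obtain ⟨w, hw, rfl⟩ := hz
    exact hf.mem (x, w) ((code_mem_prod h).2 ⟨hx, h.trans _ (hg.mem x hx) _ hw⟩)
  · exact h1.comp h (f := fun z : ZFSet.{0} => (x, z)) ((AmF.const h x hx).prod h (AmF.id h))

theorem AmF.gr {f : α → ZFSet.{0} → ZFSet.{0}} {g : α → ZFSet.{0}} (hg : AmF M g)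
    (hf : AmF M (fun q : α × ZFSet.{0} => f q.1 q.2)) :
    AmF M (fun x => CL.gr (f x) (g x)) := by
  have h1 : ∀ x, CL.gr (f x) (g x) = CL.img (fun z => ZFSet.pair z (f x z)) (g x) := by
    intro x
    ext t
    rw [mem_gr, mem_img]
  simp only [h1]
  exact AmF.img h hg (f := fun x z => ZFSet.pair z (f x z)) ((AmF.snd h).pair h hf)

theorem AmF.app {f g : α → ZFSet.{0}} (hf : AmF M f) (hg : AmF M g) :
    AmF M (fun x => CL.app (f x) (g x)) := by
  unfold CL.app
  refine AmF.sUnion h (AmF.sep h ((hf.sUnion h).sUnion h)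
    (R := fun x w => ZFSet.pair (g x) w ∈ f x) ?_)
  exact Am.mem h ((hg.comp h (AmF.fst h)).pair h (AmF.snd h)) (hf.comp h (AmF.fst h))

theorem AmF.res {f g : α → ZFSet.{0}} (hf : AmF M f) (hg : AmF M g) :
    AmF M (fun x => CL.res (f x) (g x)) := by
  unfold CL.res
  refine AmF.sep h hf (R := fun x t => ∃ y ∈ g x, ∃ w, t = ZFSet.pair y w) ?_
  have h1 : Am M (fun q : (α × ZFSet.{0}) × ZFSet.{0} => ∃ w : ZFSet.{0}, Cod.code w ∈ M ∧
      q.1.2 = ZFSet.pair q.2 w) := by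
    refine Am.ex h (R := fun (q : (α × ZFSet.{0}) × ZFSet.{0}) w => q.1.2 = ZFSet.pair q.2 w) ?_
    exact Am.eq h ((AmF.snd h).comp h ((AmF.fst h).comp h (AmF.fst h)))
      (((AmF.snd h).comp h (AmF.fst h)).pair h (AmF.snd h))
  refine (Am.bex h (hg.comp h (AmF.fst h)) (R := fun (q : α × ZFSet.{0}) y =>
    ∃ w : ZFSet.{0}, Cod.code w ∈ M ∧ q.2 = ZFSet.pair y w) h1).congr h fun q hq => ?_
  constructor
  · rintro ⟨y, hy, w, hw⟩
    refine ⟨y, hy, w, ?_, hw⟩
    have h2 : q.2 ∈ M := ((code_mem_prod h).1 hq).2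
    rw [hw] at h2
    exact (h.pair_mem_iff.1 h2).2
  · rintro ⟨y, hy, w, _, hw⟩
    exact ⟨y, hy, w, hw⟩

/-! ### Natural numbers and ordinals -/

theorem AmF.natCast : AmF M (fun n : ℕ => (n : Ordinal.{0})) := by
  refine AmF.mk' (fun n _ => h.ord_mem n) ?_
  refine (Am.eq h ((AmF.code h).comp h (AmF.fst (α := ℕ) (β := Ordinal.{0}) h))
    ((AmF.code h).comp h (AmF.snd h))).congr h fun q _ => ?_
  simp only [code_nat, code_ord]
  unfold nat
  exact Ordinal.toZFSet_injective.eq_iff.symm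

theorem Am.ordLt {f g : α → Ordinal.{0}} (hf : AmF M f) (hg : AmF M g) :
    Am M (fun x => f x < g x) := by
  refine (Am.mem h ((AmF.code h).comp h hf) ((AmF.code h).comp h hg)).congr h fun x _ => ?_
  simp

theorem Am.natLt {f g : α → ℕ} (hf : AmF M f) (hg : AmF M g) :
    Am M (fun x => f x < g x) := by
  refine (Am.mem h ((AmF.code h).comp h hf) ((AmF.code h).comp h hg)).congr h fun x _ => ?_
  simp [nat_mem_nat]

theorem AmF.ordSucc {f : α → Ordinal.{0}} (hf : AmF M f) : AmF M (fun x => f x + 1) := by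
  refine AmF.mk' (fun x _ => h.ord_mem _) ?_
  refine (Am.eq h (((AmF.code h).comp h (hf.comp h (AmF.fst h))).insert h
    ((AmF.code h).comp h (hf.comp h (AmF.fst h)))) ((AmF.code h).comp h
      (AmF.snd (β := Ordinal.{0}) h))).congr h fun q _ => ?_
  simp only [code_ord]
  rw [← Ordinal.toZFSet_add_one, Ordinal.toZFSet_injective.eq_iff]

theorem AmF.natSucc {f : α → ℕ} (hf : AmF M f) : AmF M (fun x => f x + 1) := by
  refine AmF.mk' (fun x _ => AbsCod.mem h _) ?_
  refine (Am.eq h (((AmF.code h).comp h (hf.comp h (AmF.fst h))).insert h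
    ((AmF.code h).comp h (hf.comp h (AmF.fst h)))) ((AmF.code h).comp h
      (AmF.snd (β := ℕ) h))).congr h fun q _ => ?_
  simp only [code_nat]
  rw [← nat_succ, nat_inj.eq_iff]

theorem Am.mem_set [SmallCod γ] {f : α → γ} {g : α → Set γ} (hf : AmF M f) (hg : AmF M g) :
    Am M (fun x => f x ∈ g x) := by
  refine (Am.mem h ((AmF.code h).comp h hf) ((AmF.code h).comp h hg)).congr h fun x _ => ?_
  rw [code_mem_code]

/-- Comprehension. -/
theorem AmF.setOf [SmallCod γ] {R : α → γ → Prop} (hR : Am M (fun q : α × γ => R q.1 q.2)) :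
    AmF M (fun x => {n | R x n}) := by
  have h1 : AmF M (fun x => ZFSet.sep (fun z => ∃ n : γ, R x n ∧ z = Cod.code n)
      (SmallCod.all γ)) := by
    refine AmF.sep h (AmF.const h (SmallCod.all γ) (SmallCod.inM h)) ?_
    refine Am.exA h (R := fun (q : α × ZFSet.{0}) (n : γ) => R q.1 n ∧ q.2 = Cod.code n) ?_
    exact (hR.comp h (f := fun q : (α × ZFSet.{0}) × γ => (q.1.1, q.2))
      (((AmF.fst h).comp h (AmF.fst h)).prod h (AmF.snd h))).and h
        (Am.eq h ((AmF.snd h).comp h (AmF.fst h)) ((AmF.code h).comp h (AmF.snd h)))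
  have h2 : ∀ x, ZFSet.sep (fun z => ∃ n : γ, R x n ∧ z = Cod.code n) (SmallCod.all γ) =
      Cod.code {n | R x n} := by
    intro x
    rfl
  simp only [h2] at h1
  refine AmF.mk' (fun x hx => h1.mem x hx) ?_
  refine (Am.eq h (h1.comp h (AmF.fst h)) ((AmF.code h).comp h (AmF.snd (β := Set γ) h))).congr h
    fun q _ => ?_
  exact Cod.inj.eq_iff.symm

/-- Application of functions between small coded types. -/
theorem AmF.apply {δ : Type*} [Cod δ] [SmallCod γ] [SmallCod δ] {g : α → γ → δ} {f : α → γ}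
    (hg : AmF M g) (hf : AmF M f) : AmF M (fun x => g x (f x)) := by
  refine AmF.mk' (fun x _ => AbsCod.mem h _) ?_
  refine (Am.mem h (((AmF.code h).comp h (hf.comp h (AmF.fst h))).pair h
    ((AmF.code h).comp h (AmF.snd (β := δ) h))) ((AmF.code h).comp h
      (hg.comp h (AmF.fst h)))).congr h fun q _ => ?_
  rw [mem_code_fun]
  constructor
  · intro h1
    exact ⟨f q.1, by rw [h1]⟩
  · rintro ⟨x, hx⟩
    rw [pair_inj] at hx
    rw [Cod.inj hx.1, Cod.inj hx.2]

/-- Abstraction. -/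
theorem AmF.lam {δ : Type*} [Cod δ] [SmallCod γ] [SmallCod δ] {f : α → γ → δ}
    (hf : AmF M (fun q : α × γ => f q.1 q.2)) : AmF M (fun x => (fun z => f x z)) := by
  have h1 : AmF M (fun x => ZFSet.sep (fun z => ∃ n : γ, z = ZFSet.pair (Cod.code n)
      (Cod.code (f x n))) (ZFSet.prod (SmallCod.all γ) (SmallCod.all δ))) := by
    refine AmF.sep h (AmF.const h _ (h.prod_mem (SmallCod.inM h) (SmallCod.inM h))) ?_
    refine Am.exA h (R := fun (q : α × ZFSet.{0}) (n : γ) => q.2 = ZFSet.pair (Cod.code n)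
      (Cod.code (f q.1 n))) ?_
    refine Am.eq h ((AmF.snd h).comp h (AmF.fst h)) (((AmF.code h).comp h (AmF.snd h)).pair h
      ((AmF.code h).comp h ?_))
    exact hf.comp h (f := fun q : (α × ZFSet.{0}) × γ => (q.1.1, q.2))
      (((AmF.fst h).comp h (AmF.fst h)).prod h (AmF.snd h))
  refine AmF.mk' (fun x hx => h1.mem x hx) ?_
  refine (Am.eq h (h1.comp h (AmF.fst h)) ((AmF.code h).comp h
    (AmF.snd (β := γ → δ) h))).congr h fun q _ => ?_
  exact Cod.inj.eq_iff.symm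

end

end Pool.Agent.Helper17.CL
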