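import Pool.Agent.Helper17.CL.Basic

/-!
# Project CL: amenable relations and functions on coded types
-/

set_option autoImplicit false

namespace Pool.Agent.Helper17.CL

open ZFSet

universe u₁ u₂ u₃ u₄

/-- Types whose elements are coded by sets; the class of the codes is amenable to all inner
models. -/
class Cod (α : Type u₁) where
  /-- the code -/
  code : α → ZFSet.{0}
  inj : Function.Injective code
  am : ∀ {M : Set ZFSet.{0}}, IsInner M → ∀ s ∈ M, ZFSet.sep (fun z => ∃ x : α, code x = z) s ∈ M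

export Cod (code)

/-- The relation `R` is amenable to `M`: the set of the codes in `s` of the elements which satisfy
`R` is an element of `M`, for every element `s` of `M`. -/
def Am (M : Set ZFSet.{0}) {α : Type u₁} [Cod α] (R : α → Prop) : Prop :=
  ∀ s ∈ M, ZFSet.sep (fun z => ∃ x, code x = z ∧ R x) s ∈ M

/-- The function `f` is amenable to `M`. -/
structure AmF (M : Set ZFSet.{0}) {α : Type u₁} {β : Type u₂} [Cod α] [Cod β] (f : α → β) :
    Prop where
  mem : ∀ x, code x ∈ M → code (f x) ∈ M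
  am : ∀ s ∈ M, ZFSet.sep (fun z => ∃ x, ZFSet.pair (code x) (code (f x)) = z) s ∈ M

instance : Cod ZFSet.{0} where
  code x := x
  inj _ _ h := h
  am h s hs := mem_of_eq (by ext z; simp) hs

@[simp] theorem code_set (x : ZFSet.{0}) : code x = x := rfl

instance {α : Type u₁} {β : Type u₂} [Cod α] [Cod β] : Cod (α × β) where
  code p := ZFSet.pair (code p.1) (code p.2)
  inj p q h := by
    rw [pair_inj] at h
    exact Prod.ext (Cod.inj h.1) (Cod.inj h.2)
  am {M} h s hs := by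
    obtain ⟨u, hu, ht, hsu, _⟩ := h.cof' hs
    have h1 := Cod.am (α := α) h u hu
    have h2 := Cod.am (α := β) h u hu
    refine mem_of_eq ?_ (h.inter_mem hs (h.prod_mem h1 h2))
    ext z
    simp only [mem_sep, mem_inter, mem_prod]
    refine and_congr_right fun hz => ?_
    constructor
    · rintro ⟨⟨x, y⟩, rfl⟩
      have h3 : ZFSet.pair (code x) (code y) ∈ u := ht.mem_trans hz hsu
      have h4 : ({code x, code y} : ZFSet.{0}) ∈ u :=
        ht.mem_trans (by rw [ZFSet.pair]; simp) h3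
      exact ⟨code x, ⟨ht.mem_trans (by simp) h4, x, rfl⟩, code y,
        ⟨ht.mem_trans (by simp) h4, y, rfl⟩, rfl⟩
    · rintro ⟨a, ⟨_, x, rfl⟩, b, ⟨_, y, rfl⟩, rfl⟩
      exact ⟨(x, y), rfl⟩

theorem code_prod {α : Type u₁} {β : Type u₂} [Cod α] [Cod β] (p : α × β) :
    code p = ZFSet.pair (code p.1) (code p.2) := rfl

@[simp] theorem code_mk {α : Type u₁} {β : Type u₂} [Cod α] [Cod β] (x : α) (y : β) :
    code (x, y) = ZFSet.pair (code x) (code y) := rfl

section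

variable {M : Set ZFSet.{0}} (h : IsInner M)
variable {α : Type u₁} {β : Type u₂} {γ : Type u₃} {δ : Type u₄}
variable [Cod α] [Cod β] [Cod γ] [Cod δ]

theorem Am.congr {R S : α → Prop} (hR : Am M R) (hM : IsInner M)
    (e : ∀ x, code x ∈ M → (S x ↔ R x)) : Am M S := by
  intro s hs
  refine mem_of_eq ?_ (hR s hs)
  ext z
  simp only [mem_sep]
  refine and_congr_right fun hz => exists_congr fun x => and_congr_right fun hx => ?_
  exact e x (hx ▸ hM.trans _ hs _ hz)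

include h

theorem code_mem_prod {p : α × β} : code p ∈ M ↔ code p.1 ∈ M ∧ code p.2 ∈ M := h.pair_mem_iff

theorem Am.and {R S : α → Prop} (hR : Am M R) (hS : Am M S) : Am M (fun x => R x ∧ S x) := by
  intro s hs
  refine mem_of_eq ?_ (h.inter_mem (hR s hs) (hS s hs))
  ext z
  simp only [mem_sep, mem_inter]
  constructor
  · rintro ⟨hz, x, hx, h1, h2⟩
    exact ⟨⟨hz, x, hx, h1⟩, hz, x, hx, h2⟩
  · rintro ⟨⟨hz, x, rfl, h1⟩, _, y, hy, h2⟩
    exact ⟨hz, x, rfl, h1, Cod.inj hy ▸ h2⟩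

theorem Am.not {R : α → Prop} (hR : Am M R) : Am M (fun x => ¬ R x) := by
  intro s hs
  refine mem_of_eq ?_ (h.sdiff_mem (Cod.am (α := α) h s hs) (hR s hs))
  ext z
  simp only [mem_sep, mem_sdiff]
  constructor
  · rintro ⟨hz, x, rfl, h1⟩
    refine ⟨⟨hz, x, rfl⟩, ?_⟩
    rintro ⟨_, y, hy, h2⟩
    exact h1 (Cod.inj hy ▸ h2)
  · rintro ⟨⟨hz, x, rfl⟩, h2⟩
    exact ⟨hz, x, rfl, fun h1 => h2 ⟨hz, x, rfl, h1⟩⟩

theorem Am.or {R S : α → Prop} (hR : Am M R) (hS : Am M S) : Am M (fun x => R x ∨ S x) :=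
  ((hR.not h).and h (hS.not h)).not h |>.congr h fun x _ => by tauto

theorem Am.imp {R S : α → Prop} (hR : Am M R) (hS : Am M S) : Am M (fun x => R x → S x) :=
  (hR.and h (hS.not h)).not h |>.congr h fun x _ => by tauto

theorem Am.iff {R S : α → Prop} (hR : Am M R) (hS : Am M S) : Am M (fun x => R x ↔ S x) :=
  (hR.imp h hS).and h (hS.imp h hR) |>.congr h fun x _ => by tauto

theorem Am.const (P : Prop) : Am M (fun _ : α => P) := by
  intro s hs
  by_cases hP : P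
  · refine mem_of_eq ?_ (Cod.am (α := α) h s hs)
    ext z
    simp [hP]
  · refine mem_of_eq ?_ (h.sdiff_mem hs hs)
    ext z
    simp [hP]

/-- Relations given by a predicate which is definable over all transitive sets. -/
theorem Am.ofDR {R : α → Prop} {P : ZFSet.{0} → Prop}
    (hP : ∀ u : ZFSet.{0}, u.IsTransitive → DR u (fun v => P (v 0)))
    (e : ∀ x, R x ↔ P (code x)) : Am M R := by
  intro s hs
  have h1 := Cod.am (α := α) h s hs
  refine mem_of_eq ?_ (h.sepD hP h1 hs hs hs)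
  ext z
  simp only [mem_sep, cons_zero]
  constructor
  · rintro ⟨hz, x, rfl, h1⟩
    exact ⟨⟨hz, x, rfl⟩, (e x).1 h1⟩
  · rintro ⟨⟨hz, x, rfl⟩, h1⟩
    exact ⟨hz, x, rfl, (e x).2 h1⟩

omit h in
theorem AmF.mk' {f : α → β} (hm : ∀ x, code x ∈ M → code (f x) ∈ M)
    (hg : Am M (fun q : α × β => f q.1 = q.2)) : AmF M f := by
  refine ⟨hm, fun s hs => mem_of_eq ?_ (hg s hs)⟩
  ext z
  simp only [mem_sep]
  refine and_congr_right fun _ => ?_
  constructor
  · rintro ⟨x, rfl⟩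
    exact ⟨(x, f x), rfl, rfl⟩
  · rintro ⟨⟨x, y⟩, rfl, h1⟩
    have h2 : f x = y := h1
    exact ⟨x, by rw [code_mk, h2]⟩

omit h in
theorem AmF.graph {f : α → β} (hf : AmF M f) : Am M (fun q : α × β => f q.1 = q.2) := by
  intro s hs
  refine mem_of_eq ?_ (hf.am s hs)
  ext z
  simp only [mem_sep]
  refine and_congr_right fun _ => ?_
  constructor
  · rintro ⟨⟨x, y⟩, rfl, h1⟩
    have h2 : f x = y := h1
    exact ⟨x, by rw [code_mk, h2]⟩
  · rintro ⟨x, rfl⟩
    exact ⟨(x, f x), rfl, rfl⟩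

/-- Composition of an amenable relation with an amenable function. -/
theorem Am.comp {R : β → Prop} {f : α → β} (hR : Am M R) (hf : AmF M f) :
    Am M (fun x => R (f x)) := by
  intro s hs
  obtain ⟨b, hb, _, hsb⟩ := h.collect s (fun z w => ∃ x, code x = z ∧ code (f x) = w)
  have hsb' : ∀ x, code x ∈ s → code (f x) ∈ b := by
    intro x hx
    obtain ⟨w, hw, x', hx', rfl⟩ := hsb _ hx ⟨_, hf.mem x (h.trans _ hs _ hx), x, rfl, rfl⟩
    rw [← Cod.inj hx']
    exact hw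
  have hG := hf.am _ (h.prod_mem hs hb)
  have hRb := hR b hb
  have hD : ∀ u : ZFSet.{0}, u.IsTransitive → DR u (fun v => ∃ w, w ∈ v 2 ∧
      ZFSet.pair (v 0) w ∈ v 3) := by
    intro u hu
    have h1 := ((DR.mem (u := u) 0 3).and (((DR.pair hu 0 2 1).and (DR.mem 0 5)).ex)).ex
    refine h1.congr fun v hv => ?_
    simp only [cons_zero, cons_one, cons_two, cons_three, cons_four, cons_five]
    constructor
    · rintro ⟨w, hw, hw'⟩
      exact ⟨w, hu.mem_trans hw (hv 2), hw, _, hu.mem_trans hw' (hv 3), rfl, hw'⟩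
    · rintro ⟨w, _, hw, _, _, rfl, hw'⟩
      exact ⟨w, hw, hw'⟩
  refine mem_of_eq ?_ (h.sepD hD hs hRb hG hG)
  ext z
  simp only [mem_sep, cons_zero, cons_one, cons_two, cons_three]
  constructor
  · rintro ⟨hz, x, rfl, h1⟩
    refine ⟨hz, code (f x), ⟨hsb' x hz, f x, rfl, h1⟩, ?_, x, rfl⟩
    rw [pair_mem_prod]
    exact ⟨hz, hsb' x hz⟩
  · rintro ⟨hz, w, ⟨_, y, rfl, h1⟩, _, x, hx⟩
    rw [pair_inj] at hx
    refine ⟨hz, x, hx.1, ?_⟩
    rw [Cod.inj hx.2]
    exact h1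

/-- Existential quantification. -/
theorem Am.ex {R : α → β → Prop} (hR : Am M (fun q : α × β => R q.1 q.2)) :
    Am M (fun x => ∃ y, code y ∈ M ∧ R x y) := by
  intro s hs
  obtain ⟨b, hb, _, hsb⟩ := h.collect s (fun z w => ∃ x y, code x = z ∧ code y = w ∧ R x y)
  have hG := hR _ (h.prod_mem hs hb)
  have hD : ∀ u : ZFSet.{0}, u.IsTransitive → DR u (fun v => ∃ w, ZFSet.pair (v 0) w ∈ v 2) := by
    intro u hu
    have h1 := (((DR.pair (u := u) hu 0 2 1).and (DR.mem 0 4)).ex).ex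
    refine h1.congr fun v hv => ?_
    simp only [cons_zero, cons_one, cons_two, cons_three, cons_four]
    constructor
    · rintro ⟨w, hw'⟩
      have h2 : ZFSet.pair (v 0) w ∈ u := hu.mem_trans hw' (hv 2)
      have h3 : ({v 0, w} : ZFSet.{0}) ∈ u := hu.mem_trans (by rw [ZFSet.pair]; simp) h2
      exact ⟨w, hu.mem_trans (by simp) h3, _, h2, rfl, hw'⟩
    · rintro ⟨w, _, _, _, rfl, hw'⟩
      exact ⟨w, hw'⟩
  refine mem_of_eq ?_ (h.sepD hD hs hG hG hG)
  ext z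
  simp only [mem_sep, cons_zero, cons_one, cons_two]
  refine and_congr_right fun hz => ?_
  constructor
  · rintro ⟨x, rfl, y, hy, h1⟩
    obtain ⟨w, hw, x', y', hx', rfl, h2⟩ := hsb _ hz ⟨_, hy, x, y, rfl, rfl, h1⟩
    have h3 : x' = x := Cod.inj hx'
    subst h3
    exact ⟨code y', (pair_mem_prod).2 ⟨hz, hw⟩, (x', y'), rfl, h2⟩
  · rintro ⟨w, hw, ⟨x, y⟩, hxy, h1⟩
    rw [code_mk, pair_inj] at hxy
    refine ⟨x, hxy.1, y, ?_, h1⟩
    rw [pair_mem_prod] at hw
    rw [hxy.2]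
    exact h.trans _ hb _ hw.2

theorem Am.all {R : α → β → Prop} (hR : Am M (fun q : α × β => R q.1 q.2)) :
    Am M (fun x => ∀ y, code y ∈ M → R x y) :=
  (((hR.not h).ex h (R := fun x y => ¬ R x y)).not h).congr h fun x _ => by
    push Not
    rfl

/-! ### Basic functions -/

omit h in
theorem pair_mem_left {u x y : ZFSet.{0}} (hu : u.IsTransitive) (hp : ZFSet.pair x y ∈ u) :
    x ∈ u := by
  have h3 : ({x, y} : ZFSet.{0}) ∈ u := hu.mem_trans (by rw [ZFSet.pair]; simp) hp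
  exact hu.mem_trans (by simp) h3

omit h in
theorem pair_mem_right {u x y : ZFSet.{0}} (hu : u.IsTransitive) (hp : ZFSet.pair x y ∈ u) :
    y ∈ u := by
  have h3 : ({x, y} : ZFSet.{0}) ∈ u := hu.mem_trans (by rw [ZFSet.pair]; simp) hp
  exact hu.mem_trans (by simp) h3

theorem AmF.ofDR {f : α → β} (hm : ∀ x, code x ∈ M → code (f x) ∈ M) {P : ZFSet.{0} → Prop}
    (hP : ∀ u : ZFSet.{0}, u.IsTransitive → DR u (fun v => P (v 0)))
    (e : ∀ x y, f x = y ↔ P (ZFSet.pair (code x) (code y))) : AmF M f :=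
  AmF.mk' hm (Am.ofDR h hP fun q => e q.1 q.2)

theorem AmF.fst : AmF M (Prod.fst : α × β → α) := by
  refine AmF.ofDR h (fun x hx => ((code_mem_prod h).1 hx).1)
    (P := fun t => ∃ x y, t = ZFSet.pair (ZFSet.pair x y) x) ?_ ?_
  · intro u hu
    refine ((((DR.pair (u := u) hu 2 1 0).and (DR.pair hu 3 2 1)).ex.ex).ex).congr fun v hv => ?_
    simp only [cons_zero, cons_one, cons_two, cons_three]
    constructor
    · rintro ⟨x, y, hxy⟩
      have h1 : ZFSet.pair x y ∈ u := pair_mem_left hu (hxy ▸ hv 0)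
      exact ⟨_, h1, x, pair_mem_left hu h1, y, pair_mem_right hu h1, rfl, hxy⟩
    · rintro ⟨_, _, x, _, y, _, rfl, hxy⟩
      exact ⟨x, y, hxy⟩
  · rintro ⟨x, y⟩ z
    simp only [code_mk, pair_inj]
    constructor
    · rintro rfl
      exact ⟨_, _, ⟨rfl, rfl⟩, rfl⟩
    · rintro ⟨_, _, ⟨rfl, _⟩, h1⟩
      exact Cod.inj h1.symm

theorem AmF.snd : AmF M (Prod.snd : α × β → β) := by
  refine AmF.ofDR h (fun x hx => ((code_mem_prod h).1 hx).2)
    (P := fun t => ∃ x y, t = ZFSet.pair (ZFSet.pair x y) y) ?_ ?_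
  · intro u hu
    refine ((((DR.pair (u := u) hu 2 1 0).and (DR.pair hu 3 2 0)).ex.ex).ex).congr fun v hv => ?_
    simp only [cons_zero, cons_one, cons_two, cons_three]
    constructor
    · rintro ⟨x, y, hxy⟩
      have h1 : ZFSet.pair x y ∈ u := pair_mem_left hu (hxy ▸ hv 0)
      exact ⟨_, h1, x, pair_mem_left hu h1, y, pair_mem_right hu h1, rfl, hxy⟩
    · rintro ⟨_, _, x, _, y, _, rfl, hxy⟩
      exact ⟨x, y, hxy⟩
  · rintro ⟨x, y⟩ z
    simp only [code_mk, pair_inj]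
    constructor
    · rintro rfl
      exact ⟨_, _, ⟨rfl, rfl⟩, rfl⟩
    · rintro ⟨_, _, ⟨_, rfl⟩, h1⟩
      exact Cod.inj h1.symm

theorem AmF.id : AmF M (fun x : α => x) := by
  refine AmF.ofDR h (fun x hx => hx) (P := fun t => ∃ x, t = ZFSet.pair x x) ?_ ?_
  · intro u hu
    refine ((DR.pair (u := u) hu 1 0 0).ex).congr fun v hv => ?_
    simp only [cons_zero, cons_one]
    constructor
    · rintro ⟨x, hxy⟩
      exact ⟨x, pair_mem_left hu (hxy ▸ hv 0), hxy⟩
    · rintro ⟨x, _, hxy⟩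
      exact ⟨x, hxy⟩
  · intro x z
    simp only [pair_inj]
    constructor
    · rintro rfl
      exact ⟨_, rfl, rfl⟩
    · rintro ⟨_, rfl, h1⟩
      exact Cod.inj h1.symm

theorem AmF.code : AmF M (code : α → ZFSet.{0}) := by
  refine AmF.ofDR h (fun x hx => hx) (P := fun t => ∃ x, t = ZFSet.pair x x) ?_ ?_
  · intro u hu
    refine ((DR.pair (u := u) hu 1 0 0).ex).congr fun v hv => ?_
    simp only [cons_zero, cons_one]
    constructor
    · rintro ⟨x, hxy⟩
      exact ⟨x, pair_mem_left hu (hxy ▸ hv 0), hxy⟩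
    · rintro ⟨x, _, hxy⟩
      exact ⟨x, hxy⟩
  · intro x z
    simp only [pair_inj, code_set]
    constructor
    · rintro rfl
      exact ⟨_, rfl, rfl⟩
    · rintro ⟨_, rfl, h1⟩
      exact h1.symm

theorem Am.eq_const (c : β) (hc : code c ∈ M) : Am M (fun y : β => c = y) := by
  intro s hs
  refine mem_of_eq ?_ (h.inter_mem hs (h.singleton_mem hc))
  ext z
  simp only [mem_sep, mem_inter, mem_singleton]
  refine and_congr_right fun _ => ?_
  constructor
  · rintro ⟨x, rfl, rfl⟩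
    rfl
  · rintro rfl
    exact ⟨c, rfl, rfl⟩

theorem AmF.const (c : β) (hc : Cod.code c ∈ M) : AmF M (fun _ : α => c) :=
  AmF.mk' (fun _ _ => hc) ((Am.eq_const h c hc).comp h (AmF.snd h))

private theorem AmF.m1 : AmF M (fun q : α × β × γ => (q.1, q.2.1)) := by
  refine AmF.ofDR h (fun x hx => ?_)
    (P := fun t => ∃ x y z, t = ZFSet.pair (ZFSet.pair x (ZFSet.pair y z)) (ZFSet.pair x y)) ?_ ?_
  · simp only [code_mem_prod h] at hx ⊢
    exact ⟨hx.1, hx.2.1⟩
  · intro u hu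
    -- variables: x = 5, y = 4, z = 3, (y,z) = 2, (x,(y,z)) = 1, (x,y) = 0, t = 6
    refine (((((((((DR.pair (u := u) hu 2 4 3).and (DR.pair hu 1 5 2)).and
      (DR.pair hu 0 5 4)).and (DR.pair hu 6 1 0)).ex).ex).ex).ex).ex).ex.congr fun v hv => ?_
    simp only [cons_zero, cons_one, cons_two, cons_three, cons_four, cons_five, cons_six]
    constructor
    · rintro ⟨x, y, z, ht⟩
      have h0 := hv 0
      rw [ht] at h0
      have h1 := pair_mem_left hu h0
      have h2 := pair_mem_right hu h1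
      exact ⟨x, pair_mem_left hu h1, y, pair_mem_left hu h2, z, pair_mem_right hu h2,
        _, h2, _, h1, _, pair_mem_right hu h0, ⟨⟨rfl, rfl⟩, rfl⟩, ht⟩
    · rintro ⟨x, _, y, _, z, _, _, _, _, _, _, _, ⟨⟨rfl, rfl⟩, rfl⟩, ht⟩
      exact ⟨x, y, z, ht⟩
  · rintro ⟨x, y, z⟩ ⟨a, b⟩
    simp only [code_mk, pair_inj, Prod.mk.injEq]
    constructor
    · rintro ⟨rfl, rfl⟩
      exact ⟨_, _, _, ⟨rfl, rfl, rfl⟩, rfl, rfl⟩
    · rintro ⟨_, _, _, ⟨rfl, rfl, rfl⟩, h1, h2⟩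
      exact ⟨Cod.inj h1.symm, Cod.inj h2.symm⟩

private theorem AmF.m2 : AmF M (fun q : α × β × γ => (q.1, q.2.2)) := by
  refine AmF.ofDR h (fun x hx => ?_)
    (P := fun t => ∃ x y z, t = ZFSet.pair (ZFSet.pair x (ZFSet.pair y z)) (ZFSet.pair x z)) ?_ ?_
  · simp only [code_mem_prod h] at hx ⊢
    exact ⟨hx.1, hx.2.2⟩
  · intro u hu
    refine (((((((((DR.pair (u := u) hu 2 4 3).and (DR.pair hu 1 5 2)).and
      (DR.pair hu 0 5 3)).and (DR.pair hu 6 1 0)).ex).ex).ex).ex).ex).ex.congr fun v hv => ?_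
    simp only [cons_zero, cons_one, cons_two, cons_three, cons_four, cons_five, cons_six]
    constructor
    · rintro ⟨x, y, z, ht⟩
      have h0 := hv 0
      rw [ht] at h0
      have h1 := pair_mem_left hu h0
      have h2 := pair_mem_right hu h1
      exact ⟨x, pair_mem_left hu h1, y, pair_mem_left hu h2, z, pair_mem_right hu h2,
        _, h2, _, h1, _, pair_mem_right hu h0, ⟨⟨rfl, rfl⟩, rfl⟩, ht⟩
    · rintro ⟨x, _, y, _, z, _, _, _, _, _, _, _, ⟨⟨rfl, rfl⟩, rfl⟩, ht⟩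
      exact ⟨x, y, z, ht⟩
  · rintro ⟨x, y, z⟩ ⟨a, b⟩
    simp only [code_mk, pair_inj, Prod.mk.injEq]
    constructor
    · rintro ⟨rfl, rfl⟩
      exact ⟨_, _, _, ⟨rfl, rfl, rfl⟩, rfl, rfl⟩
    · rintro ⟨_, _, _, ⟨rfl, rfl, rfl⟩, h1, h2⟩
      exact ⟨Cod.inj h1.symm, Cod.inj h2.symm⟩

private theorem AmF.m3 : AmF M (fun q : (α × γ) × β => (q.1.1, q.2)) := by
  refine AmF.ofDR h (fun x hx => ?_)
    (P := fun t => ∃ x z y, t = ZFSet.pair (ZFSet.pair (ZFSet.pair x z) y) (ZFSet.pair x y)) ?_ ?_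
  · simp only [code_mem_prod h] at hx ⊢
    exact ⟨hx.1.1, hx.2⟩
  · intro u hu
    -- x = 5, z = 4, y = 3, (x,z) = 2, ((x,z),y) = 1, (x,y) = 0
    refine (((((((((DR.pair (u := u) hu 2 5 4).and (DR.pair hu 1 2 3)).and
      (DR.pair hu 0 5 3)).and (DR.pair hu 6 1 0)).ex).ex).ex).ex).ex).ex.congr fun v hv => ?_
    simp only [cons_zero, cons_one, cons_two, cons_three, cons_four, cons_five, cons_six]
    constructor
    · rintro ⟨x, z, y, ht⟩
      have h0 := hv 0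
      rw [ht] at h0
      have h1 := pair_mem_left hu h0
      have h2 := pair_mem_left hu h1
      exact ⟨x, pair_mem_left hu h2, z, pair_mem_right hu h2, y, pair_mem_right hu h1,
        _, h2, _, h1, _, pair_mem_right hu h0, ⟨⟨rfl, rfl⟩, rfl⟩, ht⟩
    · rintro ⟨x, _, z, _, y, _, _, _, _, _, _, _, ⟨⟨rfl, rfl⟩, rfl⟩, ht⟩
      exact ⟨x, z, y, ht⟩
  · rintro ⟨⟨x, z⟩, y⟩ ⟨a, b⟩
    simp only [code_mk, pair_inj, Prod.mk.injEq]
    constructor
    · rintro ⟨rfl, rfl⟩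
      exact ⟨_, _, _, ⟨⟨rfl, rfl⟩, rfl⟩, rfl, rfl⟩
    · rintro ⟨_, _, _, ⟨⟨rfl, rfl⟩, rfl⟩, h1, h2⟩
      exact ⟨Cod.inj h1.symm, Cod.inj h2.symm⟩

private theorem AmF.m4 : AmF M (fun q : (α × γ) × β => (q.2, q.1.2)) := by
  refine AmF.ofDR h (fun x hx => ?_)
    (P := fun t => ∃ x z y, t = ZFSet.pair (ZFSet.pair (ZFSet.pair x z) y) (ZFSet.pair y z)) ?_ ?_
  · simp only [code_mem_prod h] at hx ⊢
    exact ⟨hx.2, hx.1.2⟩
  · intro u hu
    refine (((((((((DR.pair (u := u) hu 2 5 4).and (DR.pair hu 1 2 3)).and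
      (DR.pair hu 0 3 4)).and (DR.pair hu 6 1 0)).ex).ex).ex).ex).ex).ex.congr fun v hv => ?_
    simp only [cons_zero, cons_one, cons_two, cons_three, cons_four, cons_five, cons_six]
    constructor
    · rintro ⟨x, z, y, ht⟩
      have h0 := hv 0
      rw [ht] at h0
      have h1 := pair_mem_left hu h0
      have h2 := pair_mem_left hu h1
      exact ⟨x, pair_mem_left hu h2, z, pair_mem_right hu h2, y, pair_mem_right hu h1,
        _, h2, _, h1, _, pair_mem_right hu h0, ⟨⟨rfl, rfl⟩, rfl⟩, ht⟩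
    · rintro ⟨x, _, z, _, y, _, _, _, _, _, _, _, ⟨⟨rfl, rfl⟩, rfl⟩, ht⟩
      exact ⟨x, z, y, ht⟩
  · rintro ⟨⟨x, z⟩, y⟩ ⟨a, b⟩
    simp only [code_mk, pair_inj, Prod.mk.injEq]
    constructor
    · rintro ⟨rfl, rfl⟩
      exact ⟨_, _, _, ⟨⟨rfl, rfl⟩, rfl⟩, rfl, rfl⟩
    · rintro ⟨_, _, _, ⟨⟨rfl, rfl⟩, rfl⟩, h1, h2⟩
      exact ⟨Cod.inj h1.symm, Cod.inj h2.symm⟩

theorem AmF.comp {g : β → γ} {f : α → β} (hg : AmF M g) (hf : AmF M f) :
    AmF M (fun x => g (f x)) := by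
  refine AmF.mk' (fun x hx => hg.mem _ (hf.mem _ hx)) ?_
  have h1 : Am M (fun q : (α × γ) × β => f q.1.1 = q.2) :=
    (hf.graph).comp h (AmF.m3 h)
  have h2 : Am M (fun q : (α × γ) × β => g q.2 = q.1.2) :=
    (hg.graph).comp h (AmF.m4 h)
  refine ((h1.and h h2).ex h (R := fun (q : α × γ) (y : β) => f q.1 = y ∧ g y = q.2)).congr h
    fun q hq => ?_
  constructor
  · intro h3
    exact ⟨f q.1, hf.mem _ ((code_mem_prod h).1 hq).1, rfl, h3⟩
  · rintro ⟨y, _, rfl, h3⟩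
    exact h3

theorem AmF.prod {f : α → β} {g : α → γ} (hf : AmF M f) (hg : AmF M g) :
    AmF M (fun x => (f x, g x)) := by
  refine AmF.mk' (fun x hx => (code_mem_prod h).2 ⟨hf.mem _ hx, hg.mem _ hx⟩) ?_
  have h1 : Am M (fun q : α × β × γ => f q.1 = q.2.1) := (hf.graph).comp h (AmF.m1 h)
  have h2 : Am M (fun q : α × β × γ => g q.1 = q.2.2) := (hg.graph).comp h (AmF.m2 h)
  refine (h1.and h h2).congr h fun q _ => ?_
  exact Prod.ext_iff

/-! ### Membership and equality -/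

theorem Am.eq {f g : α → β} (hf : AmF M f) (hg : AmF M g) : Am M (fun x => f x = g x) := by
  have h1 : Am M (fun q : β × β => q.1 = q.2) := (AmF.id h).graph
  exact h1.comp h (hf.prod h hg)

theorem Am.mem {f g : α → ZFSet.{0}} (hf : AmF M f) (hg : AmF M g) : Am M (fun x => f x ∈ g x) := by
  have h1 : Am M (fun q : ZFSet.{0} × ZFSet.{0} => q.1 ∈ q.2) := by
    refine Am.ofDR h (P := fun t => ∃ x y, t = ZFSet.pair x y ∧ x ∈ y) ?_ ?_
    · intro u hu
      refine (((DR.pair (u := u) hu 2 1 0).and (DR.mem 1 0)).ex.ex).congr fun v hv => ?_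
      simp only [cons_zero, cons_one, cons_two]
      constructor
      · rintro ⟨x, y, ht, hxy⟩
        have h0 := hv 0
        rw [ht] at h0
        exact ⟨x, pair_mem_left hu h0, y, pair_mem_right hu h0, ht, hxy⟩
      · rintro ⟨x, _, y, _, ht, hxy⟩
        exact ⟨x, y, ht, hxy⟩
    · rintro ⟨x, y⟩
      simp only [code_mk, code_set, pair_inj]
      constructor
      · intro h1
        exact ⟨x, y, ⟨rfl, rfl⟩, h1⟩
      · rintro ⟨_, _, ⟨rfl, rfl⟩, h1⟩
        exact h1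
  exact h1.comp h (hf.prod h hg)

/-- A set valued function with amenable membership relation. -/
theorem AmF.ofMem {f : α → ZFSet.{0}} (hm : ∀ x, Cod.code x ∈ M → f x ∈ M)
    (hR : Am M (fun q : α × ZFSet.{0} => q.2 ∈ f q.1)) : AmF M f := by
  refine AmF.mk' hm ?_
  have h1 : Am M (fun q : (α × ZFSet.{0}) × ZFSet.{0} => (q.2 ∈ f q.1.1 ↔ q.2 ∈ q.1.2)) := by
    refine Am.iff h ?_ (Am.mem h (AmF.snd h) ((AmF.snd h).comp h (AmF.fst h)))
    exact hR.comp h (f := fun q : (α × ZFSet.{0}) × ZFSet.{0} => (q.1.1, q.2))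
      (((AmF.fst h).comp h (AmF.fst h)).prod h (AmF.snd h))
  refine (h1.all h (R := fun (q : α × ZFSet.{0}) (z : ZFSet.{0}) => (z ∈ f q.1 ↔ z ∈ q.2))).congr h
    fun q hq => ?_
  rw [code_mem_prod h] at hq
  constructor
  · intro h3 z _
    rw [h3]
  · intro h3
    ext z
    constructor
    · intro hz
      exact (h3 z (h.trans _ (hm _ hq.1) _ hz)).1 hz
    · intro hz
      exact (h3 z (h.trans _ hq.2 _ hz)).2 hz

theorem AmF.sep {g : α → ZFSet.{0}} {R : α → ZFSet.{0} → Prop} (hg : AmF M g)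
    (hR : Am M (fun q : α × ZFSet.{0} => R q.1 q.2)) :
    AmF M (fun x => ZFSet.sep (R x) (g x)) := by
  refine AmF.ofMem h (fun x hx => ?_) ?_
  · have h1 : Am M (fun z : ZFSet.{0} => R x z) :=
      hR.comp h (f := fun z : ZFSet.{0} => (x, z)) ((AmF.const h x hx).prod h (AmF.id h))
    refine mem_of_eq ?_ (h1 _ (hg.mem x hx))
    ext z
    simp
  · refine ((Am.mem h (AmF.snd h) (hg.comp h (AmF.fst h))).and h hR).congr h fun q _ => ?_
    rw [mem_sep]

end

end Pool.Agent.Helper17.CL
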