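import Pool.Agent.Helper17.CL.Min

/-!
# Project CL: condensation for the hierarchy `LL y`
-/

set_option autoImplicit false

namespace Pool.Agent.Helper17.CL

open ZFSet

/-! ### Satisfaction in isomorphic structures and elementary substructures -/

theorem cons_comp (π : ZFSet.{0} → ZFSet.{0}) (a : ZFSet.{0}) (v : ℕ → ZFSet.{0}) :
    π ∘ cons a v = cons (π a) (π ∘ v) := by
  funext i
  cases i <;> rfl

theorem cons_mem_set {A : Set ZFSet.{0}} {a : ZFSet.{0}} {v : ℕ → ZFSet.{0}} (ha : a ∈ A)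
    (hv : ∀ i, v i ∈ A) : ∀ i, cons a v i ∈ A := by
  intro i
  cases i with
  | zero => exact ha
  | succ i => exact hv i

theorem sat_iso {A B : Set ZFSet.{0}} {π : ZFSet.{0} → ZFSet.{0}}
    (hmem : ∀ a ∈ A, ∀ b ∈ A, (π a ∈ π b ↔ a ∈ b)) (hinj : ∀ a ∈ A, ∀ b ∈ A, π a = π b → a = b)
    (hmaps : ∀ a ∈ A, π a ∈ B) (hsurj : ∀ b ∈ B, ∃ a ∈ A, π a = b) (φ : Fml) :
    ∀ v : ℕ → ZFSet.{0}, (∀ i, v i ∈ A) → (Sat A φ v ↔ Sat B φ (π ∘ v)) := by
  induction φ with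
  | mem i j => exact fun v hv => (hmem _ (hv i) _ (hv j)).symm
  | eq i j =>
    intro v hv
    show v i = v j ↔ π (v i) = π (v j)
    exact ⟨fun h => by rw [h], fun h => hinj _ (hv i) _ (hv j) h⟩
  | nand φ ψ ih1 ih2 =>
    intro v hv
    rw [sat_nand, sat_nand, ih1 v hv, ih2 v hv]
  | all φ ih =>
    intro v hv
    rw [sat_all, sat_all]
    constructor
    · intro h b hb
      obtain ⟨a, ha, rfl⟩ := hsurj b hb
      rw [← cons_comp]
      exact (ih _ (cons_mem_set ha hv)).1 (h a ha)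
    · intro h a ha
      refine (ih _ (cons_mem_set ha hv)).2 ?_
      rw [cons_comp]
      exact h _ (hmaps a ha)

theorem sat_tv {A U : Set ZFSet.{0}} (hAU : A ⊆ U)
    (tv : ∀ (φ : Fml) (v : ℕ → ZFSet.{0}), (∀ i, v i ∈ A) → (∃ z ∈ U, Sat U φ (cons z v)) →
      ∃ z ∈ A, Sat U φ (cons z v)) (φ : Fml) :
    ∀ v : ℕ → ZFSet.{0}, (∀ i, v i ∈ A) → (Sat A φ v ↔ Sat U φ v) := by
  induction φ with
  | mem i j => exact fun v hv => Iff.rfl
  | eq i j => exact fun v hv => Iff.rfl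
  | nand φ ψ ih1 ih2 =>
    intro v hv
    rw [sat_nand, sat_nand, ih1 v hv, ih2 v hv]
  | all φ ih =>
    intro v hv
    rw [sat_all, sat_all]
    constructor
    · intro h
      by_contra hc
      push Not at hc
      obtain ⟨z, hz, h1⟩ := hc
      obtain ⟨w, hw, h2⟩ := tv (.nand φ φ) v hv ⟨z, hz, by rw [sat_nand]; tauto⟩
      rw [sat_nand] at h2
      exact h2 ⟨(ih _ (cons_mem_set hw hv)).1 (h w hw), (ih _ (cons_mem_set hw hv)).1 (h w hw)⟩
    · intro h a ha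
      exact (ih _ (cons_mem_set ha hv)).2 (h a (hAU ha))

/-! ### Definable sets given by lists -/

/-- The set defined over `LL y b` by the formula number `n` and the list `L = d :: l`. -/
noncomputable def DD (y : Set ℕ) (b : Ordinal.{0}) (n : ℕ) (L : List ZFSet.{0}) : ZFSet.{0} :=
  ZFSet.sep (fun z => (∀ a ∈ z :: L.tail, a ∈ LL y b) ∧
    Sat (LL y b : Set ZFSet.{0}) (fdec n) (env (L.headD ∅) (z :: L.tail))) (LL y b)

theorem mem_dd {y : Set ℕ} {b : Ordinal.{0}} {n : ℕ} {d : ZFSet.{0}} {l : List ZFSet.{0}}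
    (hL : ∀ a ∈ d :: l, a ∈ LL y b) {z : ZFSet.{0}} :
    z ∈ DD y b n (d :: l) ↔ z ∈ LL y b ∧
      Sat (LL y b : Set ZFSet.{0}) (fdec n) (cons z (env d l)) := by
  unfold DD
  rw [mem_sep]
  refine and_congr_right fun hz => ?_
  rw [List.tail_cons, List.headD_cons, env_cons]
  constructor
  · exact fun h => h.2
  · intro h
    refine ⟨?_, h⟩
    intro a ha
    rcases List.mem_cons.1 ha with rfl | ha
    · exact hz
    · exact hL a (List.mem_cons_of_mem _ ha)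

theorem dd_isDef {y : Set ℕ} {b : Ordinal.{0}} {n : ℕ} {d : ZFSet.{0}} {l : List ZFSet.{0}}
    (hL : ∀ a ∈ d :: l, a ∈ LL y b) : IsDef (LL y b) (DD y b n (d :: l)) :=
  ⟨fdec n, env d l, env_mem (hL d List.mem_cons_self) fun a ha =>
    hL a (List.mem_cons_of_mem _ ha), fun _ => mem_dd hL⟩

theorem isDef_iff_dd {y : Set ℕ} {b : Ordinal.{0}} {x : ZFSet.{0}} :
    IsDef (LL y b) x ↔ ∃ (n : ℕ) (d : ZFSet.{0}) (l : List ZFSet.{0}),
      (∀ a ∈ d :: l, a ∈ LL y b) ∧ x = DD y b n (d :: l) := by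
  constructor
  · intro h
    obtain ⟨d, hd, n, l, hl, rfl⟩ := isDef_iff.1 h
    have hL : ∀ a ∈ d :: l, a ∈ LL y b := by
      intro a ha
      rcases List.mem_cons.1 ha with rfl | ha
      · exact hd
      · exact hl a ha
    refine ⟨n, d, l, hL, ?_⟩
    ext z
    rw [mem_dd hL]
    unfold DefS
    rw [mem_sep, env_cons]
  · rintro ⟨n, d, l, hL, rfl⟩
    exact dd_isDef hL

/-- The closure properties of a set of elements of `L[y]` which are needed for condensation. -/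
structure Hul (y : Set ℕ) (X : Set ZFSet.{0}) : Prop where
  nat : ∀ n, nat n ∈ X
  base : rl y ∈ X
  dd : ∀ (b : Ordinal.{0}) (n : ℕ) (d : ZFSet.{0}) (l : List ZFSet.{0}), b.toZFSet ∈ X →
    (∀ a ∈ d :: l, a ∈ X) → (∀ a ∈ d :: l, a ∈ LL y b) → DD y b n (d :: l) ∈ X
  ch : ∀ (b : Ordinal.{0}) (n : ℕ) (d : ZFSet.{0}) (l : List ZFSet.{0}), b.toZFSet ∈ X →
    (∀ a ∈ d :: l, a ∈ X) → (∀ a ∈ d :: l, a ∈ LL y b) → (∃ z, z ∈ DD y b n (d :: l)) →
    ∃ z ∈ X, z ∈ DD y b n (d :: l)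
  wit : ∀ z ∈ X, ∀ a : Ordinal.{0}, z ∈ LL y a → z ∈ LL y 0 ∨ ∃ b < a, b.toZFSet ∈ X ∧
    ∃ (n : ℕ) (d : ZFSet.{0}) (l : List ZFSet.{0}), (∀ a ∈ d :: l, a ∈ X) ∧
      (∀ a ∈ d :: l, a ∈ LL y b) ∧ z = DD y b n (d :: l)

/-! ### The collapse -/

/-- The Mostowski collapse of `X`. -/
noncomputable def clp (X : Set ZFSet.{0}) (z : ZFSet.{0}) : ZFSet.{0} :=
  ZFSet.range (fun w : (ZFSet.sep (· ∈ X) z : ZFSet.{0}) => clp X w.1)
termination_by z
decreasing_by exact (mem_sep.1 w.2).1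

theorem mem_clp {X : Set ZFSet.{0}} {z t : ZFSet.{0}} :
    t ∈ clp X z ↔ ∃ w ∈ z, w ∈ X ∧ t = clp X w := by
  rw [clp, mem_range]
  constructor
  · rintro ⟨⟨w, hw⟩, rfl⟩
    have h := mem_sep.1 hw
    exact ⟨w, h.1, h.2, rfl⟩
  · rintro ⟨w, h1, h2, rfl⟩
    exact ⟨⟨w, mem_sep.2 ⟨h1, h2⟩⟩, rfl⟩

/-- The collapse of an ordinal. -/
noncomputable def clo (X : Set ZFSet.{0}) (a : Ordinal.{0}) : Ordinal.{0} :=
  (clp X a.toZFSet).rank

theorem clo_toZFSet (X : Set ZFSet.{0}) (a : Ordinal.{0}) :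
    (clo X a).toZFSet = clp X a.toZFSet := by
  have key : ∀ a : Ordinal.{0}, (clp X a.toZFSet).IsTransitive := by
    intro a t ht s hs
    obtain ⟨w, hw, _, rfl⟩ := mem_clp.1 ht
    obtain ⟨w', hw', hX', rfl⟩ := mem_clp.1 hs
    exact mem_clp.2 ⟨w', (isOrdinal_toZFSet a).isTransitive.mem_trans hw' hw, hX', rfl⟩
  refine IsOrdinal.toZFSet_rank_eq ?_
  rw [isOrdinal_iff_forall_mem_isTransitive]
  refine ⟨key a, ?_⟩
  intro t ht
  obtain ⟨w, hw, _, rfl⟩ := mem_clp.1 ht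
  obtain ⟨b, _, rfl⟩ := Ordinal.mem_toZFSet_iff.1 hw
  exact key b

theorem lt_clo {X : Set ZFSet.{0}} {a c : Ordinal.{0}} :
    c < clo X a ↔ ∃ b < a, b.toZFSet ∈ X ∧ c = clo X b := by
  rw [← Ordinal.toZFSet_mem_toZFSet_iff, clo_toZFSet, mem_clp]
  constructor
  · rintro ⟨w, hw, hX, h⟩
    obtain ⟨b, hb, rfl⟩ := Ordinal.mem_toZFSet_iff.1 hw
    refine ⟨b, hb, hX, ?_⟩
    rw [← clo_toZFSet] at h
    exact Ordinal.toZFSet_injective h
  · rintro ⟨b, hb, hX, rfl⟩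
    exact ⟨b.toZFSet, Ordinal.toZFSet_mem_toZFSet_iff.2 hb, hX, clo_toZFSet X b⟩

section

variable {y : Set ℕ} {X : Set ZFSet.{0}} (hX : Hul y X)
include hX

theorem Hul.clp_nat (n : ℕ) : clp X (CL.nat n) = CL.nat n := by
  induction n using Nat.strong_induction_on with
  | h n ih =>
    ext t
    rw [mem_clp]
    constructor
    · rintro ⟨w, hw, _, rfl⟩
      obtain ⟨a, ha, rfl⟩ := Ordinal.mem_toZFSet_iff.1 hw
      obtain ⟨m, rfl⟩ := Ordinal.lt_omega0.1 (ha.trans (Ordinal.natCast_lt_omega0 n))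
      have hm : m < n := Nat.cast_lt.1 ha
      show clp X (CL.nat m) ∈ _
      rw [ih m hm]
      exact nat_mem_nat.2 hm
    · intro ht
      obtain ⟨a, ha, rfl⟩ := Ordinal.mem_toZFSet_iff.1 ht
      obtain ⟨m, rfl⟩ := Ordinal.lt_omega0.1 (ha.trans (Ordinal.natCast_lt_omega0 n))
      have hm : m < n := Nat.cast_lt.1 ha
      exact ⟨CL.nat m, ht, hX.nat m, (ih m hm).symm⟩

theorem Hul.clp_rl (x : Set ℕ) : clp X (rl x) = rl x := by
  ext t
  rw [mem_clp, mem_rl]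
  constructor
  · rintro ⟨w, hw, _, rfl⟩
    obtain ⟨n, hn, rfl⟩ := mem_rl.1 hw
    exact ⟨n, hn, hX.clp_nat n⟩
  · rintro ⟨n, hn, rfl⟩
    exact ⟨CL.nat n, mem_rl.2 ⟨n, hn, rfl⟩, hX.nat n, (hX.clp_nat n).symm⟩

theorem Hul.tv {a : Ordinal.{0}} (ha : a.toZFSet ∈ X) (φ : Fml) (v : ℕ → ZFSet.{0})
    (hv : ∀ i, v i ∈ X ∩ (LL y a : Set ZFSet.{0}))
    (hz : ∃ z ∈ (LL y a : Set ZFSet.{0}), Sat (LL y a : Set ZFSet.{0}) φ (cons z v)) :
    ∃ z ∈ X ∩ (LL y a : Set ZFSet.{0}), Sat (LL y a : Set ZFSet.{0}) φ (cons z v) := by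
  obtain ⟨n, rfl⟩ := fdec_surj φ
  obtain ⟨k, hk⟩ := sat_fin (fdec n)
  have hL : ∀ c ∈ v 0 :: (List.range k).map v, ∃ i, c = v i := by
    intro c hc
    rcases List.mem_cons.1 hc with rfl | hc
    · exact ⟨0, rfl⟩
    · obtain ⟨i, _, rfl⟩ := List.mem_map.1 hc
      exact ⟨i, rfl⟩
  have hLX : ∀ c ∈ v 0 :: (List.range k).map v, c ∈ X := by
    intro c hc
    obtain ⟨i, rfl⟩ := hL c hc
    exact (hv i).1
  have hLL : ∀ c ∈ v 0 :: (List.range k).map v, c ∈ LL y a := by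
    intro c hc
    obtain ⟨i, rfl⟩ := hL c hc
    exact (hv i).2
  have hs : ∀ z, (Sat (LL y a : Set ZFSet.{0}) (fdec n) (cons z v) ↔
      Sat (LL y a : Set ZFSet.{0}) (fdec n) (cons z (env (v 0) ((List.range k).map v)))) := by
    intro z
    refine hk _ _ _ fun i hi => ?_
    cases i with
    | zero => rfl
    | succ i =>
      show v i = ((List.range k).map v).getD i (v 0)
      rw [List.getD_eq_getElem _ _ (by simp; omega)]
      simp
  obtain ⟨z, hz, h1⟩ := hz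
  obtain ⟨w, hw, h2⟩ := hX.ch a n (v 0) ((List.range k).map v) ha hLX hLL
    ⟨z, (mem_dd hLL).2 ⟨hz, (hs z).1 h1⟩⟩
  rw [mem_dd hLL] at h2
  exact ⟨w, ⟨hw, h2.1⟩, (hs w).2 h2.2⟩

theorem Hul.ext {a : Ordinal.{0}} (ha : a.toZFSet ∈ X) {z z' : ZFSet.{0}} (hz : z ∈ X)
    (hza : z ∈ LL y a) (hz' : z' ∈ X) (hza' : z' ∈ LL y a)
    (e : ∀ w ∈ X, w ∈ z ↔ w ∈ z') : z = z' := by
  have key : ∀ z z' : ZFSet.{0}, z ∈ X → z ∈ LL y a → z' ∈ X → z' ∈ LL y a →
      (∀ w ∈ X, w ∈ z → w ∈ z') → ∀ w, w ∈ z → w ∈ z' := by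
    intro z z' hz hza hz' hza' e
    by_contra hc
    push Not at hc
    obtain ⟨w, hw, hw'⟩ := hc
    have hwa : w ∈ LL y a := (ll_trans a).mem_trans hw hza
    obtain ⟨w₁, h1, h2⟩ := hX.tv ha (.nand (.nand (.mem 0 1) (.nand (.mem 0 2) (.mem 0 2)))
      (.nand (.mem 0 1) (.nand (.mem 0 2) (.mem 0 2)))) (cons z (fun _ => z'))
      (cons_mem_set ⟨hz, hza⟩ fun _ => ⟨hz', hza'⟩) ⟨w, hwa, by
        simp only [sat_nand]
        unfold Sat
        simp only [cons_zero, cons_one, cons_two]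
        tauto⟩
    simp only [sat_nand] at h2
    unfold Sat at h2
    simp only [cons_zero, cons_one, cons_two] at h2
    have h3 := e w₁ h1.1
    tauto
  ext w
  exact ⟨key z z' hz hza hz' hza' (fun w hw => (e w hw).1) w,
    key z' z hz' hza' hz hza (fun w hw => (e w hw).2) w⟩

theorem Hul.inj {a : Ordinal.{0}} (ha : a.toZFSet ∈ X) (z : ZFSet.{0}) : ∀ z' : ZFSet.{0},
    z ∈ X → z ∈ LL y a → z' ∈ X → z' ∈ LL y a → clp X z = clp X z' → z = z' := by
  induction z using ZFSet.inductionOn with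
  | h z ih =>
    intro z' hz hza hz' hza' e
    refine hX.ext ha hz hza hz' hza' fun w hw => ?_
    constructor
    · intro h1
      have h2 : clp X w ∈ clp X z' := by
        rw [← e]
        exact mem_clp.2 ⟨w, h1, hw, rfl⟩
      obtain ⟨w', h3, h4, h5⟩ := mem_clp.1 h2
      rw [ih w h1 w' hw ((ll_trans a).mem_trans h1 hza) h4 ((ll_trans a).mem_trans h3 hza') h5]
      exact h3
    · intro h1
      have h2 : clp X w ∈ clp X z := by
        rw [e]
        exact mem_clp.2 ⟨w, h1, hw, rfl⟩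
      obtain ⟨w', h3, h4, h5⟩ := mem_clp.1 h2
      rw [← ih w' h3 w h4 ((ll_trans a).mem_trans h3 hza) hw ((ll_trans a).mem_trans h1 hza')
        h5.symm]
      exact h3

/-- The satisfaction relation of `LL y a` for parameters in `X` is that of the collapse. -/
theorem Hul.sat {a : Ordinal.{0}} (ha : a.toZFSet ∈ X)
    (h1 : ∀ z ∈ X, z ∈ LL y a → clp X z ∈ LL y (clo X a))
    (h2 : ∀ z' ∈ LL y (clo X a), ∃ z ∈ X, z ∈ LL y a ∧ clp X z = z') (φ : Fml)
    (v : ℕ → ZFSet.{0}) (hv : ∀ i, v i ∈ X ∩ (LL y a : Set ZFSet.{0})) :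
    Sat (LL y a : Set ZFSet.{0}) φ v ↔
      Sat (LL y (clo X a) : Set ZFSet.{0}) φ (clp X ∘ v) := by
  rw [← sat_tv (A := X ∩ (LL y a : Set ZFSet.{0})) (U := (LL y a : Set ZFSet.{0}))
    (fun z hz => hz.2) (fun φ v hv hz => hX.tv ha φ v hv hz) φ v hv]
  refine sat_iso ?_ ?_ ?_ ?_ φ v hv
  · rintro z ⟨hz, hza⟩ z' ⟨hz', hza'⟩
    constructor
    · intro h3
      obtain ⟨w, hw, hwX, h4⟩ := mem_clp.1 h3
      rw [hX.inj ha z w hz hza hwX ((ll_trans a).mem_trans hw hza') h4]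
      exact hw
    · exact fun h3 => mem_clp.2 ⟨z, h3, hz, rfl⟩
  · rintro z ⟨hz, hza⟩ z' ⟨hz', hza'⟩ h3
    exact hX.inj ha z z' hz hza hz' hza' h3
  · rintro z ⟨hz, hza⟩
    exact h1 z hz hza
  · intro z' hz'
    obtain ⟨z, hz, hza, h3⟩ := h2 z' hz'
    exact ⟨z, ⟨hz, hza⟩, h3⟩

theorem Hul.clp_dd {a : Ordinal.{0}} (ha : a.toZFSet ∈ X)
    (h1 : ∀ z ∈ X, z ∈ LL y a → clp X z ∈ LL y (clo X a))
    (h2 : ∀ z' ∈ LL y (clo X a), ∃ z ∈ X, z ∈ LL y a ∧ clp X z = z') (n : ℕ)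
    {d : ZFSet.{0}} {l : List ZFSet.{0}} (hL : ∀ c ∈ d :: l, c ∈ X)
    (hL' : ∀ c ∈ d :: l, c ∈ LL y a) :
    clp X (DD y a n (d :: l)) = DD y (clo X a) n (clp X d :: l.map (clp X)) := by
  have hL'' : ∀ c ∈ clp X d :: l.map (clp X), c ∈ LL y (clo X a) := by
    intro c hc
    rw [← List.map_cons] at hc
    obtain ⟨c', hc', rfl⟩ := List.mem_map.1 hc
    exact h1 c' (hL c' hc') (hL' c' hc')
  have he : ∀ w, clp X ∘ cons w (env d l) = cons (clp X w) (env (clp X d) (l.map (clp X))) := by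
    intro w
    rw [cons_comp]
    congr 1
    funext i
    show clp X (l.getD i d) = (l.map (clp X)).getD i (clp X d)
    by_cases hi : i < l.length
    · rw [List.getD_eq_getElem _ _ hi, List.getD_eq_getElem _ _ (by simpa using hi)]
      simp
    · rw [List.getD_eq_default _ _ (not_lt.1 hi), List.getD_eq_default _ _ (by
        simpa using not_lt.1 hi)]
  have hv : ∀ w, w ∈ X → w ∈ LL y a →
      ∀ i, cons w (env d l) i ∈ X ∩ (LL y a : Set ZFSet.{0}) := by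
    intro w hw hwa
    refine cons_mem_set ⟨hw, hwa⟩ fun i => ?_
    exact ⟨by
      unfold env
      by_cases hi : i < l.length
      · rw [List.getD_eq_getElem _ _ hi]
        exact hL _ (List.mem_cons_of_mem _ (List.getElem_mem hi))
      · rw [List.getD_eq_default _ _ (not_lt.1 hi)]
        exact hL _ List.mem_cons_self, env_mem (hL' d List.mem_cons_self)
          (fun c hc => hL' c (List.mem_cons_of_mem _ hc)) i⟩
  ext t
  rw [mem_clp, mem_dd hL'']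
  constructor
  · rintro ⟨w, hw, hwX, rfl⟩
    rw [mem_dd hL'] at hw
    refine ⟨h1 w hwX hw.1, ?_⟩
    rw [← he]
    exact (hX.sat ha h1 h2 _ _ (hv w hwX hw.1)).1 hw.2
  · rintro ⟨ht, hs⟩
    obtain ⟨w, hwX, hwa, rfl⟩ := h2 t ht
    refine ⟨w, (mem_dd hL').2 ⟨hwa, ?_⟩, hwX, rfl⟩
    rw [← he] at hs
    exact (hX.sat ha h1 h2 _ _ (hv w hwX hwa)).2 hs

/-- Condensation. -/
theorem Hul.clp_ll (a : Ordinal.{0}) : a.toZFSet ∈ X →
    (∀ z ∈ X, z ∈ LL y a → clp X z ∈ LL y (clo X a)) ∧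
      ∀ z' ∈ LL y (clo X a), ∃ z ∈ X, z ∈ LL y a ∧ clp X z = z' := by
  induction a using WellFoundedLT.induction with
  | _ a ih =>
    intro ha
    constructor
    · intro z hz hza
      rcases hX.wit z hz a hza with h0 | ⟨b, hb, hbX, n, d, l, h1, h2, rfl⟩
      · rw [ll_zero, mem_insert_iff] at h0
        rcases h0 with rfl | h0
        · rw [hX.clp_rl]
          exact rl_mem_ll
        · obtain ⟨n, rfl⟩ := mem_omg.1 h0
          rw [hX.clp_nat]
          exact omg_subset_ll (nat_mem_omg n)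
      · obtain ⟨i1, i2⟩ := ih b hb hbX
        rw [hX.clp_dd hbX i1 i2 n h1 h2]
        have hlt : clo X b < clo X a := lt_clo.2 ⟨b, hb, hbX, rfl⟩
        refine mem_ll.2 (Or.inr ⟨clo X b, hlt, dd_isDef ?_⟩)
        intro c hc
        rw [← List.map_cons] at hc
        obtain ⟨c', hc', rfl⟩ := List.mem_map.1 hc
        exact i1 c' (h1 c' hc') (h2 c' hc')
    · intro z' hz'
      rcases mem_ll.1 hz' with (rfl | h0) | ⟨c, hc, hd⟩
      · exact ⟨rl y, hX.base, rl_mem_ll, hX.clp_rl y⟩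
      · obtain ⟨n, rfl⟩ := mem_omg.1 h0
        exact ⟨CL.nat n, hX.nat n, omg_subset_ll (nat_mem_omg n), hX.clp_nat n⟩
      · obtain ⟨b, hb, hbX, rfl⟩ := lt_clo.1 hc
        obtain ⟨i1, i2⟩ := ih b hb hbX
        obtain ⟨n, d', l', hL', rfl⟩ := isDef_iff_dd.1 hd
        have h3 : ∀ L' : List ZFSet.{0}, (∀ a ∈ L', a ∈ LL y (clo X b)) →
            ∃ L : List ZFSet.{0}, (∀ a ∈ L, a ∈ X) ∧ (∀ a ∈ L, a ∈ LL y b) ∧
              L.map (clp X) = L' := by
          intro L'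
          induction L' with
          | nil => exact fun _ => ⟨[], by simp, by simp, rfl⟩
          | cons c L' ihL =>
            intro hc
            obtain ⟨L, hL1, hL2, hL3⟩ := ihL fun a ha => hc a (List.mem_cons_of_mem _ ha)
            obtain ⟨w, hw1, hw2, hw3⟩ := i2 c (hc c List.mem_cons_self)
            refine ⟨w :: L, ?_, ?_, by rw [List.map_cons, hw3, hL3]⟩
            · intro a ha
              rcases List.mem_cons.1 ha with rfl | ha
              · exact hw1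
              · exact hL1 a ha
            · intro a ha
              rcases List.mem_cons.1 ha with rfl | ha
              · exact hw2
              · exact hL2 a ha
        obtain ⟨L, hL1, hL2, hL3⟩ := h3 (d' :: l') hL'
        cases L with
        | nil => simp at hL3
        | cons d l =>
          rw [List.map_cons, List.cons.injEq] at hL3
          obtain ⟨rfl, rfl⟩ := hL3
          refine ⟨DD y b n (d :: l), hX.dd b n d l hbX hL1 hL2, ?_, ?_⟩
          · exact mem_ll.2 (Or.inr ⟨b, hb, dd_isDef hL2⟩)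
          · exact hX.clp_dd hbX i1 i2 n hL1 hL2

end

end Pool.Agent.Helper17.CL
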