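import Pool.Agent.Helper17.CL.Min

/-!
# Project CL: countability of the sets of constructible reals
-/

set_option autoImplicit false

namespace Pool.Agent.Helper17.CL

open ZFSet

/-- The sets of constructible reals which are elements of `L`. -/
def L2 : Set (Set (Set ℕ)) := {D | ∃ c ∈ Lc ∅, ∀ x, x ∈ D ↔ rl x ∈ c}

theorem L2_sub {D : Set (Set ℕ)} (hD : D ∈ L2) {x : Set ℕ} (hx : x ∈ D) : ConFrom x ∅ := by
  obtain ⟨c, hc, hD⟩ := hD
  exact (lc_inner ∅).trans _ hc _ ((hD x).1 hx)

theorem L2_countable (hc : ∀ y, {x | ConFrom x y}.Countable) : L2.Countable := by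
  obtain ⟨e, he⟩ := (hc ∅).exists_eq_range ⟨∅, ConFrom.refl ∅⟩
  let E : Set ℕ := {k | k.unpair.2 ∈ e k.unpair.1}
  have hi := lc_inner E
  have h1 : AmF (Lc E) (fun n : ℕ => e n) := by
    have h2 := AmF.setOf hi (R := fun (n m : ℕ) => Nat.pair n m ∈ E)
      (Am.mem_set hi (AmF.natPair hi (AmF.fst hi) (AmF.snd hi)) (AmF.const hi E rl_mem_lc))
    refine h2.congr hi fun n _ => ?_
    ext m
    simp [E, Nat.unpair_pair]
  refine Set.MapsTo.countable_of_injOn (f := fun D : Set (Set ℕ) => {n | e n ∈ D})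
    (t := {x | ConFrom x E}) ?_ ?_ (hc E)
  · rintro D ⟨c, hc, hD⟩
    refine conFrom_of_am (x := {n | e n ∈ D}) ?_
    refine (Am.mem hi ((AmF.code hi).comp hi h1) (AmF.const hi c
      (lc_empty_subset hi hc))).congr hi fun n _ => ?_
    exact hD (e n)
  · intro D hD D' hD' h3
    simp only at h3
    have h4 : ∀ n, e n ∈ D ↔ e n ∈ D' := fun n => by
      constructor
      · intro h5
        exact (h3 ▸ (show n ∈ {n | e n ∈ D} from h5) : n ∈ {n | e n ∈ D'})
      · intro h5
        exact (h3 ▸ (show n ∈ {n | e n ∈ D'} from h5) : n ∈ {n | e n ∈ D})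
    ext x
    constructor
    · intro hx
      have h5 : x ∈ Set.range e := he ▸ L2_sub hD hx
      obtain ⟨n, rfl⟩ := h5
      exact (h4 n).1 hx
    · intro hx
      have h5 : x ∈ Set.range e := he ▸ L2_sub hD' hx
      obtain ⟨n, rfl⟩ := h5
      exact (h4 n).2 hx

end Pool.Agent.Helper17.CL
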