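import Mathlib

/-!
# Project CL: relative constructibility

Formulas of the language of set theory, definable subsets, the hierarchy `L[y]` for a set `y` of
natural numbers, and inner models.
-/

set_option autoImplicit false

namespace Pool.Agent.Helper17.CL

open ZFSet

/-! ### Formulas -/

/-- Formulas of the language of set theory; the variables are de Bruijn indices. -/
inductive Fml : Type
  | mem (i j : ℕ) : Fml
  | eq (i j : ℕ) : Fml
  | nand (φ ψ : Fml) : Fml
  | all (φ : Fml) : Fml

/-- The assignment `v` shifted by one, with the value `a` of the new variable `0`. -/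
def cons (a : ZFSet.{0}) (v : ℕ → ZFSet.{0}) : ℕ → ZFSet.{0}
  | 0 => a
  | n + 1 => v n

/-- Satisfaction in the structure `(u, ∈)`. -/
def Sat (u : Set ZFSet.{0}) : Fml → (ℕ → ZFSet.{0}) → Prop
  | .mem i j, v => v i ∈ v j
  | .eq i j, v => v i = v j
  | .nand φ ψ, v => ¬ (Sat u φ v ∧ Sat u ψ v)
  | .all φ, v => ∀ a ∈ u, Sat u φ (cons a v)

/-- `x` is a subset of `u` which is definable over `(u, ∈)` with parameters from `u`. -/
def IsDef (u x : ZFSet.{0}) : Prop :=
  ∃ (φ : Fml) (v : ℕ → ZFSet.{0}), (∀ i, v i ∈ u) ∧
    ∀ z, z ∈ x ↔ z ∈ u ∧ Sat (u : Set ZFSet.{0}) φ (cons z v)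

/-- The set of the definable subsets of `u`. -/
noncomputable def Def (u : ZFSet.{0}) : ZFSet.{0} := ZFSet.sep (IsDef u) (powerset u)

/-! ### The constructible hierarchy -/

/-- The von Neumann numeral. -/
noncomputable def nat (n : ℕ) : ZFSet.{0} := (n : Ordinal.{0}).toZFSet

/-- The first infinite ordinal. -/
noncomputable def omg : ZFSet.{0} := Ordinal.omega0.{0}.toZFSet

/-- A set of natural numbers as a set. -/
noncomputable def rl (y : Set ℕ) : ZFSet.{0} := ZFSet.sep (fun z => ∃ n ∈ y, z = nat n) omg

/-- The hierarchy of the sets constructible from `y`: the first level is `ω ∪ {y}`, and the level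
`o` consists of the elements of the first level and the definable subsets of the levels `a < o`. -/
noncomputable def LL (y : Set ℕ) (o : Ordinal.{0}) : ZFSet.{0} :=
  insert (rl y) omg ∪ ⋃ a : Set.Iio o, Def (LL y a)
termination_by o
decreasing_by exact a.2

/-- The class `L[y]`. -/
def Lc (y : Set ℕ) : Set ZFSet.{0} := {z | ∃ o, z ∈ LL y o}

/-- `x` is constructible from `y`. -/
def ConFrom (x y : Set ℕ) : Prop := rl x ∈ Lc y

/-! ### Inner models -/

/-- Inner models: transitive classes such that every set `s` of elements is contained in a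
transitive element `u` all of whose definable subsets are elements. -/
structure IsInner (M : Set ZFSet.{0}) : Prop where
  trans : ∀ x ∈ M, ∀ z ∈ x, z ∈ M
  cof : ∀ s : ZFSet.{0}, (∀ z ∈ s, z ∈ M) →
    ∃ u ∈ M, u.IsTransitive ∧ s ⊆ u ∧ ∀ d, IsDef u d → d ∈ M

end Pool.Agent.Helper17.CL
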