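import Pool.Agent.Helper17.CL.Min
import Pool.Agent.Helper90.CL.Ord

/-!
# Project CL: the enumeration of `L[y]` by ordinals; choice
-/

set_option autoImplicit false

namespace Pool.Agent.Helper17.CL

open ZFSet

universe u₁ u₂ u₃

open Classical in
/-- The list with the code `c`. -/
noncomputable def lst (c : ZFSet.{0}) : List ZFSet.{0} :=
  if h : ∃ l : List ZFSet.{0}, code l = c then h.choose else []

@[simp] theorem lst_code (l : List ZFSet.{0}) : lst (code l) = l := by
  have h : ∃ l' : List ZFSet.{0}, code l' = code l := ⟨l, rfl⟩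
  unfold lst
  rw [dif_pos h]
  exact Cod.inj h.choose_spec

open Classical in
/-- One step of the enumeration. -/
noncomputable def EEstep (y : Set ℕ) (b : Ordinal.{0}) (m : ℕ) (e₁ e₂ : ZFSet.{0}) : ZFSet.{0} :=
  if m = 1 then rl y else if m = 2 then b.toZFSet else if m = 3 then ZFSet.pair e₁ e₂ else
    ZFSet.sep (fun z => (∀ a ∈ z :: (lst e₂).tail, a ∈ LL y b) ∧
      Sat (LL y b : Set ZFSet.{0}) (fdec (m - 4)) (env ((lst e₂).headD ∅) (z :: (lst e₂).tail)))
        (LL y b)

open Classical in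
/-- The enumeration of `L[y]`. -/
noncomputable def EE (y : Set ℕ) (δ : Ordinal.{0}) : ZFSet.{0} :=
  EEstep y (odec δ).1 (odec δ).2.2 (if h : (odec δ).1 < δ then EE y (odec δ).1 else ∅)
    (if h : (odec δ).2.1 < δ then EE y (odec δ).2.1 else ∅)
termination_by δ
decreasing_by
  · exact h
  · exact h

theorem ee_eq (y : Set ℕ) {δ b a : Ordinal.{0}} {m : ℕ} (h : odec δ = (b, a, m)) (hb : b < δ)
    (ha : a < δ) : EE y δ = EEstep y b m (EE y b) (EE y a) := by
  rw [EE, h]
  simp only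
  rw [dif_pos hb, dif_pos ha]

theorem app_gro_of_not {f : Ordinal.{0} → ZFSet.{0}} {o a : Ordinal.{0}} (ha : ¬ a < o) :
    app (gro f o) a.toZFSet = ∅ := by
  rw [eq_empty]
  intro z hz
  rw [mem_app] at hz
  obtain ⟨w, hw, _⟩ := hz
  rw [mem_gro] at hw
  obtain ⟨a', ha', he⟩ := hw
  rw [pair_inj] at he
  rw [Ordinal.toZFSet_injective he.1] at ha
  exact ha ha'

/-- Every element of `L[y]` has an index. -/
theorem ee_surj (y : Set ℕ) {x : ZFSet.{0}} (hx : x ∈ Lc y) : ∃ δ, EE y δ = x := by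
  have hnum : ∀ b : Ordinal.{0}, ∃ δ, EE y δ = b.toZFSet := by
    intro b
    obtain ⟨δ, h1, h2, h3⟩ := odec_surj b 0 1
    refine ⟨δ, ?_⟩
    rw [ee_eq y h3 h1 h2]
    unfold EEstep
    rw [if_neg (by norm_num), if_pos (by norm_num)]
  have hlist : ∀ l : List ZFSet.{0}, (∀ c ∈ l, ∃ δ, EE y δ = c) → ∃ δ, EE y δ = code l := by
    intro l
    induction l with
    | nil =>
      intro _
      obtain ⟨δ, hδ⟩ := hnum 0
      exact ⟨δ, by rw [hδ, Ordinal.toZFSet_zero]; rfl⟩
    | cons c l ih =>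
      intro hl
      obtain ⟨δ₂, h2⟩ := ih fun c hc => hl c (List.mem_cons_of_mem _ hc)
      obtain ⟨δ₁, h1⟩ := hl c List.mem_cons_self
      obtain ⟨δ, h3, h4, h5⟩ := odec_surj δ₁ δ₂ 2
      refine ⟨δ, ?_⟩
      rw [ee_eq y h5 h3 h4, h1, h2]
      unfold EEstep
      rw [if_neg (by norm_num), if_neg (by norm_num), if_pos (by norm_num)]
      rfl
  obtain ⟨o, ho⟩ := hx
  induction o using WellFoundedLT.induction generalizing x with
  | _ o ih =>
    rw [mem_ll] at ho
    rcases ho with (rfl | ho) | ⟨a, ha, hx⟩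
    · obtain ⟨δ, h1, h2, h3⟩ := odec_surj 0 0 0
      refine ⟨δ, ?_⟩
      rw [ee_eq y h3 h1 h2]
      unfold EEstep
      rw [if_pos (by norm_num)]
    · obtain ⟨n, rfl⟩ := mem_omg.1 ho
      exact hnum n
    · obtain ⟨d, hd, n, l, hl, rfl⟩ := isDef_iff.1 hx
      obtain ⟨δ₂, h2⟩ := hlist (d :: l) fun c hc => ih a ha (by
        rcases List.mem_cons.1 hc with rfl | hc
        · exact hd
        · exact hl c hc)
      obtain ⟨δ, h3, h4, h5⟩ := odec_surj a δ₂ (n + 3)
      refine ⟨δ, ?_⟩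
      rw [ee_eq y h5 h3 h4, h2]
      unfold EEstep
      rw [if_neg (by omega), if_neg (by omega), if_neg (by omega), lst_code]
      rw [← defS_eq hl]
      rfl

section

variable {M : Set ZFSet.{0}} (h : IsInner M)
variable {α : Type u₁} {β : Type u₂}
variable [Cod α] [Cod β]

include h

theorem AmF.lst {f : α → ZFSet.{0}} (hf : AmF M f) : AmF M (fun x => CL.lst (f x)) := by
  have h1 : AmF M (fun c : ZFSet.{0} => CL.lst c) := by
    refine AmF.mk' (fun c hc => ?_) ?_
    · unfold CL.lst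
      split_ifs with h2
      · rw [h2.choose_spec]
        exact hc
      · exact h.empty_mem
    · refine ((Am.eq h ((AmF.code h).comp h (AmF.snd (β := List ZFSet.{0}) h)) (AmF.fst h)).or h
        (Am.and h (Am.not h (Am.ex h (R := fun (q : ZFSet.{0} × List ZFSet.{0})
          (l : List ZFSet.{0}) => Cod.code l = q.1) (Am.eq h ((AmF.code h).comp h (AmF.snd h))
            ((AmF.fst h).comp h (AmF.fst h))))) (Am.eq h (AmF.snd h) (AmF.nil h)))).congr h
              fun q hq => ?_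
      obtain ⟨c, l⟩ := q
      simp only
      have hc := ((code_mem_prod h).1 hq).1
      by_cases h2 : ∃ l : List ZFSet.{0}, Cod.code l = c
      · obtain ⟨l', rfl⟩ := h2
        rw [lst_code]
        constructor
        · rintro rfl
          exact Or.inl rfl
        · rintro (h3 | ⟨h3, _⟩)
          · exact (Cod.inj h3).symm
          · exact absurd ⟨l', hc, rfl⟩ h3
      · unfold CL.lst
        rw [dif_neg h2]
        constructor
        · rintro rfl
          exact Or.inr ⟨fun h3 => h2 (h3.imp fun _ h4 => h4.2), rfl⟩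
        · rintro (h3 | ⟨_, h3⟩)
          · exact absurd ⟨l, h3⟩ h2
          · exact h3.symm
  exact h1.comp h hf

theorem AmF.ee {f : α → Set ℕ} {g : α → Ordinal.{0}} (hf : AmF M f) (hg : AmF M g) :
    AmF M (fun x => EE (f x) (g x)) := by
  classical
  have h1 : AmF M (fun q : Set ℕ × Ordinal.{0} => EE q.1 q.2) := by
    refine AmF.rec_ord h (F := fun (y : Set ℕ) o => EE y o)
      (H := fun (y : Set ℕ) (o : Ordinal.{0}) (g : ZFSet.{0}) =>
        EEstep y (CL.odec o).1 (CL.odec o).2.2 (CL.app g (CL.odec o).1.toZFSet)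
          (CL.app g (CL.odec o).2.1.toZFSet)) ?_ ?_
    · let C := Set ℕ × Ordinal.{0} × ZFSet.{0}
      have vy : AmF M (fun q : C => q.1) := AmF.fst h
      have vo : AmF M (fun q : C => q.2.1) := (AmF.fst h).comp h (AmF.snd h)
      have vg : AmF M (fun q : C => q.2.2) := (AmF.snd h).comp h (AmF.snd h)
      have vb : AmF M (fun q : C => (CL.odec q.2.1).1) := (AmF.fst h).comp h (AmF.odec h vo)
      have vr : AmF M (fun q : C => (CL.odec q.2.1).2) := (AmF.snd h).comp h (AmF.odec h vo)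
      have va : AmF M (fun q : C => (CL.odec q.2.1).2.1) := (AmF.fst h).comp h vr
      have vm : AmF M (fun q : C => (CL.odec q.2.1).2.2) := (AmF.snd h).comp h vr
      have v1 : AmF M (fun q : C => CL.app q.2.2 (CL.odec q.2.1).1.toZFSet) :=
        AmF.app h vg ((AmF.code h).comp h vb)
      have v2 : AmF M (fun q : C => CL.app q.2.2 (CL.odec q.2.1).2.1.toZFSet) :=
        AmF.app h vg ((AmF.code h).comp h va)
      have vk : ∀ k : ℕ, Am M (fun q : C => (CL.odec q.2.1).2.2 = k) := fun k =>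
        Am.eq h vm (AmF.const h k (AbsCod.mem h k))
      have vl := AmF.lst h v2
      unfold EEstep
      refine AmF.ite h (vk 1) ((AmF.code h).comp h vy) (AmF.ite h (vk 2) ((AmF.code h).comp h vb)
        (AmF.ite h (vk 3) (AmF.pair h v1 v2) ?_))
      exact AmF.defS h (f := fun q : C => LL q.1 (CL.odec q.2.1).1)
        (g := fun q : C => (CL.lst (CL.app q.2.2 (CL.odec q.2.1).2.1.toZFSet)).headD ∅)
        (k := fun q : C => (CL.odec q.2.1).2.2 - 4)
        (l := fun q : C => (CL.lst (CL.app q.2.2 (CL.odec q.2.1).2.1.toZFSet)).tail)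
        (AmF.ll h vy vb) (AmF.headD h vl (AmF.empty h))
        (AmF.natSub h vm (AmF.const h 4 (AbsCod.mem h 4))) (AmF.tail h vl)
    · intro y o
      rw [EE]
      congr 1
      · split_ifs with h2
        · exact (app_gro h2).symm
        · exact (app_gro_of_not h2).symm
      · split_ifs with h2
        · exact (app_gro h2).symm
        · exact (app_gro_of_not h2).symm
  exact h1.comp h (f := fun x => (f x, g x)) (hf.prod h hg)

end

theorem ee_mem (y : Set ℕ) (δ : Ordinal.{0}) : EE y δ ∈ Lc y := by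
  have h := lc_inner y
  exact (AmF.ee h (f := fun _ : ZFSet.{0} => y) (g := fun _ => δ) (AmF.const h y rl_mem_lc)
    (AmF.const h δ (h.ord_mem δ))).mem ∅ h.empty_mem

section

variable {y : Set ℕ} {α : Type u₁} {β : Type u₂} [Cod α] [Cod β]

open Classical in
/-- The choice function of `L[y]`. -/
noncomputable def chf (y : Set ℕ) (R : α → β → Prop) (b₀ : β) (a : α) : β :=
  if h : ∃ b : β, code b = EE y (sInf {o | ∃ b : β, code b = EE y o ∧ R a b}) ∧ R a b then
    h.choose else b₀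

omit [Cod α] in
theorem chf_spec {R : α → β → Prop} {b₀ : β} {a : α}
    (h : ∃ b : β, code b ∈ Lc y ∧ R a b) : R a (chf y R b₀ a) ∧ code (chf y R b₀ a) ∈ Lc y := by
  have h1 : ∃ b : β, code b = EE y (sInf {o | ∃ b : β, code b = EE y o ∧ R a b}) ∧ R a b := by
    have h2 : {o : Ordinal.{0} | ∃ b : β, code b = EE y o ∧ R a b}.Nonempty := by
      obtain ⟨b, hb, hr⟩ := h
      obtain ⟨δ, hδ⟩ := ee_surj y hb
      exact ⟨δ, b, hδ.symm, hr⟩
    exact csInf_mem h2
  unfold chf
  rw [dif_pos h1]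
  refine ⟨h1.choose_spec.2, ?_⟩
  rw [h1.choose_spec.1]
  exact ee_mem _ _

theorem amF_chf {R : α → β → Prop} {b₀ : β} (hR : Am (Lc y) (fun q : α × β => R q.1 q.2))
    (hb : code b₀ ∈ Lc y) : AmF (Lc y) (chf y R b₀) := by
  have h := lc_inner y
  have hy : code y ∈ Lc y := rl_mem_lc
  have h1 : Am (Lc y) (fun q : α × Ordinal.{0} => ∃ b : β, code b ∈ Lc y ∧
      code b = EE y q.2 ∧ R q.1 b) := by
    refine Am.ex h (R := fun (q : α × Ordinal.{0}) (b : β) => code b = EE y q.2 ∧ R q.1 b)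
      (Am.and h ?_ ?_)
    · exact Am.eq h ((AmF.code h).comp h (AmF.snd h)) (AmF.ee h (AmF.const h y hy)
        ((AmF.snd h).comp h (AmF.fst h)))
    · exact hR.comp h (f := fun q : (α × Ordinal.{0}) × β => (q.1.1, q.2))
        (((AmF.fst h).comp h (AmF.fst h)).prod h (AmF.snd h))
  have h1' : Am (Lc y) (fun q : α × Ordinal.{0} => ∃ b : β,
      code b = EE y q.2 ∧ R q.1 b) := by
    refine h1.congr h fun q _ => exists_congr fun b => ?_
    constructor
    · rintro ⟨h2, h3⟩
      exact ⟨by rw [h2]; exact ee_mem _ _, h2, h3⟩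
    · exact fun h2 => h2.2
  have h2 := AmF.least h (R := fun (a : α) o => ∃ b : β, code b = EE y o ∧ R a b) h1'
  have h3 : Am (Lc y) (fun q : α × β =>
      code q.2 = EE y (sInf {o | ∃ b : β, code b = EE y o ∧ R q.1 b}) ∧ R q.1 q.2) := by
    refine Am.and h (Am.eq h ((AmF.code h).comp h (AmF.snd h)) (AmF.ee h (AmF.const h y hy)
      (h2.comp h (AmF.fst h)))) hR
  refine AmF.mk' (fun a ha => ?_) ?_
  · unfold chf
    split_ifs with h4
    · rw [h4.choose_spec.1]
      exact ee_mem _ _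
    · exact hb
  · refine (Am.or h h3 (Am.and h (Am.not h (Am.ex h (R := fun (q : α × β) (b : β) =>
      code b = EE y (sInf {o | ∃ b : β, code b = EE y o ∧ R q.1 b}) ∧ R q.1 b) ?_))
        (Am.eq h (AmF.const h b₀ hb) (AmF.snd h)))).congr h fun q hq => ?_
    · exact h3.comp h (f := fun q : (α × β) × β => (q.1.1, q.2))
        (((AmF.fst h).comp h (AmF.fst h)).prod h (AmF.snd h))
    · obtain ⟨a, b⟩ := q
      simp only
      unfold chf
      by_cases h4 : ∃ b : β, code b = EE y (sInf {o | ∃ b : β, code b = EE y o ∧ R a b}) ∧ R a b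
      · rw [dif_pos h4]
        constructor
        · rintro rfl
          exact Or.inl h4.choose_spec
        · rintro (h5 | ⟨h5, _⟩)
          · exact Cod.inj (h4.choose_spec.1.trans h5.1.symm)
          · obtain ⟨b', h6, h7⟩ := h4
            exact absurd ⟨b', by rw [h6]; exact ee_mem _ _, h6, h7⟩ h5
      · rw [dif_neg h4]
        constructor
        · intro h5
          exact Or.inr ⟨fun h6 => h4 (h6.imp fun _ h7 => h7.2), h5⟩
        · rintro (h5 | ⟨_, h5⟩)
          · exact absurd ⟨b, h5⟩ h4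
          · exact h5

/-- The axiom of choice in `L[y]`. -/
theorem lc_choice {R : α → β → Prop} (hR : Am (Lc y) (fun q : α × β => R q.1 q.2)) (b₀ : β)
    (hb : code b₀ ∈ Lc y) : ∃ f : α → β, AmF (Lc y) f ∧
      ∀ a, (∃ b, code b ∈ Lc y ∧ R a b) → R a (f a) :=
  ⟨chf y R b₀, amF_chf hR hb, fun _ ha => (chf_spec ha).1⟩

/-- The axiom of dependent choices in `L[y]`. -/
theorem lc_dc {D : α → Prop} {R : ℕ → α → α → Prop}
    (hR : Am (Lc y) (fun q : ℕ × α × α => R q.1 q.2.1 q.2.2)) (hD : Am (Lc y) D)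
    {a₀ : α} (ha : code a₀ ∈ Lc y) (hDa : D a₀)
    (hex : ∀ n a, code a ∈ Lc y → D a → ∃ b, code b ∈ Lc y ∧ D b ∧ R n a b) :
    ∃ f : ℕ → α, AmF (Lc y) f ∧ f 0 = a₀ ∧ ∀ n, code (f n) ∈ Lc y ∧ D (f n) ∧
      R n (f n) (f (n + 1)) := by
  have h := lc_inner y
  obtain ⟨c, hc, hc'⟩ := lc_choice (R := fun (q : ℕ × α) (b : α) => D b ∧ R q.1 q.2 b)
    (Am.and h (hD.comp h (AmF.snd h)) (hR.comp h (f := fun q : (ℕ × α) × α =>
      (q.1.1, q.1.2, q.2)) (((AmF.fst h).comp h (AmF.fst h)).prod h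
        (((AmF.snd h).comp h (AmF.fst h)).prod h (AmF.snd h))))) a₀ ha
  let F : ℕ → α := fun n => Nat.rec a₀ (fun n a => c (n, a)) n
  have hF : AmF (Lc y) (fun q : ℕ × ℕ => F q.2) := by
    refine AmF.rec_nat h (F := fun (_ : ℕ) n => F n) (G := fun _ => a₀)
      (H := fun _ n a => c (n, a)) (AmF.const h a₀ ha) ?_ (fun _ => rfl) (fun _ _ => rfl)
    exact hc.comp h (f := fun q : ℕ × ℕ × α => (q.2.1, q.2.2)) (AmF.snd h)
  have hF' : AmF (Lc y) F := hF.comp h (f := fun n : ℕ => (0, n))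
    ((AmF.const h 0 (AbsCod.mem h 0)).prod h (AmF.id h))
  have hmem : ∀ n, code (F n) ∈ Lc y := fun n => hF'.mem n (AbsCod.mem h n)
  have hDF : ∀ n, D (F n) := by
    intro n
    induction n with
    | zero => exact hDa
    | succ n ih => exact (hc' (n, F n) (hex n (F n) (hmem n) ih)).1
  exact ⟨F, hF', rfl, fun n => ⟨hmem n, hDF n, (hc' (n, F n) (hex n (F n) (hmem n) (hDF n))).2⟩⟩

end

end Pool.Agent.Helper17.CL
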