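import Pool.Agent.Helper17.CL.Min

/-!
# Project CL: forcing over inner models, the calculus of forceable relations
-/

set_option autoImplicit false

namespace Pool.Agent.Helper17.CL

open ZFSet

universe u₁ u₂ u₃

/-! ### Evaluation of names -/

theorem rank_fst_lt {σ p τ : ZFSet.{0}} (h : ZFSet.pair σ p ∈ τ) : σ.rank < τ.rank := by
  have h1 : σ ∈ ({σ} : ZFSet.{0}) := by simp
  have h2 : ({σ} : ZFSet.{0}) ∈ ZFSet.pair σ p := by
    rw [ZFSet.pair]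
    simp
  exact ((rank_lt_of_mem h1).trans (rank_lt_of_mem h2)).trans (rank_lt_of_mem h)

/-- The names in `τ` which are realised by `G`. -/
noncomputable def dmn (G : Set ZFSet.{0}) (τ : ZFSet.{0}) : ZFSet.{0} :=
  ZFSet.sep (fun σ => ∃ p ∈ G, ZFSet.pair σ p ∈ τ) (⋃₀ (⋃₀ τ : ZFSet.{0}))

theorem mem_dmn {G : Set ZFSet.{0}} {τ σ : ZFSet.{0}} :
    σ ∈ dmn G τ ↔ ∃ p ∈ G, ZFSet.pair σ p ∈ τ := by
  unfold dmn
  rw [mem_sep, mem_sUnion]
  constructor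
  · exact fun h => h.2
  · rintro ⟨p, hp, h⟩
    refine ⟨⟨{σ}, mem_sUnion.2 ⟨_, h, ?_⟩, by simp⟩, p, hp, h⟩
    rw [ZFSet.pair]
    simp

/-- The value of a name. -/
noncomputable def vl (G : Set ZFSet.{0}) (τ : ZFSet.{0}) : ZFSet.{0} :=
  ZFSet.range (fun w : (dmn G τ : ZFSet.{0}) => vl G w.1)
termination_by τ.rank
decreasing_by
  obtain ⟨p, _, h⟩ := mem_dmn.1 w.2
  exact rank_fst_lt h

theorem mem_vl {G : Set ZFSet.{0}} {τ z : ZFSet.{0}} :
    z ∈ vl G τ ↔ ∃ σ, ∃ p ∈ G, ZFSet.pair σ p ∈ τ ∧ z = vl G σ := by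
  rw [vl, mem_range]
  constructor
  · rintro ⟨⟨σ, hσ⟩, rfl⟩
    obtain ⟨p, hp, h⟩ := mem_dmn.1 hσ
    exact ⟨σ, p, hp, h, rfl⟩
  · rintro ⟨σ, p, hp, h, rfl⟩
    exact ⟨⟨σ, mem_dmn.2 ⟨p, hp, h⟩⟩, rfl⟩

/-! ### Generic filters -/

/-- `G` is a filter on the preorder `(P, le)` in `M` which meets all dense sets in `M`. -/
structure Forc (M : Set ZFSet.{0}) (P : ZFSet.{0}) (le : ZFSet.{0} → ZFSet.{0} → Prop)
    (G : Set ZFSet.{0}) : Prop where
  inner : IsInner M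
  mem : P ∈ M
  am : Am M (fun q : ZFSet.{0} × ZFSet.{0} => le q.1 q.2)
  refl : ∀ p ∈ P, le p p
  trans : ∀ p ∈ P, ∀ q ∈ P, ∀ r ∈ P, le p q → le q r → le p r
  sub : ∀ p ∈ G, p ∈ P
  up : ∀ p ∈ G, ∀ q ∈ P, le p q → q ∈ G
  dir : ∀ p ∈ G, ∀ q ∈ G, ∃ r ∈ G, le r p ∧ le r q
  meets : ∀ D ∈ M, D ⊆ P → (∀ p ∈ P, ∃ q ∈ D, le q p) → ∃ p ∈ G, p ∈ D

/-- Forceable relations. -/
def FR (M : Set ZFSet.{0}) (P : ZFSet.{0}) (le : ZFSet.{0} → ZFSet.{0} → Prop)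
    (G : Set ZFSet.{0}) {α : Type u₁} [Cod α] (R : α → Prop) : Prop :=
  ∃ D : α → ZFSet.{0} → Prop, Am M (fun q : α × ZFSet.{0} => D q.1 q.2) ∧
    (∀ x, code x ∈ M → ∀ p ∈ P, ∀ q ∈ P, le q p → D x p → D x q) ∧
    ∀ x, code x ∈ M → (R x ↔ ∃ p ∈ G, D x p)

section

variable {M : Set ZFSet.{0}} {P : ZFSet.{0}} {le : ZFSet.{0} → ZFSet.{0} → Prop}
variable {G : Set ZFSet.{0}} (F : Forc M P le G)
variable {α : Type u₁} {β : Type u₂} {γ : Type u₃} [Cod α] [Cod β] [Cod γ]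
include F

theorem Forc.memM {p : ZFSet.{0}} (hp : p ∈ P) : p ∈ M := F.inner.trans _ F.mem _ hp

theorem Forc.nonempty : ∃ p, p ∈ G := by
  obtain ⟨p, hp, _⟩ := F.meets P F.mem (fun _ h => h) (fun p hp => ⟨p, hp, F.refl p hp⟩)
  exact ⟨p, hp⟩

theorem FR.not {R : α → Prop} (hR : FR M P le G R) : FR M P le G (fun x => ¬ R x) := by
  obtain ⟨D, hD, hdown, htruth⟩ := hR
  have h := F.inner
  have ham : Am M (fun q : α × ZFSet.{0} => ∀ r ∈ P, le r q.2 → ¬ D q.1 r) := by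
    refine Am.ball h (f := fun _ : α × ZFSet.{0} => P) (AmF.const h P F.mem)
      (R := fun (q : α × ZFSet.{0}) r => le r q.2 → ¬ D q.1 r) (Am.imp h ?_ (Am.not h ?_))
    · exact F.am.comp h (f := fun q : (α × ZFSet.{0}) × ZFSet.{0} => (q.2, q.1.2))
        ((AmF.snd h).prod h ((AmF.snd h).comp h (AmF.fst h)))
    · exact hD.comp h (f := fun q : (α × ZFSet.{0}) × ZFSet.{0} => (q.1.1, q.2))
        (((AmF.fst h).comp h (AmF.fst h)).prod h (AmF.snd h))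
  refine ⟨fun x p => ∀ r ∈ P, le r p → ¬ D x r, ham, ?_, ?_⟩
  · intro x hx p hp q hq hqp h1 r hr hrq
    exact h1 r hr (F.trans r hr q hq p hp hrq hqp)
  · intro x hx
    constructor
    · intro hn
      have hE : ZFSet.sep (fun p => D x p ∨ ∀ r ∈ P, le r p → ¬ D x r) P ∈ M := by
        have h1 : Am M (fun p : ZFSet.{0} => D x p ∨ ∀ r ∈ P, le r p → ¬ D x r) := by
          have hx' : AmF M (fun p : ZFSet.{0} => (x, p)) := (AmF.const h x hx).prod h (AmF.id h)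
          exact Am.or h (hD.comp h hx') (ham.comp h hx')
        exact (AmF.sep h (g := fun _ : ZFSet.{0} => P) (AmF.const h P F.mem)
          (R := fun _ p => D x p ∨ ∀ r ∈ P, le r p → ¬ D x r) (h1.comp h (AmF.snd h))).mem ∅
            h.empty_mem
      obtain ⟨p, hp, hpE⟩ := F.meets _ hE sep_subset (fun p hp => by
        by_cases h1 : ∃ r ∈ P, le r p ∧ D x r
        · obtain ⟨r, hr, hrp, hDr⟩ := h1
          exact ⟨r, mem_sep.2 ⟨hr, Or.inl hDr⟩, hrp⟩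
        · push Not at h1
          exact ⟨p, mem_sep.2 ⟨hp, Or.inr h1⟩, F.refl p hp⟩)
      rw [mem_sep] at hpE
      rcases hpE.2 with h2 | h2
      · exact absurd ((htruth x hx).2 ⟨p, hp, h2⟩) hn
      · exact ⟨p, hp, h2⟩
    · rintro ⟨p, hp, h1⟩ hR
      obtain ⟨q, hq, h2⟩ := (htruth x hx).1 hR
      obtain ⟨r, hr, hrp, hrq⟩ := F.dir p hp q hq
      exact h1 r (F.sub r hr) hrp (hdown x hx q (F.sub q hq) r (F.sub r hr) hrq h2)

theorem FR.and {R S : α → Prop} (hR : FR M P le G R) (hS : FR M P le G S) :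
    FR M P le G (fun x => R x ∧ S x) := by
  obtain ⟨D, hD, hdown, htruth⟩ := hR
  obtain ⟨D', hD', hdown', htruth'⟩ := hS
  refine ⟨fun x p => D x p ∧ D' x p, Am.and F.inner hD hD', ?_, ?_⟩
  · intro x hx p hp q hq hqp h1
    exact ⟨hdown x hx p hp q hq hqp h1.1, hdown' x hx p hp q hq hqp h1.2⟩
  · intro x hx
    show (R x ∧ S x) ↔ ∃ p ∈ G, D x p ∧ D' x p
    rw [htruth x hx, htruth' x hx]
    constructor
    · rintro ⟨⟨p, hp, h1⟩, q, hq, h2⟩
      obtain ⟨r, hr, hrp, hrq⟩ := F.dir p hp q hq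
      exact ⟨r, hr, hdown x hx p (F.sub p hp) r (F.sub r hr) hrp h1,
        hdown' x hx q (F.sub q hq) r (F.sub r hr) hrq h2⟩
    · rintro ⟨p, hp, h1, h2⟩
      exact ⟨⟨p, hp, h1⟩, p, hp, h2⟩

omit F in
theorem FR.congr {R S : α → Prop} (hR : FR M P le G R) (e : ∀ x, code x ∈ M → (S x ↔ R x)) :
    FR M P le G S := by
  obtain ⟨D, hD, hdown, htruth⟩ := hR
  exact ⟨D, hD, hdown, fun x hx => by rw [e x hx, htruth x hx]⟩

theorem FR.ex {R : α → β → Prop} (hR : FR M P le G (fun q : α × β => R q.1 q.2)) :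
    FR M P le G (fun x => ∃ y, code y ∈ M ∧ R x y) := by
  obtain ⟨D, hD, hdown, htruth⟩ := hR
  have h := F.inner
  refine ⟨fun x p => ∃ y : β, code y ∈ M ∧ D (x, y) p, ?_, ?_, ?_⟩
  · refine Am.ex h (R := fun (q : α × ZFSet.{0}) (y : β) => D (q.1, y) q.2) ?_
    exact hD.comp h (f := fun q : (α × ZFSet.{0}) × β => ((q.1.1, q.2), q.1.2))
      ((((AmF.fst h).comp h (AmF.fst h)).prod h (AmF.snd h)).prod h
        ((AmF.snd h).comp h (AmF.fst h)))
  · rintro x hx p hp q hq hqp ⟨y, hy, h1⟩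
    exact ⟨y, hy, hdown (x, y) ((code_mem_prod h).2 ⟨hx, hy⟩) p hp q hq hqp h1⟩
  · intro x hx
    constructor
    · rintro ⟨y, hy, h1⟩
      obtain ⟨p, hp, h2⟩ := (htruth (x, y) ((code_mem_prod h).2 ⟨hx, hy⟩)).1 h1
      exact ⟨p, hp, y, hy, h2⟩
    · rintro ⟨p, hp, y, hy, h2⟩
      exact ⟨y, hy, (htruth (x, y) ((code_mem_prod h).2 ⟨hx, hy⟩)).2 ⟨p, hp, h2⟩⟩

theorem FR.comp {R : β → Prop} {f : α → β} (hR : FR M P le G R) (hf : AmF M f) :
    FR M P le G (fun x => R (f x)) := by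
  obtain ⟨D, hD, hdown, htruth⟩ := hR
  have h := F.inner
  refine ⟨fun x p => D (f x) p, ?_, ?_, ?_⟩
  · exact hD.comp h (f := fun q : α × ZFSet.{0} => (f q.1, q.2))
      ((hf.comp h (AmF.fst h)).prod h (AmF.snd h))
  · intro x hx
    exact hdown (f x) (hf.mem x hx)
  · intro x hx
    exact htruth (f x) (hf.mem x hx)

theorem FR.ofAm {R : α → Prop} (hR : Am M R) : FR M P le G R := by
  have h := F.inner
  refine ⟨fun x _ => R x, hR.comp h (AmF.fst h), fun _ _ _ _ _ _ _ h1 => h1, fun x _ => ?_⟩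
  constructor
  · intro h1
    obtain ⟨p, hp⟩ := F.nonempty
    exact ⟨p, hp, h1⟩
  · rintro ⟨_, _, h1⟩
    exact h1

/-- Membership in the generic filter. -/
theorem FR.gen : FR M P le G (fun p : ZFSet.{0} => p ∈ G) := by
  have h := F.inner
  refine ⟨fun p q => p ∈ P ∧ le q p, ?_, ?_, ?_⟩
  · exact Am.and h (Am.mem h (AmF.fst h) (AmF.const h P F.mem)) (F.am.comp h
      (f := fun q : ZFSet.{0} × ZFSet.{0} => (q.2, q.1)) ((AmF.snd h).prod h (AmF.fst h)))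
  · rintro x _ p hp q hq hqp ⟨h1, h2⟩
    exact ⟨h1, F.trans q hq p hp x h1 hqp h2⟩
  · intro p _
    constructor
    · intro hp
      exact ⟨p, hp, F.sub p hp, F.refl p (F.sub p hp)⟩
    · rintro ⟨q, hq, h1, h2⟩
      exact F.up q hq p h1 h2

theorem FR.or {R S : α → Prop} (hR : FR M P le G R) (hS : FR M P le G S) :
    FR M P le G (fun x => R x ∨ S x) :=
  (FR.not F (FR.and F (FR.not F hR) (FR.not F hS))).congr fun x _ => by tauto

theorem FR.imp {R S : α → Prop} (hR : FR M P le G R) (hS : FR M P le G S) :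
    FR M P le G (fun x => R x → S x) :=
  (FR.not F (FR.and F hR (FR.not F hS))).congr fun x _ => by tauto

theorem FR.iff {R S : α → Prop} (hR : FR M P le G R) (hS : FR M P le G S) :
    FR M P le G (fun x => (R x ↔ S x)) :=
  (FR.and F (FR.imp F hR hS) (FR.imp F hS hR)).congr fun x _ => by tauto

theorem FR.all {R : α → β → Prop} (hR : FR M P le G (fun q : α × β => R q.1 q.2)) :
    FR M P le G (fun x => ∀ y, code y ∈ M → R x y) :=
  (FR.not F (FR.ex F (R := fun x y => ¬ R x y) (FR.not F hR))).congr fun x _ => by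
    push Not
    rfl

theorem FR.memM {s : ZFSet.{0} → Prop} (hs : FR M P le G s) {u : ZFSet.{0}} (hu : u ∈ M) :
    FR M P le G (fun x : ZFSet.{0} => x ∈ u ∧ s x) :=
  FR.and F (FR.ofAm F (Am.mem F.inner (AmF.id F.inner) (AmF.const F.inner u hu))) hs

end

end Pool.Agent.Helper17.CL
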