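import Pool.Agent.Helper17.CL.Names
import Pool.Agent.Helper33.CL.HE

/-!
# Project CL: the interface for the constructibility relation
-/

set_option autoImplicit false

namespace Pool.Agent.Helper17.CL

/-- Names for the reals of generic extensions of `L`. -/
theorem namesFor : Pool.Agent.Helper44.CL.NamesFor ConFrom Pool.Agent.Helper44.CL.L2 :=
  namesFor_of fun _ _ _ F => Pool.Agent.Helper33.CL.hE F

/-- The interface, if `ω₁` is inaccessible from reals. -/
theorem iface (hω : ∀ r : Set ℕ, omegaOneL r < Ordinal.omega 1) :
    Pool.Agent.Helper44.CL.Iface ConFrom Pool.Agent.Helper44.CL.L2 :=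
  Pool.Agent.Helper44.CL.iface_conFrom hω namesFor

end Pool.Agent.Helper17.CL
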