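import Pool.Agent.Helper17.CL.Forc

/-!
# Project CL: generic extensions of inner models are inner models
-/

set_option autoImplicit false

namespace Pool.Agent.Helper17.CL

open ZFSet

universe u₁ u₂ u₃

/-- The generic extension. -/
def Gext (M : Set ZFSet.{0}) (G : Set ZFSet.{0}) : Set ZFSet.{0} := {z | ∃ τ ∈ M, z = vl G τ}

/-- The canonical names of the elements of the ground model. -/
noncomputable def chk (P x : ZFSet.{0}) : ZFSet.{0} :=
  ZFSet.prod (ZFSet.range (fun y : x => chk P y.1)) P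
termination_by x
decreasing_by exact y.2

theorem chk_eq (P x : ZFSet.{0}) : chk P x = ZFSet.prod (img (chk P) x) P := by
  rw [chk]
  congr 1

section

variable {M : Set ZFSet.{0}} {P : ZFSet.{0}} {le : ZFSet.{0} → ZFSet.{0} → Prop}
variable {G : Set ZFSet.{0}} (F : Forc M P le G)
variable {α : Type u₁} {β : Type u₂} {γ : Type u₃} [Cod α] [Cod β] [Cod γ]
include F

theorem vl_chk (x : ZFSet.{0}) : vl G (chk P x) = x := by
  induction x using ZFSet.inductionOn with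
  | h x ih =>
    ext z
    rw [mem_vl]
    constructor
    · rintro ⟨σ, p, hp, h1, rfl⟩
      rw [chk_eq, pair_mem_prod, mem_img] at h1
      obtain ⟨⟨y, hy, rfl⟩, _⟩ := h1
      rw [ih y hy]
      exact hy
    · intro hz
      obtain ⟨p, hp⟩ := F.nonempty
      refine ⟨chk P z, p, hp, ?_, (ih z hz).symm⟩
      rw [chk_eq, pair_mem_prod, mem_img]
      exact ⟨⟨z, hz, rfl⟩, F.sub p hp⟩

theorem AmF.chk {f : α → ZFSet.{0}} (hf : AmF M f) : AmF M (fun x => CL.chk P (f x)) := by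
  have h := F.inner
  have h1 : AmF M (fun q : ℕ × ZFSet.{0} => CL.chk P q.2) := by
    refine AmF.rec_mem h (F := fun (_ : ℕ) x => CL.chk P x)
      (H := fun (_ : ℕ) (x g : ZFSet.{0}) => ZFSet.prod (CL.img (fun y => CL.app g y) x) P)
        ?_ ?_
    · have vg : AmF M (fun q : ℕ × ZFSet.{0} × ZFSet.{0} => q.2.2) :=
        (AmF.snd h).comp h (AmF.snd h)
      have vx : AmF M (fun q : ℕ × ZFSet.{0} × ZFSet.{0} => q.2.1) :=
        (AmF.fst h).comp h (AmF.snd h)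
      exact AmF.zprod h (AmF.img h (f := fun (q : ℕ × ZFSet.{0} × ZFSet.{0}) y =>
        CL.app q.2.2 y) vx (AmF.app h (vg.comp h (AmF.fst h)) (AmF.snd h)))
          (AmF.const h P F.mem)
    · intro _ x
      rw [chk_eq]
      congr 1
      ext t
      rw [mem_img, mem_img]
      refine exists_congr fun y => and_congr_right fun hy => ?_
      rw [app_gr hy]
  exact h1.comp h (f := fun x => (0, f x)) ((AmF.const h 0 (AbsCod.mem h 0)).prod h hf)

theorem Forc.chk_mem {x : ZFSet.{0}} (hx : x ∈ M) : CL.chk P x ∈ M :=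
  (AmF.chk F (AmF.id (α := ZFSet.{0}) F.inner)).mem x hx

/-- The ground model is contained in the generic extension. -/
theorem Forc.sub_gext : M ⊆ Gext M G := fun x hx => ⟨chk P x, F.chk_mem hx, (vl_chk F x).symm⟩

/-- The generic filter as a set. -/
theorem Forc.gen_mem : ZFSet.sep (fun p => p ∈ G) P ∈ Gext M G := by
  have h := F.inner
  refine ⟨img (fun p => ZFSet.pair (CL.chk P p) p) P, ?_, ?_⟩
  · exact (AmF.img h (f := fun (_ : ZFSet.{0}) p => ZFSet.pair (CL.chk P p) p) (g := fun _ => P)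
      (AmF.const h P F.mem) ((AmF.chk F (AmF.snd h)).pair h (AmF.snd h))).mem ∅ h.empty_mem
  · ext z
    rw [mem_sep, mem_vl]
    constructor
    · rintro ⟨hz, hG⟩
      exact ⟨CL.chk P z, z, hG, mem_img.2 ⟨z, hz, rfl⟩, (vl_chk F z).symm⟩
    · rintro ⟨σ, p, hp, h1, rfl⟩
      obtain ⟨p', hp', h2⟩ := mem_img.1 h1
      rw [pair_inj] at h2
      obtain ⟨rfl, rfl⟩ := h2
      rw [vl_chk F]
      exact ⟨hp', hp⟩

theorem Gext.trans {x z : ZFSet.{0}} (hx : x ∈ Gext M G) (hz : z ∈ x) : z ∈ Gext M G := by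
  obtain ⟨τ, hτ, rfl⟩ := hx
  obtain ⟨σ, p, _, h1, rfl⟩ := mem_vl.1 hz
  exact ⟨σ, (F.inner.pair_mem_iff.1 (F.inner.trans _ hτ _ h1)).1, rfl⟩

variable (hE : FR M P le G (fun q : ZFSet.{0} × ZFSet.{0} => vl G q.1 = vl G q.2))
include hE

theorem FR.vlEq {f g : α → ZFSet.{0}} (hf : AmF M f) (hg : AmF M g) :
    FR M P le G (fun x => vl G (f x) = vl G (g x)) :=
  FR.comp F (f := fun x => (f x, g x)) hE (hf.prod F.inner hg)

theorem FR.vlMem {f g : α → ZFSet.{0}} (hf : AmF M f) (hg : AmF M g) :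
    FR M P le G (fun x => vl G (f x) ∈ vl G (g x)) := by
  have h := F.inner
  have h1 : FR M P le G (fun x => ∃ σ : ZFSet.{0}, code σ ∈ M ∧ ∃ p : ZFSet.{0}, code p ∈ M ∧
      p ∈ G ∧ ZFSet.pair σ p ∈ g x ∧ vl G (f x) = vl G σ) := by
    refine FR.ex F (R := fun x (σ : ZFSet.{0}) => ∃ p : ZFSet.{0}, code p ∈ M ∧
      p ∈ G ∧ ZFSet.pair σ p ∈ g x ∧ vl G (f x) = vl G σ) (FR.ex F
        (R := fun (q : α × ZFSet.{0}) (p : ZFSet.{0}) => p ∈ G ∧
          ZFSet.pair q.2 p ∈ g q.1 ∧ vl G (f q.1) = vl G q.2) (FR.and F ?_ (FR.and F ?_ ?_)))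
    · exact FR.comp F (f := fun q : (α × ZFSet.{0}) × ZFSet.{0} => q.2) (FR.gen F) (AmF.snd h)
    · exact FR.ofAm F (Am.mem h (((AmF.snd h).comp h (AmF.fst h)).pair h (AmF.snd h))
        (hg.comp h ((AmF.fst h).comp h (AmF.fst h))))
    · exact FR.vlEq F hE (hf.comp h ((AmF.fst h).comp h (AmF.fst h)))
        ((AmF.snd h).comp h (AmF.fst h))
  refine h1.congr fun x hx => ?_
  rw [mem_vl]
  constructor
  · rintro ⟨σ, p, hp, h2, h3⟩
    have h4 := h.pair_mem_iff.1 (h.trans _ (hg.mem x hx) _ h2)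
    exact ⟨σ, h4.1, p, h4.2, hp, h2, h3⟩
  · rintro ⟨σ, _, p, _, hp, h2, h3⟩
    exact ⟨σ, p, hp, h2, h3⟩

/-- The satisfaction relation of a set with a transitive set of names is forceable. -/
theorem FR.sat {u₀ : ZFSet.{0}} (hu : u₀ ∈ M) {u : Set ZFSet.{0}}
    (hu' : ∀ z, z ∈ u ↔ ∃ σ ∈ u₀, z = vl G σ) (φ : Fml) :
    FR M P le G (fun l : List ZFSet.{0} => Sat u φ (fun i => vl G (l.getD i ∅))) := by
  have h := F.inner
  have vg : ∀ i, AmF M (fun l : List ZFSet.{0} => l.getD i ∅) := fun i =>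
    AmF.getD h (AmF.id h) (AmF.const h i (AbsCod.mem h i)) (AmF.empty h)
  induction φ with
  | mem i j => exact FR.vlMem F hE (vg i) (vg j)
  | eq i j => exact FR.vlEq F hE (vg i) (vg j)
  | nand φ ψ ih1 ih2 => exact FR.not F (FR.and F ih1 ih2)
  | all φ ih =>
    have h1 : FR M P le G (fun l : List ZFSet.{0} => ∀ σ : ZFSet.{0}, code σ ∈ M → σ ∈ u₀ →
        Sat u φ (fun i => vl G ((σ :: l).getD i ∅))) := by
      refine FR.all F (R := fun (l : List ZFSet.{0}) (σ : ZFSet.{0}) => σ ∈ u₀ →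
        Sat u φ (fun i => vl G ((σ :: l).getD i ∅))) (FR.imp F ?_ ?_)
      · exact FR.ofAm F (Am.mem h (AmF.snd h) (AmF.const h u₀ hu))
      · exact FR.comp F (f := fun q : List ZFSet.{0} × ZFSet.{0} => q.2 :: q.1) ih
          (AmF.lcons h (AmF.snd h) (AmF.fst h))
    refine h1.congr fun l _ => ?_
    rw [sat_all]
    have h2 : ∀ σ : ZFSet.{0}, cons (vl G σ) (fun i => vl G (l.getD i ∅)) =
        fun i => vl G ((σ :: l).getD i ∅) := by
      intro σ
      funext i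
      cases i <;> rfl
    constructor
    · intro h3 σ _ hσ
      rw [← h2]
      exact h3 _ ((hu' _).2 ⟨σ, hσ, rfl⟩)
    · intro h3 z hz
      obtain ⟨σ, hσ, rfl⟩ := (hu' z).1 hz
      rw [h2]
      exact h3 σ (h.trans _ hu _ hσ) hσ

/-- Generic extensions are inner models. -/
theorem Forc.gext_inner : IsInner (Gext M G) where
  trans x hx z hz := Gext.trans F hx hz
  cof s hs := by
    have h := F.inner
    choose! nm hnm hnm' using hs
    -- a transitive set of names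
    have hb : ∀ τ ∈ img nm s, τ ∈ M := by
      intro τ hτ
      obtain ⟨z, hz, rfl⟩ := mem_img.1 hτ
      exact hnm z hz
    obtain ⟨u₀, hu₀, hu₀t, hbu, _⟩ := h.cof (img nm s) hb
    have hpr : ZFSet.prod u₀ P ∈ M := h.prod_mem hu₀ F.mem
    have hu : ∀ z, z ∈ vl G (ZFSet.prod u₀ P) ↔ ∃ σ ∈ u₀, z = vl G σ := by
      intro z
      rw [mem_vl]
      constructor
      · rintro ⟨σ, p, _, h1, rfl⟩
        exact ⟨σ, (pair_mem_prod.1 h1).1, rfl⟩
      · rintro ⟨σ, hσ, rfl⟩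
        obtain ⟨p, hp⟩ := F.nonempty
        exact ⟨σ, p, hp, pair_mem_prod.2 ⟨hσ, F.sub p hp⟩, rfl⟩
    refine ⟨vl G (ZFSet.prod u₀ P), ⟨_, hpr, rfl⟩, ?_, ?_, ?_⟩
    · intro x hx z hz
      obtain ⟨σ, hσ, rfl⟩ := (hu x).1 hx
      obtain ⟨π, p, _, h1, rfl⟩ := mem_vl.1 hz
      refine (hu _).2 ⟨π, ?_, rfl⟩
      have h2 : ZFSet.pair π p ∈ u₀ := hu₀t.mem_trans h1 hσ
      have h3 : ({π} : ZFSet.{0}) ∈ u₀ := by
        refine hu₀t.mem_trans (y := ZFSet.pair π p) ?_ h2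
        rw [ZFSet.pair]
        simp
      exact hu₀t.mem_trans (by simp) h3
    · intro z hz
      rw [hu]
      exact ⟨nm z, hbu (mem_img.2 ⟨z, hz, rfl⟩), hnm' z hz⟩
    · intro d hd
      obtain ⟨φ, v, hv, hd⟩ := hd
      obtain ⟨k, hk⟩ := sat_fin φ
      have hw : ∀ i, ∃ σ ∈ u₀, v i = vl G σ := fun i => (hu _).1 (hv i)
      choose w hw1 hw2 using hw
      obtain ⟨D, hD, hdown, htruth⟩ := FR.sat F hE hu₀
        (u := (vl G (ZFSet.prod u₀ P) : Set ZFSet.{0})) (fun z => hu z) φ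
      -- the parameters
      have hl : code ((List.range k).map w) ∈ M := by
        rw [code_mem_list h]
        intro a ha
        obtain ⟨i, _, rfl⟩ := List.mem_map.1 ha
        exact h.trans _ hu₀ _ (hw1 i)
      have hs : ∀ σ, (Sat (vl G (ZFSet.prod u₀ P) : Set ZFSet.{0}) φ (cons (vl G σ) v) ↔
          Sat (vl G (ZFSet.prod u₀ P) : Set ZFSet.{0}) φ
            (fun i => vl G ((σ :: (List.range k).map w).getD i ∅))) := by
        intro σ
        refine hk _ _ _ fun i hi => ?_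
        cases i with
        | zero => rfl
        | succ i =>
          show v i = vl G (((List.range k).map w).getD i ∅)
          rw [List.getD_eq_getElem _ _ (by simp; omega)]
          simp [hw2 i]
      have hAm : Am M (fun q : ZFSet.{0} × ZFSet.{0} => D (q.1 :: (List.range k).map w) q.2) :=
        hD.comp h (f := fun q : ZFSet.{0} × ZFSet.{0} => (q.1 :: (List.range k).map w, q.2))
          ((AmF.lcons h (AmF.fst h) (AmF.const h _ hl)).prod h (AmF.snd h))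
      obtain ⟨δ, hδ⟩ : ∃ δ, δ = ZFSet.sep (fun t => ∃ σ ∈ u₀, ∃ p ∈ P, t = ZFSet.pair σ p ∧
          D (σ :: (List.range k).map w) p) (ZFSet.prod u₀ P) := ⟨_, rfl⟩
      have hδM : δ ∈ M := by
        rw [hδ]
        refine (AmF.sep h (g := fun _ : ZFSet.{0} => ZFSet.prod u₀ P) (AmF.const h _ hpr)
          (R := fun _ t => ∃ σ ∈ u₀, ∃ p ∈ P, t = ZFSet.pair σ p ∧
            D (σ :: (List.range k).map w) p) ?_).mem ∅ h.empty_mem
        refine Am.bex h (f := fun _ : ZFSet.{0} × ZFSet.{0} => u₀) (AmF.const h _ hu₀)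
          (R := fun (q : ZFSet.{0} × ZFSet.{0}) σ => ∃ p ∈ P, q.2 = ZFSet.pair σ p ∧
            D (σ :: (List.range k).map w) p) ?_
        refine Am.bex h (f := fun _ : (ZFSet.{0} × ZFSet.{0}) × ZFSet.{0} => P)
          (AmF.const h _ F.mem)
          (R := fun (q : (ZFSet.{0} × ZFSet.{0}) × ZFSet.{0}) p => q.1.2 = ZFSet.pair q.2 p ∧
            D (q.2 :: (List.range k).map w) p) (Am.and h ?_ ?_)
        · exact Am.eq h ((AmF.snd h).comp h ((AmF.fst h).comp h (AmF.fst h)))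
            (((AmF.snd h).comp h (AmF.fst h)).pair h (AmF.snd h))
        · exact hAm.comp h (f := fun q : ((ZFSet.{0} × ZFSet.{0}) × ZFSet.{0}) × ZFSet.{0} =>
            (q.1.2, q.2)) (((AmF.snd h).comp h (AmF.fst h)).prod h (AmF.snd h))
      refine ⟨δ, hδM, ?_⟩
      ext z
      constructor
      · intro hz'
        obtain ⟨hz, hsat⟩ := (hd z).1 hz'
        obtain ⟨σ, hσ, rfl⟩ := (hu z).1 hz
        rw [hs] at hsat
        have hc : code (σ :: (List.range k).map w) ∈ M :=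
          (code_mem_cons h).2 ⟨h.trans _ hu₀ _ hσ, hl⟩
        obtain ⟨p, hp, h1⟩ := (htruth _ hc).1 hsat
        refine mem_vl.2 ⟨σ, p, hp, ?_, rfl⟩
        rw [hδ, mem_sep]
        exact ⟨pair_mem_prod.2 ⟨hσ, F.sub p hp⟩, σ, hσ, p, F.sub p hp, rfl, h1⟩
      · intro hz'
        obtain ⟨σ, p, hp, h1, rfl⟩ := mem_vl.1 hz'
        rw [hδ, mem_sep] at h1
        obtain ⟨_, σ', hσ', p', hp', h2, h3⟩ := h1
        rw [pair_inj] at h2
        obtain ⟨rfl, rfl⟩ := h2
        refine (hd _).2 ⟨(hu _).2 ⟨σ, hσ', rfl⟩, ?_⟩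
        rw [hs]
        exact (htruth _ ((code_mem_cons h).2 ⟨h.trans _ hu₀ _ hσ', hl⟩)).2 ⟨p, hp, h3⟩

/-- Names for reals in the generic extension. -/
theorem Forc.real_name {z : Set ℕ} (hz : rl z ∈ Gext M G) :
    ∃ D : Bool → ℕ → ZFSet.{0} → Prop,
      (∀ e, Am M (fun q : ℕ × ZFSet.{0} => D e q.1 q.2)) ∧
      (∀ n, ∀ p ∈ P, ∃ q ∈ P, le q p ∧ (D true n q ∨ D false n q)) ∧
      (∀ n, n ∈ z ↔ ∃ p ∈ G, D true n p) ∧ (∀ n, n ∉ z ↔ ∃ p ∈ G, D false n p) := by
  have h := F.inner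
  obtain ⟨τ, hτ, he⟩ := hz
  have h1 : FR M P le G (fun n : ℕ => n ∈ z) := by
    refine (FR.vlMem F hE (f := fun n : ℕ => CL.chk P (nat n)) (g := fun _ => τ)
      (AmF.chk F ((AmF.code (α := ℕ) h))) (AmF.const h τ hτ)).congr fun n _ => ?_
    rw [vl_chk F, ← he, nat_mem_rl]
  obtain ⟨D, hD, hdown, htruth⟩ := h1
  have ham : Am M (fun q : ℕ × ZFSet.{0} => ∀ r ∈ P, le r q.2 → ¬ D q.1 r) := by
    refine Am.ball h (f := fun _ : ℕ × ZFSet.{0} => P) (AmF.const h P F.mem)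
      (R := fun (q : ℕ × ZFSet.{0}) r => le r q.2 → ¬ D q.1 r) (Am.imp h ?_ (Am.not h ?_))
    · exact F.am.comp h (f := fun q : (ℕ × ZFSet.{0}) × ZFSet.{0} => (q.2, q.1.2))
        ((AmF.snd h).prod h ((AmF.snd h).comp h (AmF.fst h)))
    · exact hD.comp h (f := fun q : (ℕ × ZFSet.{0}) × ZFSet.{0} => (q.1.1, q.2))
        (((AmF.fst h).comp h (AmF.fst h)).prod h (AmF.snd h))
  refine ⟨fun e n p => match e with
    | true => D n p
    | false => ∀ r ∈ P, le r p → ¬ D n r, ?_, ?_, ?_, ?_⟩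
  · rintro (_ | _)
    · exact ham
    · exact hD
  · intro n p hp
    by_cases h2 : ∃ r ∈ P, le r p ∧ D n r
    · obtain ⟨r, hr, hrp, hDr⟩ := h2
      exact ⟨r, hr, hrp, Or.inl hDr⟩
    · push Not at h2
      exact ⟨p, hp, F.refl p hp, Or.inr h2⟩
  · intro n
    exact htruth n (AbsCod.mem h n)
  · intro n
    constructor
    · intro hn
      have hE' : ZFSet.sep (fun p => D n p ∨ ∀ r ∈ P, le r p → ¬ D n r) P ∈ M := by
        have h3 : Am M (fun p : ZFSet.{0} => D n p ∨ ∀ r ∈ P, le r p → ¬ D n r) := by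
          have hx' : AmF M (fun p : ZFSet.{0} => (n, p)) :=
            (AmF.const h n (AbsCod.mem h n)).prod h (AmF.id h)
          exact Am.or h (hD.comp h hx') (ham.comp h hx')
        exact (AmF.sep h (g := fun _ : ZFSet.{0} => P) (AmF.const h P F.mem)
          (R := fun _ p => D n p ∨ ∀ r ∈ P, le r p → ¬ D n r) (h3.comp h (AmF.snd h))).mem ∅
            h.empty_mem
      obtain ⟨p, hp, hpE⟩ := F.meets _ hE' sep_subset (fun p hp => by
        by_cases h1 : ∃ r ∈ P, le r p ∧ D n r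
        · obtain ⟨r, hr, hrp, hDr⟩ := h1
          exact ⟨r, mem_sep.2 ⟨hr, Or.inl hDr⟩, hrp⟩
        · push Not at h1
          exact ⟨p, mem_sep.2 ⟨hp, Or.inr h1⟩, F.refl p hp⟩)
      rw [mem_sep] at hpE
      rcases hpE.2 with h2 | h2
      · exact absurd ((htruth n (AbsCod.mem h n)).2 ⟨p, hp, h2⟩) hn
      · exact ⟨p, hp, h2⟩
    · rintro ⟨p, hp, h1⟩ hR
      obtain ⟨q, hq, h2⟩ := (htruth n (AbsCod.mem h n)).1 hR
      obtain ⟨r, hr, hrp, hrq⟩ := F.dir p hp q hq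
      exact h1 r (F.sub r hr) hrp (hdown n (AbsCod.mem h n) q (F.sub q hq) r (F.sub r hr) hrq h2)

end

end Pool.Agent.Helper17.CL
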