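import Pool.Agent.Helper17.CL.Enum
import Pool.Agent.Helper17.CL.Collapse

/-!
# Project CL: countable hulls; the reals of `L[y]` appear at levels which are countable in `L[y]`
-/

set_option autoImplicit false

namespace Pool.Agent.Helper17.CL

open ZFSet

universe u₁

/-- Lists of numbers. -/
def idx : ℕ → List ℕ
  | 0 => []
  | m + 1 => m.unpair.1 :: idx m.unpair.2
termination_by n => n
decreasing_by exact Nat.lt_succ_of_le (Nat.unpair_right_le m)

theorem idx_zero : idx 0 = [] := by rw [idx]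

theorem idx_succ (m : ℕ) : idx (m + 1) = m.unpair.1 :: idx m.unpair.2 := by rw [idx]

theorem idx_surj (js : List ℕ) : ∃ m, idx m = js ∧ ∀ j ∈ js, j < m := by
  induction js with
  | nil => exact ⟨0, idx_zero, by simp⟩
  | cons j js ih =>
    obtain ⟨m, hm, hlt⟩ := ih
    refine ⟨Nat.pair j m + 1, ?_, ?_⟩
    · rw [idx_succ, Nat.unpair_pair, hm]
    · intro i hi
      have h1 := Nat.left_le_pair j m
      have h2 := Nat.right_le_pair j m
      rcases List.mem_cons.1 hi with rfl | hi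
      · omega
      · have := hlt i hi
        omega

section

variable {M : Set ZFSet.{0}} (h : IsInner M)
variable {α : Type u₁} [Cod α]

include h

theorem AmF.idx {f : α → ℕ} (hf : AmF M f) : AmF M (fun x => CL.idx (f x)) := by
  have h1 : AmF M (fun q : ℕ × ℕ => CL.idx q.2) := by
    refine AmF.rec_nat' h (F := fun (_ : ℕ) n => CL.idx n)
      (H := fun (_ : ℕ) (n : ℕ) (L : List (List ℕ)) => if n = 0 then [] else
        (n - 1).unpair.1 :: L.getD (n - 1).unpair.2 []) ?_ ?_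
    · have vn : AmF M (fun q : ℕ × ℕ × List (List ℕ) => q.2.1) :=
        (AmF.fst h).comp h (AmF.snd h)
      have vL : AmF M (fun q : ℕ × ℕ × List (List ℕ) => q.2.2) :=
        (AmF.snd h).comp h (AmF.snd h)
      have vu : AmF M (fun q : ℕ × ℕ × List (List ℕ) => (q.2.1 - 1).unpair) :=
        AmF.natUnpair h (AmF.natSub h vn (AmF.const h 1 (AbsCod.mem h 1)))
      refine AmF.ite h (R := fun q : ℕ × ℕ × List (List ℕ) => q.2.1 = 0)
        (Am.eq h vn (AmF.const h 0 (AbsCod.mem h 0))) (AmF.nil h) ?_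
      exact AmF.lcons h ((AmF.fst h).comp h vu) (AmF.getD h vL ((AmF.snd h).comp h vu)
        (AmF.nil h))
    · intro _ n
      cases n with
      | zero =>
        rw [if_pos rfl, idx_zero]
      | succ m =>
        rw [if_neg (Nat.succ_ne_zero m), idx_succ]
        congr 1
        rw [Nat.add_sub_cancel, List.getD_eq_getElem _ _ (by
          simpa using Nat.lt_succ_of_le (Nat.unpair_right_le m))]
        simp
  exact h1.comp h (f := fun x => (0, f x)) ((AmF.const h 0 (AbsCod.mem h 0)).prod h hf)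

theorem Am.allMem {l : α → List ZFSet.{0}} {f : α → ZFSet.{0}} (hl : AmF M l) (hf : AmF M f) :
    Am M (fun x => ∀ a ∈ l x, a ∈ f x) := by
  refine (Am.mem h (f := fun x => Cod.code (l x)) (g := fun x => CL.lists (f x))
      ((AmF.code h).comp h hl) (AmF.lists h hf)).congr h fun y _ => ?_
  rw [mem_lists]
  constructor
  · exact fun h1 => ⟨l y, h1, rfl⟩
  · rintro ⟨l', hl, he⟩
    rw [Cod.inj he]
    exact hl

theorem AmF.dd {f : α → Set ℕ} {b : α → Ordinal.{0}} {n : α → ℕ} {L : α → List ZFSet.{0}}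
    (hf : AmF M f) (hb : AmF M b) (hn : AmF M n) (hL : AmF M L) :
    AmF M (fun x => DD (f x) (b x) (n x) (L x)) :=
  AmF.defS h (f := fun x => LL (f x) (b x)) (g := fun x => (L x).headD ∅) (k := n)
    (l := fun x => (L x).tail) (AmF.ll h hf hb) (AmF.headD h hL (AmF.empty h)) hn
    (AmF.tail h hL)

end

/-! ### The Skolem functions -/

/-- The first element of `c`. -/
noncomputable def chz (y : Set ℕ) (c : ZFSet.{0}) : ZFSet.{0} := EE y (sInf {o | EE y o ∈ c})

theorem chz_mem {y : Set ℕ} {c : ZFSet.{0}} (hc : ∃ z ∈ Lc y, z ∈ c) : chz y c ∈ c := by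
  have h : {o | EE y o ∈ c}.Nonempty := by
    obtain ⟨z, hz, hzc⟩ := hc
    obtain ⟨o, rfl⟩ := ee_surj y hz
    exact ⟨o, hzc⟩
  exact csInf_mem h

/-- The first level over which `z` is definable. -/
noncomputable def lev (y : Set ℕ) (z : ZFSet.{0}) : Ordinal.{0} := sInf {b | IsDef (LL y b) z}

/-- The witnesses. -/
def Wit (y : Set ℕ) (z : ZFSet.{0}) (q : ℕ × List ZFSet.{0}) : Prop :=
  ¬ q.2 = [] ∧ (∀ a ∈ q.2, a ∈ LL y (lev y z)) ∧ z = DD y (lev y z) q.1 q.2

/-- The chosen witnesses. -/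
noncomputable def wit (y : Set ℕ) (z : ZFSet.{0}) : ℕ × List ZFSet.{0} :=
  chf y (Wit y) (0, []) z

theorem wit_spec {y : Set ℕ} {z : ZFSet.{0}} (hz : ∃ b, IsDef (LL y b) z) :
    Wit y z (wit y z) := by
  have h1 : IsDef (LL y (lev y z)) z := csInf_mem (s := {b | IsDef (LL y b) z}) hz
  obtain ⟨n, d, l, hL, he⟩ := isDef_iff_dd.1 h1
  have hi := lc_inner y
  refine (chf_spec (y := y) (R := Wit y) (b₀ := (0, [])) (a := z)
    ⟨(n, d :: l), ?_, ?_, hL, he⟩).1
  · rw [code_mem_prod hi]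
    refine ⟨AbsCod.mem hi n, ?_⟩
    rw [code_mem_list hi]
    exact fun a ha => ⟨lev y z, hL a ha⟩
  · simp

/-- The Skolem functions. -/
noncomputable def sk (y : Set ℕ) (p₁ p₂ : ZFSet.{0}) (i : ℕ) (L : List ZFSet.{0}) : ZFSet.{0} :=
  if i % 8 = 0 then nat (i / 8) else if i % 8 = 1 then rl y else if i % 8 = 2 then p₁ else
    if i % 8 = 3 then p₂ else if i % 8 = 4 then DD y (ordOf (L.headD ∅)) (i / 8) L.tail else
      if i % 8 = 5 then chz y (DD y (ordOf (L.headD ∅)) (i / 8) L.tail) else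
        if i % 8 = 6 then (lev y (L.headD ∅)).toZFSet else (wit y (L.headD ∅)).2.getD (i / 8) ∅

theorem amF_sk (y : Set ℕ) {p₁ p₂ : ZFSet.{0}} (h₁ : p₁ ∈ Lc y) (h₂ : p₂ ∈ Lc y) :
    AmF (Lc y) (fun q : ℕ × List ZFSet.{0} => sk y p₁ p₂ q.1 q.2) := by
  have h := lc_inner y
  have hy : code y ∈ Lc y := rl_mem_lc
  let C := ℕ × List ZFSet.{0}
  have vi : AmF (Lc y) (fun q : C => q.1) := AmF.fst h
  have vL : AmF (Lc y) (fun q : C => q.2) := AmF.snd h
  have vm : AmF (Lc y) (fun q : C => q.1 % 8) :=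
    AmF.primrec h (f := fun n => n % 8) (Primrec.nat_mod.comp Primrec.id
      (Primrec.const 8)) vi
  have vq : AmF (Lc y) (fun q : C => q.1 / 8) :=
    AmF.primrec h (f := fun n => n / 8) (Primrec.nat_div.comp Primrec.id
      (Primrec.const 8)) vi
  have vk : ∀ k : ℕ, Am (Lc y) (fun q : C => q.1 % 8 = k) := fun k =>
    Am.eq h vm (AmF.const h k (AbsCod.mem h k))
  have vh : AmF (Lc y) (fun q : C => q.2.headD ∅) := AmF.headD h vL (AmF.empty h)
  have vd : AmF (Lc y) (fun q : C => DD y (ordOf (q.2.headD ∅)) (q.1 / 8) q.2.tail) :=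
    AmF.dd h (f := fun _ : C => y) (AmF.const h y hy) (AmF.ordOf h vh) vq (AmF.tail h vL)
  have hlev : AmF (Lc y) (fun z : ZFSet.{0} => lev y z) := by
    unfold lev
    exact AmF.least h (R := fun (z : ZFSet.{0}) b => IsDef (LL y b) z)
      (Am.isDef h (AmF.ll h (AmF.const h y hy) (AmF.snd h)) (AmF.fst h))
  have hchz : AmF (Lc y) (fun c : ZFSet.{0} => chz y c) := by
    unfold chz
    exact AmF.ee h (AmF.const h y hy) (AmF.least h (R := fun (c : ZFSet.{0}) o => EE y o ∈ c)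
      (Am.mem h (AmF.ee h (AmF.const h y hy) (AmF.snd h)) (AmF.fst h)))
  have hwit : AmF (Lc y) (fun z : ZFSet.{0} => wit y z) := by
    refine amF_chf (R := Wit y) (b₀ := (0, [])) ?_ ?_
    · unfold Wit
      have v1 : AmF (Lc y) (fun q : ZFSet.{0} × ℕ × List ZFSet.{0} => q.1) := AmF.fst h
      have v2 : AmF (Lc y) (fun q : ZFSet.{0} × ℕ × List ZFSet.{0} => q.2.2) :=
        (AmF.snd h).comp h (AmF.snd h)
      have v3 : AmF (Lc y) (fun q : ZFSet.{0} × ℕ × List ZFSet.{0} => q.2.1) :=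
        (AmF.fst h).comp h (AmF.snd h)
      have v4 : AmF (Lc y) (fun q : ZFSet.{0} × ℕ × List ZFSet.{0} => lev y q.1) :=
        hlev.comp h v1
      refine Am.and h (Am.not h (Am.eq h v2 (AmF.nil h))) (Am.and h (Am.allMem h v2
        (AmF.ll h (AmF.const h y hy) v4)) (Am.eq h v1 (AmF.dd h (AmF.const h y hy) v4 v3 v2)))
    · rw [code_mem_prod h]
      exact ⟨AbsCod.mem h 0, h.empty_mem⟩
  unfold sk
  refine AmF.ite h (vk 0) ((AmF.code h).comp h vq) (AmF.ite h (vk 1)
    ((AmF.code h).comp h (AmF.const h y hy)) (AmF.ite h (vk 2) (AmF.const h p₁ h₁)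
      (AmF.ite h (vk 3) (AmF.const h p₂ h₂) (AmF.ite h (vk 4) vd (AmF.ite h (vk 5)
        (hchz.comp h vd) (AmF.ite h (vk 6) ((AmF.code h).comp h (hlev.comp h vh)) ?_))))))
  exact AmF.getD h ((AmF.snd h).comp h (hwit.comp h vh)) vq (AmF.empty h)

/-- The list of the first elements of the hull. -/
noncomputable def hulT (y : Set ℕ) (p₁ p₂ : ZFSet.{0}) : ℕ → List ZFSet.{0}
  | 0 => []
  | n + 1 => hulT y p₁ p₂ n ++ [sk y p₁ p₂ n.unpair.1
      ((idx n.unpair.2).map (fun j => (hulT y p₁ p₂ n).getD j ∅))]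

/-- The enumeration of the hull. -/
noncomputable def hulF (y : Set ℕ) (p₁ p₂ : ZFSet.{0}) (n : ℕ) : ZFSet.{0} :=
  sk y p₁ p₂ n.unpair.1 ((idx n.unpair.2).map (fun j => (hulT y p₁ p₂ n).getD j ∅))

theorem hulT_eq (y : Set ℕ) (p₁ p₂ : ZFSet.{0}) (n : ℕ) :
    hulT y p₁ p₂ n = (List.range n).map (hulF y p₁ p₂) := by
  induction n with
  | zero => rfl
  | succ n ih =>
    rw [List.range_succ, List.map_append, ← ih]
    rfl

theorem hulF_surj (y : Set ℕ) (p₁ p₂ : ZFSet.{0}) (i : ℕ) (L : List ZFSet.{0})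
    (hL : ∀ a ∈ L, a ∈ Set.range (hulF y p₁ p₂)) :
    sk y p₁ p₂ i L ∈ Set.range (hulF y p₁ p₂) := by
  have h1 : ∃ js : List ℕ, js.map (hulF y p₁ p₂) = L := by
    induction L with
    | nil => exact ⟨[], rfl⟩
    | cons a L ih =>
      obtain ⟨js, hjs⟩ := ih fun b hb => hL b (List.mem_cons_of_mem _ hb)
      obtain ⟨j, hj⟩ := hL a List.mem_cons_self
      exact ⟨j :: js, by rw [List.map_cons, hjs, hj]⟩
  obtain ⟨js, rfl⟩ := h1
  obtain ⟨m, hm, hlt⟩ := idx_surj js
  refine ⟨Nat.pair i m, ?_⟩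
  unfold hulF
  rw [Nat.unpair_pair, hm]
  congr 1
  refine List.map_congr_left fun j hj => ?_
  have h2 : j < Nat.pair i m := lt_of_lt_of_le (hlt j hj) (Nat.right_le_pair i m)
  rw [hulT_eq, List.getD_eq_getElem _ _ (by simpa using h2)]
  simp
  rfl

theorem amF_hulF (y : Set ℕ) {p₁ p₂ : ZFSet.{0}} (h₁ : p₁ ∈ Lc y) (h₂ : p₂ ∈ Lc y) :
    AmF (Lc y) (hulF y p₁ p₂) := by
  have h := lc_inner y
  have hk : AmF (Lc y) (fun q : ℕ × List ZFSet.{0} => sk y p₁ p₂ q.1.unpair.1
      ((idx q.1.unpair.2).map (fun j => q.2.getD j ∅))) := by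
    have vu : AmF (Lc y) (fun q : ℕ × List ZFSet.{0} => q.1.unpair) :=
      AmF.natUnpair h (AmF.fst h)
    refine (amF_sk y h₁ h₂).comp h (f := fun q : ℕ × List ZFSet.{0} => (q.1.unpair.1,
      (idx q.1.unpair.2).map (fun j => q.2.getD j ∅))) (((AmF.fst h).comp h vu).prod h ?_)
    exact AmF.listMap h (k := fun (q : ℕ × List ZFSet.{0}) (j : ℕ) => q.2.getD j ∅)
      (AmF.getD h ((AmF.snd h).comp h (AmF.fst h)) (AmF.snd h) (AmF.empty h))
      (AmF.idx h ((AmF.snd h).comp h vu))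
  have hT : AmF (Lc y) (fun q : ℕ × ℕ => hulT y p₁ p₂ q.2) := by
    refine AmF.rec_nat h (F := fun (_ : ℕ) n => hulT y p₁ p₂ n)
      (G := fun _ => ([] : List ZFSet.{0})) (H := fun (_ : ℕ) (n : ℕ) (L : List ZFSet.{0}) =>
        L ++ [sk y p₁ p₂ n.unpair.1 ((idx n.unpair.2).map (fun j => L.getD j ∅))])
      (AmF.nil h) ?_ (fun _ => rfl) (fun _ _ => rfl)
    exact AmF.append h ((AmF.snd h).comp h (AmF.snd h)) (AmF.lcons h
      (hk.comp h (f := fun q : ℕ × ℕ × List ZFSet.{0} => q.2) (AmF.snd h)) (AmF.nil h))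
  exact hk.comp h (f := fun n : ℕ => (n, hulT y p₁ p₂ n)) ((AmF.id h).prod h
    (hT.comp h (f := fun n : ℕ => (0, n)) ((AmF.const h 0 (AbsCod.mem h 0)).prod h (AmF.id h))))

theorem hul_hulF (y : Set ℕ) (p₁ p₂ : ZFSet.{0}) : Hul y (Set.range (hulF y p₁ p₂)) where
  nat n := by
    have h1 := hulF_surj y p₁ p₂ (8 * n) [] (by simp)
    have e1 : 8 * n % 8 = 0 := by omega
    have e2 : 8 * n / 8 = n := by omega
    unfold sk at h1
    rwa [if_pos e1, e2] at h1
  base := by
    have h1 := hulF_surj y p₁ p₂ 1 [] (by simp)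
    unfold sk at h1
    rwa [if_neg (by norm_num), if_pos (by norm_num)] at h1
  dd b n d l hb hX hL := by
    have h1 := hulF_surj y p₁ p₂ (8 * n + 4) (b.toZFSet :: d :: l) (by
      intro a ha
      rcases List.mem_cons.1 ha with rfl | ha
      · exact hb
      · exact hX a ha)
    unfold sk at h1
    rw [if_neg (by omega), if_neg (by omega), if_neg (by omega), if_neg (by omega),
      if_pos (by omega), List.headD_cons, ordOf_toZFSet, List.tail_cons] at h1
    have e2 : (8 * n + 4) / 8 = n := by omega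
    rwa [e2] at h1
  ch b n d l hb hX hL hz := by
    have h1 := hulF_surj y p₁ p₂ (8 * n + 5) (b.toZFSet :: d :: l) (by
      intro a ha
      rcases List.mem_cons.1 ha with rfl | ha
      · exact hb
      · exact hX a ha)
    unfold sk at h1
    rw [if_neg (by omega), if_neg (by omega), if_neg (by omega), if_neg (by omega),
      if_neg (by omega), if_pos (by omega), List.headD_cons, ordOf_toZFSet,
      List.tail_cons] at h1
    have e2 : (8 * n + 5) / 8 = n := by omega
    rw [e2] at h1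
    refine ⟨_, h1, chz_mem ?_⟩
    obtain ⟨z, hz⟩ := hz
    exact ⟨z, ⟨b, ((mem_dd hL).1 hz).1⟩, hz⟩
  wit z hz a ha := by
    by_cases h0 : z ∈ LL y 0
    · exact Or.inl h0
    right
    have h1 : ∃ b < a, IsDef (LL y b) z := by
      rcases mem_ll.1 ha with h1 | h1
      · exact absurd (mem_ll.2 (Or.inl h1)) h0
      · exact h1
    obtain ⟨b, hb, hd⟩ := h1
    have hle : lev y z ≤ b := csInf_le' (show b ∈ {b | IsDef (LL y b) z} from hd)
    obtain ⟨w1, w2, w3⟩ := wit_spec ⟨b, hd⟩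
    have hzl : ∀ c ∈ [z], c ∈ Set.range (hulF y p₁ p₂) := by
      intro c hc
      rw [List.mem_singleton] at hc
      rw [hc]
      exact hz
    refine ⟨lev y z, lt_of_le_of_lt hle hb, ?_, ?_⟩
    · have h2 := hulF_surj y p₁ p₂ 6 [z] hzl
      unfold sk at h2
      rwa [if_neg (by norm_num), if_neg (by norm_num), if_neg (by norm_num), if_neg (by norm_num),
        if_neg (by norm_num), if_neg (by norm_num), if_pos (by norm_num)] at h2
    · have h3 : ∀ c ∈ (CL.wit y z).2, c ∈ Set.range (hulF y p₁ p₂) := by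
        intro c hc
        obtain ⟨i, hi, rfl⟩ := List.mem_iff_getElem.1 hc
        have h2 := hulF_surj y p₁ p₂ (8 * i + 7) [z] hzl
        unfold sk at h2
        rw [if_neg (by omega), if_neg (by omega), if_neg (by omega), if_neg (by omega),
          if_neg (by omega), if_neg (by omega), if_neg (by omega)] at h2
        have e2 : (8 * i + 7) / 8 = i := by omega
        rw [e2, List.headD_cons, List.getD_eq_getElem _ _ hi] at h2
        exact h2
      cases hw : (CL.wit y z).2 with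
      | nil => exact absurd hw w1
      | cons d l =>
        rw [hw] at w2 w3 h3
        exact ⟨(CL.wit y z).1, d, l, h3, w2, w3⟩

/-- The collapse of a set in an inner model is amenable. -/
theorem amF_clp {M : Set ZFSet.{0}} (h : IsInner M) {x : ZFSet.{0}} (hx : x ∈ M) :
    AmF M (fun z : ZFSet.{0} => clp {w | w ∈ x} z) := by
  have h1 : AmF M (fun q : ℕ × ZFSet.{0} => clp {w | w ∈ x} q.2) := by
    refine AmF.rec_mem h (F := fun (_ : ℕ) z => clp {w | w ∈ x} z)
      (H := fun (_ : ℕ) (z g : ZFSet.{0}) => img (fun w => app g w) (z ∩ x)) ?_ ?_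
    · have vg : AmF M (fun q : ℕ × ZFSet.{0} × ZFSet.{0} => q.2.2) :=
        (AmF.snd h).comp h (AmF.snd h)
      have vz : AmF M (fun q : ℕ × ZFSet.{0} × ZFSet.{0} => q.2.1) :=
        (AmF.fst h).comp h (AmF.snd h)
      exact AmF.img h (f := fun (q : ℕ × ZFSet.{0} × ZFSet.{0}) w => app q.2.2 w)
        (AmF.inter h vz (AmF.const h x hx)) (AmF.app h (vg.comp h (AmF.fst h)) (AmF.snd h))
    · intro _ z
      ext t
      rw [mem_clp, mem_img]
      constructor
      · rintro ⟨w, hw, hwx, rfl⟩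
        exact ⟨w, mem_inter.2 ⟨hw, hwx⟩, by rw [app_gr hw]⟩
      · rintro ⟨w, hw, rfl⟩
        rw [mem_inter] at hw
        exact ⟨w, hw.1, hw.2, by rw [app_gr hw.1]⟩
  exact h1.comp h (f := fun z : ZFSet.{0} => (0, z)) ((AmF.const h 0 (AbsCod.mem h 0)).prod h
    (AmF.id h))

/-- A real in `L[y]` appears at a level which is countable in `L[y]`. -/
theorem real_level {x y : Set ℕ} (hx : ConFrom x y) : ∃ γ : Ordinal.{0}, rl x ∈ LL y γ ∧
    ∃ s : ℕ → Ordinal.{0}, AmF (Lc y) s ∧ ∀ c < γ, ∃ n, s n = c := by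
  obtain ⟨a, ha⟩ := hx
  have h := lc_inner y
  have h₁ : rl x ∈ Lc y := ⟨a, ha⟩
  have h₂ : a.toZFSet ∈ Lc y := h.ord_mem a
  have hX := hul_hulF y (rl x) a.toZFSet
  have hF := amF_hulF y h₁ h₂
  have hxX : rl x ∈ Set.range (hulF y (rl x) a.toZFSet) := by
    have h3 := hulF_surj y (rl x) a.toZFSet 2 [] (by simp)
    unfold sk at h3
    rwa [if_neg (by norm_num), if_neg (by norm_num), if_pos (by norm_num)] at h3
  have haX : a.toZFSet ∈ Set.range (hulF y (rl x) a.toZFSet) := by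
    have h3 := hulF_surj y (rl x) a.toZFSet 3 [] (by simp)
    unfold sk at h3
    rwa [if_neg (by norm_num), if_neg (by norm_num), if_neg (by norm_num),
      if_pos (by norm_num)] at h3
  refine ⟨clo (Set.range (hulF y (rl x) a.toZFSet)) a, ?_, ?_⟩
  · have h3 := (hX.clp_ll a haX).1 _ hxX ha
    rwa [hX.clp_rl] at h3
  · -- the range as a set in the model
    obtain ⟨X, hXe⟩ : ∃ X : ZFSet.{0}, X = ZFSet.range (fun n : ℕ =>
        hulF y (rl x) a.toZFSet n) := ⟨_, rfl⟩
    have hXm : ∀ z, z ∈ X ↔ z ∈ Set.range (hulF y (rl x) a.toZFSet) := by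
      intro z
      rw [hXe, mem_range]
      rfl
    have hXM : X ∈ Lc y := by
      refine h.mem_of_am (R := fun z => ∃ n : ℕ, hulF y (rl x) a.toZFSet n = z) ?_ ?_ ?_
      · intro z hz
        obtain ⟨n, rfl⟩ := (hXm z).1 hz
        exact hF.mem n (AbsCod.mem h n)
      · exact Am.exA h (R := fun (z : ZFSet.{0}) (n : ℕ) => hulF y (rl x) a.toZFSet n = z)
          (Am.eq h (hF.comp h (AmF.snd h)) (AmF.fst h))
      · intro z _
        exact hXm z
    have hXs : {w | w ∈ X} = Set.range (hulF y (rl x) a.toZFSet) := by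
      ext z
      exact hXm z
    refine ⟨fun n => clo (Set.range (hulF y (rl x) a.toZFSet))
      (ordOf (hulF y (rl x) a.toZFSet n)), ?_, ?_⟩
    · have h3 : AmF (Lc y) (fun n : ℕ => ordOf (clp {w | w ∈ X}
          (ordOf (hulF y (rl x) a.toZFSet n)).toZFSet)) :=
        AmF.ordOf h ((amF_clp h hXM).comp h ((AmF.code h).comp h (AmF.ordOf h hF)))
      rw [hXs] at h3
      refine h3.congr h fun n _ => ?_
      rw [← clo_toZFSet, ordOf_toZFSet]
    · intro c hc
      obtain ⟨b, _, hbX, rfl⟩ := lt_clo.1 hc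
      obtain ⟨n, hn⟩ := hbX
      refine ⟨n, ?_⟩
      simp only
      rw [hn, ordOf_toZFSet]

end Pool.Agent.Helper17.CL
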