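import Pool.Agent.Helper17.CL.Rec

/-!
# Project CL: the class of the sets constructible from `y` is an inner model
-/

set_option autoImplicit false

namespace Pool.Agent.Helper17.CL

open ZFSet

theorem mem_def {u x : ZFSet.{0}} : x ∈ Def u ↔ IsDef u x := by
  unfold Def
  rw [mem_sep, mem_powerset]
  constructor
  · exact fun h => h.2
  · intro h
    refine ⟨?_, h⟩
    obtain ⟨φ, v, _, h2⟩ := h
    exact fun z hz => ((h2 z).1 hz).1

theorem IsDef.subset {u x : ZFSet.{0}} (h : IsDef u x) : x ⊆ u := by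
  obtain ⟨φ, v, _, h2⟩ := h
  exact fun z hz => ((h2 z).1 hz).1

theorem isDef_self {u : ZFSet.{0}} (hu : ∃ w, w ∈ u) : IsDef u u := by
  obtain ⟨w, hw⟩ := hu
  refine ⟨.eq 0 0, fun _ => w, fun _ => hw, fun z => ?_⟩
  exact ⟨fun h => ⟨h, rfl⟩, fun h => h.1⟩

/-- The elements of a transitive set are definable subsets. -/
theorem isDef_of_mem {u x : ZFSet.{0}} (hu : u.IsTransitive) (hx : x ∈ u) : IsDef u x := by
  refine ⟨.mem 0 1, fun _ => x, fun _ => hx, fun z => ?_⟩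
  exact ⟨fun h => ⟨hu.mem_trans h hx, h⟩, fun h => h.2⟩

variable {y : Set ℕ}

theorem mem_ll {o : Ordinal.{0}} {z : ZFSet.{0}} :
    z ∈ LL y o ↔ (z = rl y ∨ z ∈ omg) ∨ ∃ a < o, IsDef (LL y a) z := by
  rw [LL, mem_union, mem_insert_iff, mem_iUnion]
  refine or_congr_right ?_
  constructor
  · rintro ⟨⟨a, ha⟩, h⟩
    exact ⟨a, ha, mem_def.1 h⟩
  · rintro ⟨a, ha, h⟩
    exact ⟨⟨a, ha⟩, mem_def.2 h⟩

theorem ll_mono {a b : Ordinal.{0}} (h : a ≤ b) : LL y a ⊆ LL y b := by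
  intro z hz
  rw [mem_ll] at hz ⊢
  refine hz.imp_right ?_
  rintro ⟨c, hc, h1⟩
  exact ⟨c, hc.trans_le h, h1⟩

theorem omg_subset_ll {o : Ordinal.{0}} : omg ⊆ LL y o := fun _ hz =>
  mem_ll.2 (Or.inl (Or.inr hz))

theorem rl_mem_ll {o : Ordinal.{0}} : rl y ∈ LL y o := mem_ll.2 (Or.inl (Or.inl rfl))

theorem ll_trans (o : Ordinal.{0}) : (LL y o).IsTransitive := by
  intro z hz w hw
  rw [mem_ll] at hz
  rcases hz with (rfl | hz) | ⟨a, ha, hz⟩
  · obtain ⟨n, _, rfl⟩ := mem_rl.1 hw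
    exact omg_subset_ll (nat_mem_omg n)
  · exact omg_subset_ll ((isOrdinal_toZFSet Ordinal.omega0).mem_trans hw hz)
  · exact ll_mono ha.le (hz.subset hw)

theorem mem_ll_of_isDef {o : Ordinal.{0}} {z : ZFSet.{0}} (h : IsDef (LL y o) z) :
    z ∈ LL y (o + 1) := mem_ll.2 (Or.inr ⟨o, by simp, h⟩)

theorem ll_mem_succ (o : Ordinal.{0}) : LL y o ∈ LL y (o + 1) :=
  mem_ll_of_isDef (isDef_self ⟨_, rl_mem_ll⟩)

theorem ll_zero : LL y 0 = insert (rl y) omg := by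
  ext z
  rw [mem_ll, mem_insert_iff]
  constructor
  · rintro (h | ⟨a, ha, _⟩)
    · exact h
    · exact absurd ha (by simp)
  · exact Or.inl

theorem ll_succ (o : Ordinal.{0}) : LL y (o + 1) = Def (LL y o) := by
  ext z
  rw [mem_def]
  constructor
  · intro hz
    rw [mem_ll] at hz
    rcases hz with hz | ⟨a, ha, hz⟩
    · exact isDef_of_mem (ll_trans o) (mem_ll.2 (Or.inl hz))
    · have ha' : a ≤ o := Order.lt_add_one_iff.1 ha
      rcases ha'.lt_or_eq with h1 | rfl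
      · exact isDef_of_mem (ll_trans o) (ll_mono (Order.add_one_le_of_lt h1) (mem_ll_of_isDef hz))
      · exact hz
  · exact mem_ll_of_isDef

theorem ll_limit {o : Ordinal.{0}} (ho : Order.IsSuccLimit o) {z : ZFSet.{0}} :
    z ∈ LL y o ↔ ∃ a < o, z ∈ LL y a := by
  constructor
  · intro hz
    rw [mem_ll] at hz
    rcases hz with hz | ⟨a, ha, hz⟩
    · exact ⟨0, ho.bot_lt, mem_ll.2 (Or.inl hz)⟩
    · exact ⟨a + 1, ho.add_one_lt ha, mem_ll_of_isDef hz⟩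
  · rintro ⟨a, ha, hz⟩
    exact ll_mono ha.le hz

theorem rl_mem_lc : rl y ∈ Lc y := ⟨0, rl_mem_ll⟩

theorem ll_mem_lc (o : Ordinal.{0}) : LL y o ∈ Lc y := ⟨o + 1, ll_mem_succ o⟩

/-- The class `L[y]` is an inner model. -/
theorem lc_inner (y : Set ℕ) : IsInner (Lc y) where
  trans x hx z hz := by
    obtain ⟨o, ho⟩ := hx
    exact ⟨o, (ll_trans o).mem_trans hz ho⟩
  cof s hs := by
    classical
    choose! f hf using hs
    obtain ⟨o, ho⟩ : ∃ o : Ordinal.{0}, ∀ z ∈ s, f z ≤ o := by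
      refine ⟨⨆ z : s, f z, fun z hz => ?_⟩
      exact Ordinal.le_iSup (fun z : s => f z) ⟨z, hz⟩
    refine ⟨LL y o, ll_mem_lc o, ll_trans o, fun z hz => ll_mono (ho z hz) (hf z hz), ?_⟩
    intro d hd
    exact ⟨o + 1, mem_ll_of_isDef hd⟩

end Pool.Agent.Helper17.CL
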