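import Pool.Agent.Helper17.CL.Rec

/-!
# Project CL: lists of elements of a coded type
-/

set_option autoImplicit false

namespace Pool.Agent.Helper17.CL

open ZFSet

universe u₁ u₂ u₃

/-- The code of a list. -/
def lcode {α : Type u₁} [Cod α] : List α → ZFSet.{0}
  | [] => ∅
  | a :: l => ZFSet.pair (code a) (lcode l)

theorem pair_ne_empty (a b : ZFSet.{0}) : ZFSet.pair a b ≠ ∅ := by
  intro h
  have h1 : ({a} : ZFSet.{0}) ∈ ZFSet.pair a b := by
    rw [ZFSet.pair]
    simp
  rw [h] at h1
  exact notMem_empty _ h1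

theorem lcode_inj {α : Type u₁} [Cod α] : Function.Injective (lcode : List α → ZFSet.{0}) := by
  intro l
  induction l with
  | nil =>
    intro l' h
    cases l' with
    | nil => rfl
    | cons a l' => exact absurd h.symm (pair_ne_empty _ _)
  | cons a l ih =>
    intro l' h
    cases l' with
    | nil => exact absurd h (pair_ne_empty _ _)
    | cons b l' =>
      unfold lcode at h
      rw [pair_inj] at h
      rw [Cod.inj h.1, ih h.2]

/-- The set of the codes of the lists of length `n` of elements of `u`. -/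
noncomputable def lpow (u : ZFSet.{0}) : ℕ → ZFSet.{0}
  | 0 => {∅}
  | n + 1 => ZFSet.prod u (lpow u n)

/-- The set of the codes of the lists of elements of `u`. -/
noncomputable def lists (u : ZFSet.{0}) : ZFSet.{0} :=
  ⋃₀ (ZFSet.range (fun n : ℕ => lpow u n))

theorem mem_lpow {u : ZFSet.{0}} {n : ℕ} {z : ZFSet.{0}} :
    z ∈ lpow u n ↔ ∃ l : List ZFSet.{0}, (∀ a ∈ l, a ∈ u) ∧ l.length = n ∧ z = lcode l := by
  induction n generalizing z with
  | zero =>
    unfold lpow
    rw [mem_singleton]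
    constructor
    · rintro rfl
      exact ⟨[], by simp, rfl, rfl⟩
    · rintro ⟨l, _, hl, rfl⟩
      rw [List.length_eq_zero_iff] at hl
      rw [hl]
      rfl
  | succ n ih =>
    unfold lpow
    rw [mem_prod]
    constructor
    · rintro ⟨a, ha, b, hb, rfl⟩
      obtain ⟨l, hl, hn, rfl⟩ := ih.1 hb
      refine ⟨a :: l, ?_, by rw [List.length_cons, hn], rfl⟩
      intro c hc
      rcases List.mem_cons.1 hc with rfl | hc
      · exact ha
      · exact hl c hc
    · rintro ⟨l, hl, hn, rfl⟩
      cases l with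
      | nil => simp at hn
      | cons a l =>
        refine ⟨a, hl a (List.mem_cons_self), lcode l, ih.2 ⟨l, fun c hc =>
          hl c (List.mem_cons_of_mem _ hc), ?_, rfl⟩, rfl⟩
        simpa using hn

theorem mem_lists' {u z : ZFSet.{0}} : z ∈ lists u ↔ ∃ n, z ∈ lpow u n := by
  unfold lists
  rw [mem_sUnion]
  constructor
  · rintro ⟨w, hw, hz⟩
    obtain ⟨n, rfl⟩ := mem_range.1 hw
    exact ⟨n, hz⟩
  · rintro ⟨n, hz⟩
    exact ⟨lpow u n, mem_range.2 ⟨n, rfl⟩, hz⟩

theorem mem_lists_lcode {u z : ZFSet.{0}} :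
    z ∈ lists u ↔ ∃ l : List ZFSet.{0}, (∀ a ∈ l, a ∈ u) ∧ z = lcode l := by
  rw [mem_lists']
  constructor
  · rintro ⟨n, hz⟩
    obtain ⟨l, h1, _, h2⟩ := mem_lpow.1 hz
    exact ⟨l, h1, h2⟩
  · rintro ⟨l, h1, h2⟩
    exact ⟨l.length, mem_lpow.2 ⟨l, h1, rfl, h2⟩⟩

theorem lcode_map_code {α : Type u₁} [Cod α] (l : List α) :
    lcode (l.map (code : α → ZFSet.{0})) = lcode l := by
  induction l with
  | nil => rfl
  | cons a l ih =>
    rw [List.map_cons]
    unfold lcode
    rw [ih]
    rfl

section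

variable {M : Set ZFSet.{0}} (h : IsInner M)
variable {α : Type u₁} {β : Type u₂} {γ : Type u₃}
variable [Cod α] [Cod β] [Cod γ]

include h

theorem AmF.lpow {f : α → ZFSet.{0}} {g : α → ℕ} (hf : AmF M f) (hg : AmF M g) :
    AmF M (fun x => CL.lpow (f x) (g x)) := by
  have h1 : AmF M (fun q : ZFSet.{0} × ℕ => CL.lpow q.1 q.2) := by
    refine AmF.rec_nat h (G := fun _ : ZFSet.{0} => ({∅} : ZFSet.{0}))
      (H := fun u _ p => ZFSet.prod u p) ((AmF.empty h).singleton h) ?_ (fun _ => rfl)
      (fun _ _ => rfl)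
    exact AmF.zprod h (AmF.fst h) ((AmF.snd h).comp h (AmF.snd h))
  exact h1.comp h (f := fun x => (f x, g x)) (hf.prod h hg)

theorem AmF.lists {f : α → ZFSet.{0}} (hf : AmF M f) : AmF M (fun x => CL.lists (f x)) := by
  have h1 : Am M (fun q : α × ZFSet.{0} => q.2 ∈ CL.lists (f q.1)) := by
    refine (Am.exA h (R := fun (q : α × ZFSet.{0}) (n : ℕ) => q.2 ∈ CL.lpow (f q.1) n)
      (Am.mem h ((AmF.snd h).comp h (AmF.fst h)) (AmF.lpow h (hf.comp h ((AmF.fst h).comp h
        (AmF.fst h))) (AmF.snd h)))).congr h fun q _ => ?_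
    rw [mem_lists']
  refine AmF.ofMem h (fun x hx => ?_) h1
  refine h.mem_of_am (R := fun z => z ∈ CL.lists (f x)) (fun z hz => ?_) ?_ (fun z _ => Iff.rfl)
  · rw [mem_lists'] at hz
    obtain ⟨n, hz⟩ := hz
    exact h.trans _ ((AmF.lpow h hf (AmF.const h n (AbsCod.mem h n))).mem x hx) _ hz
  · exact h1.comp h (f := fun z : ZFSet.{0} => (x, z)) ((AmF.const h x hx).prod h (AmF.id h))

end

theorem lcode_entry_mem {α : Type u₁} [Cod α] {u : ZFSet.{0}} (hu : u.IsTransitive) {l : List α}
    (hl : lcode l ∈ u) : ∀ a ∈ l, code a ∈ u := by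
  induction l with
  | nil => simp
  | cons b l ih =>
    have h1 : ZFSet.pair (code b) (lcode l) ∈ u := hl
    have h2 : ({code b, lcode l} : ZFSet.{0}) ∈ u := by
      refine hu.mem_trans (y := ZFSet.pair (code b) (lcode l)) ?_ h1
      rw [ZFSet.pair]
      simp
    have h3 : code b ∈ u := hu.mem_trans (by simp) h2
    have h4 : lcode l ∈ u := hu.mem_trans (by simp) h2
    intro a ha
    rcases List.mem_cons.1 ha with rfl | ha
    · exact h3
    · exact ih h4 a ha

noncomputable instance {α : Type u₁} [Cod α] : Cod (List α) where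
  code := lcode
  inj := lcode_inj
  am {M} h s hs := by
    obtain ⟨u, hu, hut, hsu, _⟩ := h.cof s (fun z hz => h.trans _ hs _ hz)
    have h1 : ZFSet.sep (fun z => ∃ x : α, code x = z) u ∈ M := Cod.am h u hu
    have h2 : lists (ZFSet.sep (fun z => ∃ x : α, code x = z) u) ∈ M :=
      (AmF.lists h (AmF.id (α := ZFSet.{0}) h)).mem _ h1
    refine mem_of_eq ?_ (h.inter_mem hs h2)
    ext z
    rw [mem_sep, mem_inter, mem_lists_lcode]
    refine and_congr_right fun hz => ?_
    constructor
    · rintro ⟨l, rfl⟩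
      refine ⟨l.map (code : α → ZFSet.{0}), ?_, (lcode_map_code l).symm⟩
      intro a ha
      obtain ⟨b, hb, rfl⟩ := List.mem_map.1 ha
      rw [mem_sep]
      exact ⟨lcode_entry_mem hut (hsu hz) b hb, b, rfl⟩
    · rintro ⟨l, hl, rfl⟩
      have h3 : ∀ l : List ZFSet.{0}, (∀ a ∈ l, a ∈ ZFSet.sep (fun z => ∃ x : α, code x = z) u) →
          ∃ l' : List α, lcode l' = lcode l := by
        intro l
        induction l with
        | nil => exact fun _ => ⟨[], rfl⟩
        | cons a l ih =>
          intro hl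
          obtain ⟨l', hl'⟩ := ih fun b hb => hl b (List.mem_cons_of_mem _ hb)
          obtain ⟨_, b, hb⟩ := mem_sep.1 (hl a List.mem_cons_self)
          refine ⟨b :: l', ?_⟩
          unfold lcode
          rw [hl', hb]
          rfl
      exact h3 l hl

@[simp] theorem code_nil {α : Type u₁} [Cod α] : code ([] : List α) = ∅ := rfl

@[simp] theorem code_cons {α : Type u₁} [Cod α] (a : α) (l : List α) :
    code (a :: l) = ZFSet.pair (code a) (code l) := rfl

theorem mem_lists {u z : ZFSet.{0}} :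
    z ∈ lists u ↔ ∃ l : List ZFSet.{0}, (∀ a ∈ l, a ∈ u) ∧ z = code l := mem_lists_lcode

noncomputable instance {α : Type u₁} [Cod α] [SmallCod α] : SmallCod (List α) where
  all := lists (SmallCod.all α)
  mem_all z := by
    rw [mem_lists_lcode]
    constructor
    · rintro ⟨l, hl, rfl⟩
      have h3 : ∀ l : List ZFSet.{0}, (∀ a ∈ l, a ∈ SmallCod.all α) →
          ∃ l' : List α, lcode l = lcode l' := by
        intro l
        induction l with
        | nil => exact fun _ => ⟨[], rfl⟩
        | cons a l ih =>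
          intro hl
          obtain ⟨l', hl'⟩ := ih fun b hb => hl b (List.mem_cons_of_mem _ hb)
          obtain ⟨b, hb⟩ := (SmallCod.mem_all a).1 (hl a List.mem_cons_self)
          refine ⟨b :: l', ?_⟩
          unfold lcode
          rw [hl', hb]
          rfl
      exact h3 l hl
    · rintro ⟨l, rfl⟩
      refine ⟨l.map (code : α → ZFSet.{0}), ?_, (lcode_map_code l).symm⟩
      intro a ha
      obtain ⟨b, _, rfl⟩ := List.mem_map.1 ha
      exact code_mem_all b
  inM {M} h := by
    exact (AmF.lists h (AmF.id (α := ZFSet.{0}) h)).mem _ (SmallCod.inM (α := α) h)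

/-- Case distinction for lists. -/
def lcase {β : Type u₂} {γ : Type u₃} (l : List γ) (b : β) (k : γ → List γ → β) : β :=
  match l with
  | [] => b
  | a :: l => k a l

section

variable {M : Set ZFSet.{0}} (h : IsInner M)
variable {α : Type u₁} {β : Type u₂} {γ : Type u₃}
variable [Cod α] [Cod β] [Cod γ]

include h

theorem AmF.congr {f g : α → β} (hf : AmF M f) (e : ∀ x, Cod.code x ∈ M → g x = f x) :
    AmF M g := by
  refine AmF.mk' (fun x hx => ?_) ?_
  · rw [e x hx]
    exact hf.mem x hx
  · refine hf.graph.congr h fun q hq => ?_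
    rw [e _ ((code_mem_prod h).1 hq).1]

theorem code_mem_cons {a : γ} {l : List γ} : code (a :: l) ∈ M ↔ code a ∈ M ∧ code l ∈ M := by
  rw [code_cons, h.pair_mem_iff]

theorem code_mem_list {l : List γ} : code l ∈ M ↔ ∀ a ∈ l, code a ∈ M := by
  induction l with
  | nil => simp [h.empty_mem]
  | cons a l ih =>
    rw [code_mem_cons h, ih]
    simp

theorem AmF.nil : AmF M (fun _ : α => ([] : List γ)) := AmF.const h _ h.empty_mem

theorem AmF.lcons {f : α → γ} {g : α → List γ} (hf : AmF M f) (hg : AmF M g) :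
    AmF M (fun x => f x :: g x) := by
  refine AmF.mk' (fun x hx => (code_mem_cons h).2 ⟨hf.mem x hx, hg.mem x hx⟩) ?_
  refine (Am.eq h (((AmF.code h).comp h (hf.comp h (AmF.fst h))).pair h
    ((AmF.code h).comp h (hg.comp h (AmF.fst h)))) ((AmF.code h).comp h
      (AmF.snd (β := List γ) h))).congr h fun q _ => ?_
  rw [← code_cons]
  exact Cod.inj.eq_iff.symm

theorem AmF.lcase {f : α → List γ} {G : α → β} {H : α → γ → List γ → β} (hf : AmF M f)
    (hG : AmF M G) (hH : AmF M (fun q : α × γ × List γ => H q.1 q.2.1 q.2.2)) :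
    AmF M (fun x => CL.lcase (f x) (G x) (H x)) := by
  refine AmF.mk' (fun x hx => ?_) ?_
  · have h1 := hf.mem x hx
    cases hfx : f x with
    | nil => exact hG.mem x hx
    | cons a l =>
      rw [hfx] at h1
      exact hH.mem (x, a, l) ((code_mem_prod h).2 ⟨hx, (code_mem_prod h).2
        ((code_mem_cons h).1 h1)⟩)
  · have h1 : Am M (fun q : α × β => (f q.1 = [] ∧ G q.1 = q.2) ∨ ∃ a : γ, Cod.code a ∈ M ∧
        ∃ l : List γ, Cod.code l ∈ M ∧ f q.1 = a :: l ∧ H q.1 a l = q.2) := by
      refine Am.or h (Am.and h (Am.eq h (hf.comp h (AmF.fst h)) (AmF.nil h)) (Am.eq h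
        (hG.comp h (AmF.fst h)) (AmF.snd h))) ?_
      refine Am.ex h (R := fun (q : α × β) (a : γ) => ∃ l : List γ, Cod.code l ∈ M ∧
        f q.1 = a :: l ∧ H q.1 a l = q.2) (Am.ex h (R := fun (q : (α × β) × γ) (l : List γ) =>
          f q.1.1 = q.2 :: l ∧ H q.1.1 q.2 l = q.1.2) (Am.and h ?_ ?_))
      · exact Am.eq h (hf.comp h ((AmF.fst h).comp h ((AmF.fst h).comp h (AmF.fst h))))
          (AmF.lcons h ((AmF.snd h).comp h (AmF.fst h)) (AmF.snd h))
      · refine Am.eq h (hH.comp h (f := fun q : ((α × β) × γ) × List γ =>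
          (q.1.1.1, q.1.2, q.2)) (((AmF.fst h).comp h ((AmF.fst h).comp h (AmF.fst h))).prod h
            (((AmF.snd h).comp h (AmF.fst h)).prod h (AmF.snd h)))) ?_
        exact (AmF.snd h).comp h ((AmF.fst h).comp h (AmF.fst h))
    refine h1.congr h fun q hq => ?_
    have h2 := hf.mem q.1 ((code_mem_prod h).1 hq).1
    cases hfx : f q.1 with
    | nil =>
      constructor
      · intro h3
        exact Or.inl ⟨rfl, h3⟩
      · rintro (⟨_, h3⟩ | ⟨a, _, l, _, h3, _⟩)
        · exact h3
        · cases h3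
    | cons a l =>
      rw [hfx] at h2
      constructor
      · intro h3
        exact Or.inr ⟨a, ((code_mem_cons h).1 h2).1, l, ((code_mem_cons h).1 h2).2, rfl, h3⟩
      · rintro (⟨h3, _⟩ | ⟨a', _, l', _, h3, h4⟩)
        · cases h3
        · rw [List.cons.injEq] at h3
          rw [← h4, ← h3.1, ← h3.2]
          rfl

theorem AmF.tail {f : α → List γ} (hf : AmF M f) : AmF M (fun x => (f x).tail) := by
  have h1 := AmF.lcase h hf (AmF.nil (γ := γ) h) (H := fun (_ : α) (_ : γ) (l : List γ) => l)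
    ((AmF.snd h).comp h (AmF.snd h))
  refine h1.congr h fun x _ => ?_
  cases f x <;> rfl

theorem AmF.headD {f : α → List γ} {d : α → γ} (hf : AmF M f) (hd : AmF M d) :
    AmF M (fun x => (f x).headD (d x)) := by
  have h1 := AmF.lcase h hf hd (H := fun (_ : α) (a : γ) (_ : List γ) => a)
    ((AmF.fst h).comp h (AmF.snd h))
  refine h1.congr h fun x _ => ?_
  cases f x <;> rfl

theorem AmF.drop {f : α → List γ} {g : α → ℕ} (hf : AmF M f) (hg : AmF M g) :
    AmF M (fun x => (f x).drop (g x)) := by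
  have h1 : AmF M (fun q : List γ × ℕ => q.1.drop q.2) := by
    refine AmF.rec_nat h (F := fun (l : List γ) n => l.drop n) (G := fun l : List γ => l)
      (H := fun _ _ l => l.tail) (AmF.id h) ?_ (fun _ => rfl) (fun l n => ?_)
    · exact AmF.tail h ((AmF.snd h).comp h (AmF.snd h))
    · rw [List.tail_drop]
  exact h1.comp h (f := fun x => (f x, g x)) (hf.prod h hg)

theorem AmF.length {f : α → List γ} (hf : AmF M f) : AmF M (fun x => (f x).length) := by
  have h1 : AmF M (fun l : List γ => l.length) := by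
    refine AmF.mk' (fun x _ => AbsCod.mem h _) ?_
    have h2 : Am M (fun q : List γ × ℕ => q.1.drop q.2 = [] ∧ ∀ m : ℕ, m < q.2 →
        q.1.drop m ≠ []) := by
      refine Am.and h (Am.eq h (AmF.drop h (AmF.fst h) (AmF.snd h)) (AmF.nil h)) ?_
      refine Am.allA h (R := fun (q : List γ × ℕ) (m : ℕ) => m < q.2 → q.1.drop m ≠ [])
        (Am.imp h (Am.natLt h (AmF.snd h) ((AmF.snd h).comp h (AmF.fst h))) (Am.not h
          (Am.eq h (AmF.drop h ((AmF.fst h).comp h (AmF.fst h)) (AmF.snd h)) (AmF.nil h))))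
    refine h2.congr h fun q _ => ?_
    simp only [List.drop_eq_nil_iff, ne_eq, not_le]
    constructor
    · rintro h3
      rw [← h3]
      exact ⟨le_refl _, fun m hm => hm⟩
    · rintro ⟨h3, h4⟩
      rcases h3.lt_or_eq with h5 | h5
      · exact absurd (h4 _ h5) (lt_irrefl _)
      · exact h5
  exact h1.comp h hf

theorem AmF.natPred {f : α → ℕ} (hf : AmF M f) : AmF M (fun x => (f x).pred) := by
  have h1 : AmF M (fun q : ℕ × ℕ => q.2.pred) := by
    refine AmF.rec_nat h (F := fun (_ : ℕ) n => n.pred) (G := fun _ : ℕ => 0)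
      (H := fun _ n _ => n) (AmF.const h 0 (AbsCod.mem h 0)) ?_ (fun _ => rfl) (fun _ _ => rfl)
    exact (AmF.fst h).comp h (AmF.snd h)
  exact h1.comp h (f := fun x => (0, f x)) ((AmF.const h 0 (AbsCod.mem h 0)).prod h hf)

theorem AmF.natSub {f g : α → ℕ} (hf : AmF M f) (hg : AmF M g) :
    AmF M (fun x => f x - g x) := by
  have h1 : AmF M (fun q : ℕ × ℕ => q.1 - q.2) := by
    refine AmF.rec_nat h (F := fun (m : ℕ) n => m - n) (G := fun m : ℕ => m)
      (H := fun _ _ k => k.pred) (AmF.id h) ?_ (fun _ => rfl) (fun _ _ => rfl)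
    exact AmF.natPred h ((AmF.snd h).comp h (AmF.snd h))
  exact h1.comp h (f := fun x => (f x, g x)) (hf.prod h hg)

/-- Recursion on lists. -/
theorem AmF.rec_list {G : α → β} {H : α → γ → List γ → β → β} {F : α → List γ → β}
    (hG : AmF M G)
    (hH : AmF M (fun q : α × γ × List γ × β => H q.1 q.2.1 q.2.2.1 q.2.2.2))
    (hF0 : ∀ p, F p [] = G p) (hFS : ∀ p a l, F p (a :: l) = H p a l (F p l)) :
    AmF M (fun q : α × List γ => F q.1 q.2) := by
  have h1 : AmF M (fun q : (α × List γ) × ℕ =>
      F q.1.1 (q.1.2.drop (q.1.2.length - q.2))) := by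
    refine AmF.rec_nat h (F := fun (p : α × List γ) n => F p.1 (p.2.drop (p.2.length - n)))
      (G := fun p : α × List γ => G p.1)
      (H := fun p n y => if p.2.length < n + 1 then y else
        CL.lcase (p.2.drop (p.2.length - (n + 1))) (G p.1)
        (fun a l => H p.1 a l y))
      (hG.comp h (AmF.fst h)) ?_ ?_ ?_
    · have e1 : AmF M (fun q : (α × List γ) × ℕ × β => q.1.1) := (AmF.fst h).comp h (AmF.fst h)
      have e2 : AmF M (fun q : (α × List γ) × ℕ × β => q.1.2) := (AmF.snd h).comp h (AmF.fst h)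
      have e3 : AmF M (fun q : (α × List γ) × ℕ × β => q.2.1) := (AmF.fst h).comp h (AmF.snd h)
      have e4 : AmF M (fun q : (α × List γ) × ℕ × β => q.2.2) := (AmF.snd h).comp h (AmF.snd h)
      refine AmF.ite h (R := fun q : (α × List γ) × ℕ × β => q.1.2.length < q.2.1 + 1)
        (Am.natLt h (AmF.length h e2) (AmF.natSucc h e3)) e4 ?_
      refine AmF.lcase h (f := fun q : (α × List γ) × ℕ × β =>
        q.1.2.drop (q.1.2.length - (q.2.1 + 1))) (G := fun q => G q.1.1)
        (H := fun q a l => H q.1.1 a l q.2.2)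
        (AmF.drop h e2 (AmF.natSub h (AmF.length h e2) (AmF.natSucc h e3)))
        (hG.comp h e1) ?_
      exact hH.comp h (f := fun q : ((α × List γ) × ℕ × β) × γ × List γ =>
        (q.1.1.1, q.2.1, q.2.2, q.1.2.2)) ((e1.comp h (AmF.fst h)).prod h
          (((AmF.fst h).comp h (AmF.snd h)).prod h (((AmF.snd h).comp h (AmF.snd h)).prod h
            (e4.comp h (AmF.fst h)))))
    · intro p
      simp only [Nat.sub_zero, List.drop_length]
      exact hF0 p.1
    · intro p n
      split_ifs with h2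
      · have h3 : p.2.length - (n + 1) = p.2.length - n := by omega
        rw [h3]
      · have h3 : p.2.length - (n + 1) < p.2.length := by omega
        have h4 : p.2.length - (n + 1) + 1 = p.2.length - n := by omega
        rw [List.drop_eq_getElem_cons h3, h4]
        exact hFS _ _ _
  have h2 := h1.comp h (f := fun q : α × List γ => (q, q.2.length))
    ((AmF.id h).prod h (AmF.length h (AmF.snd h)))
  simpa only [Nat.sub_self, List.drop_zero] using h2

theorem AmF.append {f g : α → List γ} (hf : AmF M f) (hg : AmF M g) :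
    AmF M (fun x => f x ++ g x) := by
  have h1 : AmF M (fun q : List γ × List γ => q.2 ++ q.1) := by
    refine AmF.rec_list h (F := fun (m l : List γ) => l ++ m) (G := fun m : List γ => m)
      (H := fun _ a _ k => a :: k) (AmF.id h) ?_ (fun _ => rfl) (fun _ _ _ => rfl)
    exact AmF.lcons h ((AmF.fst h).comp h (AmF.snd h)) ((AmF.snd h).comp h ((AmF.snd h).comp h
      (AmF.snd h)))
  exact h1.comp h (f := fun x => (g x, f x)) (hg.prod h hf)

theorem AmF.reverse {f : α → List γ} (hf : AmF M f) : AmF M (fun x => (f x).reverse) := by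
  have h1 : AmF M (fun q : ℕ × List γ => q.2.reverse) := by
    refine AmF.rec_list h (F := fun (_ : ℕ) (l : List γ) => l.reverse) (G := fun _ => [])
      (H := fun _ a _ k => k ++ [a]) (AmF.nil h) ?_ (fun _ => rfl) (fun _ a l => ?_)
    · exact AmF.append h ((AmF.snd h).comp h ((AmF.snd h).comp h
        (AmF.snd h))) (AmF.lcons h ((AmF.fst h).comp h (AmF.snd h)) (AmF.nil h))
    · rw [List.reverse_cons]
  exact h1.comp h (f := fun x => (0, f x)) ((AmF.const h 0 (AbsCod.mem h 0)).prod h hf)

theorem AmF.take {f : α → List γ} {g : α → ℕ} (hf : AmF M f) (hg : AmF M g) :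
    AmF M (fun x => (f x).take (g x)) := by
  refine (AmF.reverse h (AmF.drop h (AmF.reverse h hf) (AmF.natSub h (AmF.length h hf)
    hg))).congr h fun x _ => ?_
  rw [← List.reverse_take, List.reverse_reverse]

theorem AmF.getD {f : α → List γ} {g : α → ℕ} {d : α → γ} (hf : AmF M f) (hg : AmF M g)
    (hd : AmF M d) : AmF M (fun x => (f x).getD (g x) (d x)) := by
  refine (AmF.headD h (AmF.drop h hf hg) hd).congr h fun x _ => ?_
  have h1 : ∀ (l : List γ) (n : ℕ) (b : γ), (l.drop n).headD b = l.getD n b := by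
    intro l
    induction l with
    | nil =>
      intro n b
      simp
    | cons a l ih =>
      intro n b
      cases n with
      | zero => simp
      | succ n =>
        rw [List.drop_succ_cons, ih n b]
        rfl
  exact (h1 _ _ _).symm

theorem Am.memList {f : α → γ} {g : α → List γ} (hf : AmF M f) (hg : AmF M g) :
    Am M (fun x => f x ∈ g x) := by
  refine (Am.exA h (R := fun (x : α) (n : ℕ) => ∃ a : γ, Cod.code a ∈ M ∧ ∃ l : List γ,
    Cod.code l ∈ M ∧ (g x).drop n = a :: l ∧ f x = a) (Am.ex h (R := fun (q : α × ℕ) a =>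
      ∃ l : List γ, Cod.code l ∈ M ∧ (g q.1).drop q.2 = a :: l ∧ f q.1 = a) (Am.ex h
        (R := fun (q : (α × ℕ) × γ) l => (g q.1.1).drop q.1.2 = q.2 :: l ∧ f q.1.1 = q.2)
          (Am.and h ?_ ?_)))).congr h fun x hx => ?_
  · exact Am.eq h (AmF.drop h (hg.comp h ((AmF.fst h).comp h ((AmF.fst h).comp h (AmF.fst h))))
      ((AmF.snd h).comp h ((AmF.fst h).comp h (AmF.fst h)))) (AmF.lcons h
        ((AmF.snd h).comp h (AmF.fst h)) (AmF.snd h))
  · exact Am.eq h (hf.comp h ((AmF.fst h).comp h ((AmF.fst h).comp h (AmF.fst h))))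
      ((AmF.snd h).comp h (AmF.fst h))
  · constructor
    · intro h1
      obtain ⟨n, hn, h2⟩ := List.mem_iff_getElem.1 h1
      have h3 := hg.mem x hx
      rw [code_mem_list h] at h3
      refine ⟨n, f x, hf.mem x hx, (g x).drop (n + 1), ?_, ?_, rfl⟩
      · rw [code_mem_list h]
        exact fun a ha => h3 a (List.mem_of_mem_drop ha)
      · rw [List.drop_eq_getElem_cons hn, h2]
    · rintro ⟨n, a, _, l, _, h1, h2⟩
      have h3 : f x ∈ (g x).drop n := by
        rw [h1, h2]
        exact List.mem_cons_self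
      exact List.mem_of_mem_drop h3

theorem AmF.listMap {k : α → γ → β} {f : α → List γ} (hk : AmF M (fun q : α × γ => k q.1 q.2))
    (hf : AmF M f) : AmF M (fun x => (f x).map (k x)) := by
  have h1 : AmF M (fun q : α × List γ => q.2.map (k q.1)) := by
    refine AmF.rec_list h (F := fun (x : α) (l : List γ) => l.map (k x)) (G := fun _ => [])
      (H := fun x a _ m => k x a :: m) (AmF.nil h) ?_ (fun _ => rfl) (fun _ _ _ => rfl)
    exact AmF.lcons h (hk.comp h (f := fun q : α × γ × List γ × List β => (q.1, q.2.1))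
      ((AmF.fst h).prod h ((AmF.fst h).comp h (AmF.snd h)))) ((AmF.snd h).comp h
        ((AmF.snd h).comp h (AmF.snd h)))
  exact h1.comp h (f := fun x => (x, f x)) ((AmF.id h).prod h hf)

theorem AmF.range {f : α → ℕ} (hf : AmF M f) : AmF M (fun x => List.range (f x)) := by
  have h1 : AmF M (fun q : ℕ × ℕ => List.range q.2) := by
    refine AmF.rec_nat h (F := fun (_ : ℕ) n => List.range n) (G := fun _ : ℕ => [])
      (H := fun _ n l => l ++ [n]) (AmF.nil h) ?_ (fun _ => rfl) (fun _ n => ?_)
    · exact AmF.append h ((AmF.snd h).comp h (AmF.snd h)) (AmF.lcons h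
        ((AmF.fst h).comp h (AmF.snd h)) (AmF.nil h))
    · exact List.range_succ
  exact h1.comp h (f := fun x => (0, f x)) ((AmF.const h 0 (AbsCod.mem h 0)).prod h hf)

end

end Pool.Agent.Helper17.CL
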