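import Pool.Agent.Helper17.CL.Hull
import Pool.Agent.Helper17.CL.Count

/-!
# Project CL: if `ω₁` is inaccessible from reals, then every `L[y]` has countably many reals
-/

set_option autoImplicit false

namespace Pool.Agent.Helper17.CL

open ZFSet

/-- There is an injection of `α` into `ω` in `L[y]`. -/
def CtbIn (y : Set ℕ) (α : Ordinal.{0}) : Prop :=
  ∃ f ∈ Lc y, ZFSet.IsFunc α.toZFSet omg f ∧
    ∀ a b n, ZFSet.pair a n ∈ f → ZFSet.pair b n ∈ f → a = b

/-- The ordinal `ω₁` of `L[y]`: the least ordinal which is not countable in `L[y]`. -/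
noncomputable def omegaOneL (y : Set ℕ) : Ordinal.{0} := sInf {α | ¬ CtbIn y α}

theorem ctbIn_of_surj {y : Set ℕ} {γ : Ordinal.{0}} {s : ℕ → Ordinal.{0}}
    (hs : AmF (Lc y) s) (hsurj : ∀ c < γ, ∃ n, s n = c) : CtbIn y γ := by
  have h := lc_inner y
  have h1 : AmF (Lc y) (fun z : ZFSet.{0} => nat (sInf {n | s n = ordOf z})) := by
    refine (AmF.code (α := ℕ) h).comp h (AmF.leastNat h (R := fun (z : ZFSet.{0}) n =>
      s n = ordOf z) ?_)
    exact Am.eq h (hs.comp h (AmF.snd h)) (AmF.ordOf h (AmF.fst h))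
  have h2 : ∀ c < γ, s (sInf {n | s n = c}) = c := fun c hc => Nat.sInf_mem (hsurj c hc)
  refine ⟨gr (fun z => nat (sInf {n | s n = ordOf z})) γ.toZFSet, ?_, ⟨?_, ?_⟩, ?_⟩
  · exact (AmF.gr h (f := fun (_ : ZFSet.{0}) z => nat (sInf {n | s n = ordOf z}))
      (g := fun _ => γ.toZFSet) (AmF.const h _ (h.ord_mem γ)) (h1.comp h (AmF.snd h))).mem ∅
        h.empty_mem
  · intro t ht
    obtain ⟨z, hz, rfl⟩ := mem_gr.1 ht
    exact pair_mem_prod.2 ⟨hz, nat_mem_omg _⟩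
  · intro z hz
    exact ⟨_, pair_mem_gr.2 ⟨hz, rfl⟩, fun w hw => (pair_mem_gr.1 hw).2⟩
  · intro a b n ha hb
    obtain ⟨ha1, ha2⟩ := pair_mem_gr.1 ha
    obtain ⟨hb1, hb2⟩ := pair_mem_gr.1 hb
    obtain ⟨a, ha', rfl⟩ := Ordinal.mem_toZFSet_iff.1 ha1
    obtain ⟨b, hb', rfl⟩ := Ordinal.mem_toZFSet_iff.1 hb1
    rw [ha2] at hb2
    have h3 := nat_inj hb2
    rw [ordOf_toZFSet, ordOf_toZFSet] at h3
    rw [← h2 a ha', h3, h2 b hb']

theorem CtbIn.mono {y : Set ℕ} {α β : Ordinal.{0}} (h : CtbIn y β) (hab : α ≤ β) :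
    CtbIn y α := by
  obtain ⟨f, hf, hf1, hf2⟩ := h
  have hi := lc_inner y
  have hsub : α.toZFSet ⊆ β.toZFSet := by
    intro z hz
    obtain ⟨c, hc, rfl⟩ := Ordinal.mem_toZFSet_iff.1 hz
    exact Ordinal.toZFSet_mem_toZFSet_iff.2 (lt_of_lt_of_le hc hab)
  refine ⟨f ∩ ZFSet.prod α.toZFSet omg, hi.inter_mem hf (hi.prod_mem (hi.ord_mem α)
    (hi.ord_mem Ordinal.omega0)), ⟨?_, ?_⟩, ?_⟩
  · intro t ht
    exact (mem_inter.1 ht).2
  · intro z hz
    obtain ⟨w, hw, hw'⟩ := hf1.2 z (hsub hz)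
    refine ⟨w, mem_inter.2 ⟨hw, pair_mem_prod.2 ⟨hz, ?_⟩⟩, fun w' h1 => hw' w' (mem_inter.1 h1).1⟩
    exact (pair_mem_prod.1 (hf1.1 hw)).2
  · intro a b n ha hb
    exact hf2 a b n (mem_inter.1 ha).1 (mem_inter.1 hb).1

theorem CtbIn.countable {y : Set ℕ} {α : Ordinal.{0}} (h : CtbIn y α) :
    Countable (Set.Iio α) := by
  obtain ⟨f, _, hf1, hf2⟩ := h
  have h1 : ∀ a : Set.Iio α, ∃ n : ℕ, ZFSet.pair a.1.toZFSet (nat n) ∈ f := by
    rintro ⟨a, ha⟩
    obtain ⟨w, hw, _⟩ := hf1.2 a.toZFSet (Ordinal.toZFSet_mem_toZFSet_iff.2 ha)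
    obtain ⟨n, rfl⟩ := mem_omg.1 (pair_mem_prod.1 (hf1.1 hw)).2
    exact ⟨n, hw⟩
  choose g hg using h1
  refine Function.Injective.countable (f := g) ?_
  intro a b hab
  have h2 := hg a
  rw [hab] at h2
  have h3 := hf2 _ _ _ h2 (hg b)
  exact Subtype.ext (Ordinal.toZFSet_injective h3)

theorem countable_Iio_of_lt {α : Ordinal.{0}} (h : α < Ordinal.omega 1) :
    Countable (Set.Iio α) := by
  rw [← Cardinal.mk_le_aleph0_iff, Cardinal.mk_Iio_ordinal, Cardinal.lift_le_aleph0]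
  have h1 : α.card < Cardinal.aleph 1 := by
    rw [← Cardinal.ord_aleph, Cardinal.lt_ord] at h
    exact h
  rw [← Cardinal.succ_aleph0] at h1
  exact Order.lt_succ_iff.1 h1

theorem not_ctbIn_omega_one (y : Set ℕ) : ¬ CtbIn y (Ordinal.omega 1) := by
  intro h
  have h1 := h.countable
  rw [← Cardinal.mk_le_aleph0_iff, Cardinal.mk_Iio_ordinal, Cardinal.lift_le_aleph0] at h1
  rw [Ordinal.card_omega] at h1
  exact absurd h1 (not_le.2 Cardinal.aleph0_lt_aleph_one)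

theorem omegaOneL_not (y : Set ℕ) : ¬ CtbIn y (omegaOneL y) :=
  csInf_mem (s := {α | ¬ CtbIn y α}) ⟨_, not_ctbIn_omega_one y⟩

/-! ### The levels below `ω₁` are countable -/

theorem def_countable {u : ZFSet.{0}} (hu : (u : Set ZFSet.{0}).Countable) :
    {x | IsDef u x}.Countable := by
  have hc : Countable ↥(u : Set ZFSet.{0}) := hu.to_subtype
  refine (Set.countable_range (fun q : ↥(u : Set ZFSet.{0}) × ℕ × List ↥(u : Set ZFSet.{0}) =>
    DefS u q.1.1 q.2.1 (q.2.2.map Subtype.val))).mono ?_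
  intro x hx
  obtain ⟨d, hd, n, l, hl, rfl⟩ := isDef_iff.1 hx
  have h1 : ∀ l : List ZFSet.{0}, (∀ a ∈ l, a ∈ u) →
      ∃ l' : List ↥(u : Set ZFSet.{0}), l'.map Subtype.val = l := by
    intro l
    induction l with
    | nil => exact fun _ => ⟨[], rfl⟩
    | cons a l ih =>
      intro hl
      obtain ⟨l', hl'⟩ := ih fun b hb => hl b (List.mem_cons_of_mem _ hb)
      exact ⟨⟨a, hl a List.mem_cons_self⟩ :: l', by rw [List.map_cons, hl']⟩
  obtain ⟨l', rfl⟩ := h1 l hl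
  exact ⟨(⟨d, hd⟩, n, l'), rfl⟩

theorem ll_countable (y : Set ℕ) (α : Ordinal.{0}) (hα : α < Ordinal.omega 1) :
    (LL y α : Set ZFSet.{0}).Countable := by
  induction α using WellFoundedLT.induction with
  | _ α ih =>
    have hc := countable_Iio_of_lt hα
    have h1 : (LL y α : Set ZFSet.{0}) ⊆ ({rl y} ∪ Set.range nat) ∪
        ⋃ a : Set.Iio α, {x | IsDef (LL y a.1) x} := by
      intro z hz
      have hz' : z ∈ LL y α := hz
      rcases mem_ll.1 hz' with (rfl | h0) | ⟨a, ha, hd⟩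
      · exact Or.inl (Or.inl rfl)
      · obtain ⟨n, rfl⟩ := mem_omg.1 h0
        exact Or.inl (Or.inr ⟨n, rfl⟩)
      · exact Or.inr (Set.mem_iUnion.2 ⟨⟨a, ha⟩, hd⟩)
    refine Set.Countable.mono h1 ?_
    refine ((Set.countable_singleton _).union (Set.countable_range _)).union ?_
    exact Set.countable_iUnion fun a => def_countable (ih a.1 a.2 (a.2.trans hα))

/-- If `ω₁` of `L[y]` is countable, then `L[y]` has only countably many reals. -/
theorem countable_conFrom {y : Set ℕ} (h : omegaOneL y < Ordinal.omega 1) :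
    {x | ConFrom x y}.Countable := by
  have h1 : ∀ x, ConFrom x y → rl x ∈ LL y (omegaOneL y) := by
    intro x hx
    obtain ⟨γ, hγ, s, hs, hsurj⟩ := real_level hx
    have h2 : γ ≤ omegaOneL y := by
      by_contra hc
      exact omegaOneL_not y ((ctbIn_of_surj hs hsurj).mono (not_le.1 hc).le)
    exact ll_mono h2 hγ
  refine Set.MapsTo.countable_of_injOn (f := rl) (t := (LL y (omegaOneL y) : Set ZFSet.{0}))
    (fun x hx => h1 x hx) (rl_inj.injOn) (ll_countable y _ h)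

end Pool.Agent.Helper17.CL
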