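import Pool.Agent.Helper17.CL.Sat

/-!
# Project CL: minimality of the models `L[y]`, relative constructibility
-/

set_option autoImplicit false

namespace Pool.Agent.Helper17.CL

open ZFSet

universe u₁ u₂ u₃

section

variable {M : Set ZFSet.{0}} (h : IsInner M)
variable {α : Type u₁} [Cod α]

include h

theorem AmF.ll {f : α → Set ℕ} {g : α → Ordinal.{0}} (hf : AmF M f) (hg : AmF M g) :
    AmF M (fun x => LL (f x) (g x)) := by
  have h1 : AmF M (fun q : Set ℕ × Ordinal.{0} => LL q.1 q.2) := by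
    refine AmF.rec_ord h (F := fun (y : Set ℕ) o => LL y o)
      (H := fun (y : Set ℕ) (o : Ordinal.{0}) (g : ZFSet.{0}) => Insert.insert (rl y) omg ∪
        (⋃₀ (CL.img (fun t => Def (CL.app g t)) o.toZFSet) : ZFSet.{0})) ?_ ?_
    · let C := Set ℕ × Ordinal.{0} × ZFSet.{0}
      have vy : AmF M (fun q : C => q.1) := AmF.fst h
      have vo : AmF M (fun q : C => q.2.1) := (AmF.fst h).comp h (AmF.snd h)
      have vg : AmF M (fun q : C => q.2.2) := (AmF.snd h).comp h (AmF.snd h)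
      refine AmF.union h (AmF.insert h ((AmF.code h).comp h vy) (AmF.const h omg
        (h.ord_mem Ordinal.omega0))) (AmF.sUnion h (AmF.img h (f := fun (q : C) t =>
          Def (CL.app q.2.2 t)) ((AmF.code h).comp h vo) ?_))
      exact AmF.def' h (AmF.app h (vg.comp h (AmF.fst h)) (AmF.snd h))
    · intro y o
      ext z
      rw [mem_ll, mem_union, mem_sUnion]
      refine or_congr (by rw [mem_insert_iff]) ?_
      constructor
      · rintro ⟨a, ha, hz⟩
        refine ⟨Def (LL y a), mem_img.2 ⟨a.toZFSet, Ordinal.toZFSet_mem_toZFSet_iff.2 ha, ?_⟩,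
          mem_def.2 hz⟩
        rw [app_gro ha]
      · rintro ⟨w, hw, hz⟩
        obtain ⟨t, ht, rfl⟩ := mem_img.1 hw
        obtain ⟨a, ha, rfl⟩ := Ordinal.mem_toZFSet_iff.1 ht
        rw [app_gro ha] at hz
        exact ⟨a, ha, mem_def.1 hz⟩
  exact h1.comp h (f := fun x => (f x, g x)) (hf.prod h hg)

theorem ll_mem {y : Set ℕ} (hy : rl y ∈ M) (o : Ordinal.{0}) : LL y o ∈ M :=
  (AmF.ll h (f := fun _ : ZFSet.{0} => y) (g := fun _ => o) (AmF.const h y hy)
    (AmF.const h o (h.ord_mem o))).mem ∅ h.empty_mem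

/-- The model `L[y]` is the least inner model with the element `y`. -/
theorem lc_subset {y : Set ℕ} (hy : rl y ∈ M) : Lc y ⊆ M := by
  rintro z ⟨o, hz⟩
  exact h.trans _ (ll_mem h hy o) _ hz

theorem Am.memLc {f : α → ZFSet.{0}} {g : α → Set ℕ} (hf : AmF M f) (hg : AmF M g) :
    Am M (fun x => f x ∈ Lc (g x)) := by
  refine (Am.exA h (R := fun x (o : Ordinal.{0}) => f x ∈ LL (g x) o) (Am.mem h
    (hf.comp h (AmF.fst h)) (AmF.ll h (hg.comp h (AmF.fst h)) (AmF.snd h)))).congr h fun x _ => ?_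
  rfl

end

/-! ### Relative constructibility -/

theorem ConFrom.refl (x : Set ℕ) : ConFrom x x := rl_mem_lc

theorem ConFrom.trans {x y z : Set ℕ} (h1 : ConFrom x y) (h2 : ConFrom y z) : ConFrom x z :=
  lc_subset (lc_inner z) h2 h1

theorem ConFrom.subset {x y : Set ℕ} (h1 : ConFrom x y) : Lc x ⊆ Lc y :=
  lc_subset (lc_inner y) h1

theorem conFrom_iff {x y : Set ℕ} : ConFrom x y ↔ Lc x ⊆ Lc y :=
  ⟨ConFrom.subset, fun h => h rl_mem_lc⟩

/-- A set of natural numbers with an amenable definition in `L[y]`. -/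
theorem conFrom_of_am {x y : Set ℕ} (h : Am (Lc y) (fun n : ℕ => n ∈ x)) : ConFrom x y := by
  have hi := lc_inner y
  have h1 := (AmF.setOf hi (R := fun (_ : ZFSet.{0}) (n : ℕ) => n ∈ x)
    (h.comp hi (AmF.snd hi))).mem ∅ hi.empty_mem
  exact h1

theorem am_of_mem {M : Set ZFSet.{0}} (h : IsInner M) {x : Set ℕ} (hx : rl x ∈ M) :
    Am M (fun n : ℕ => n ∈ x) :=
  Am.mem_set h (AmF.id h) (AmF.const h x hx)

theorem conFrom_iff_am {x y : Set ℕ} : ConFrom x y ↔ Am (Lc y) (fun n : ℕ => n ∈ x) :=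
  ⟨fun h => am_of_mem (lc_inner y) h, conFrom_of_am⟩

/-- The empty set is constructible from every set. -/
theorem rl_empty_mem {M : Set ZFSet.{0}} (h : IsInner M) : rl ∅ ∈ M := by
  refine mem_of_eq ?_ h.empty_mem
  ext z
  rw [mem_rl]
  simp

theorem lc_empty_subset {M : Set ZFSet.{0}} (h : IsInner M) : Lc ∅ ⊆ M :=
  lc_subset h (rl_empty_mem h)

/-- The join of two sets of natural numbers. -/
def join (x y : Set ℕ) : Set ℕ := {n | n % 2 = 0 ∧ n / 2 ∈ x ∨ n % 2 = 1 ∧ n / 2 ∈ y}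

theorem AmF.join {M : Set ZFSet.{0}} (h : IsInner M) {α : Type u₁} [Cod α] {f g : α → Set ℕ}
    (hf : AmF M f) (hg : AmF M g) : AmF M (fun x => CL.join (f x) (g x)) := by
  unfold CL.join
  refine AmF.setOf h (R := fun x n => n % 2 = 0 ∧ n / 2 ∈ f x ∨ n % 2 = 1 ∧ n / 2 ∈ g x) ?_
  have v2 : AmF M (fun q : α × ℕ => q.2 % 2) :=
    AmF.primrec h (f := fun n => n % 2) (Primrec.nat_mod.comp Primrec.id (Primrec.const 2))
      (AmF.snd h)
  have vd : AmF M (fun q : α × ℕ => q.2 / 2) :=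
    AmF.primrec h (f := fun n => n / 2) (Primrec.nat_div.comp Primrec.id (Primrec.const 2))
      (AmF.snd h)
  exact Am.or h (Am.and h (Am.eq h v2 (AmF.const h 0 (AbsCod.mem h 0)))
    (Am.mem_set h vd (hf.comp h (AmF.fst h)))) (Am.and h (Am.eq h v2 (AmF.const h 1
      (AbsCod.mem h 1))) (Am.mem_set h vd (hg.comp h (AmF.fst h))))

theorem rl_join_mem {M : Set ZFSet.{0}} (h : IsInner M) {x y : Set ℕ} :
    rl (join x y) ∈ M ↔ rl x ∈ M ∧ rl y ∈ M := by
  constructor
  · intro h1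
    have key : ∀ (z : Set ℕ) (k : ℕ → ℕ), Nat.Primrec k → (∀ n, k n ∈ join x y ↔ n ∈ z) →
        rl z ∈ M := by
      intro z k hk e
      have h2 : Am M (fun n : ℕ => n ∈ z) :=
        (Am.mem_set h (f := fun n : ℕ => k n) (g := fun _ => join x y)
          (AmF.natPrimrec h hk (AmF.id h)) (AmF.const h _ h1)).congr h fun n _ => (e n).symm
      exact (AmF.setOf h (R := fun (_ : ZFSet.{0}) (n : ℕ) => n ∈ z)
        (h2.comp h (AmF.snd h))).mem ∅ h.empty_mem
    constructor
    · refine key x (fun n => 2 * n) (Primrec.nat_iff.1 (Primrec.nat_mul.comp (Primrec.const 2)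
        Primrec.id)) fun n => ?_
      have e1 : 2 * n % 2 = 0 := by omega
      have e2 : 2 * n / 2 = n := by omega
      unfold join
      simp [e1, e2]
    · refine key y (fun n => 2 * n + 1) (Primrec.nat_iff.1 (Primrec.succ.comp
        (Primrec.nat_mul.comp (Primrec.const 2) Primrec.id))) fun n => ?_
      have e1 : (2 * n + 1) % 2 = 1 := by omega
      have e2 : (2 * n + 1) / 2 = n := by omega
      unfold join
      simp [e1, e2]
  · rintro ⟨h1, h2⟩
    exact (AmF.join h (f := fun _ : ZFSet.{0} => x) (g := fun _ => y) (AmF.const h x h1)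
      (AmF.const h y h2)).mem ∅ h.empty_mem

/-- The join is the supremum. -/
theorem conFrom_join {x y z : Set ℕ} : ConFrom (join x y) z ↔ ConFrom x z ∧ ConFrom y z :=
  rl_join_mem (lc_inner z)

end Pool.Agent.Helper17.CL
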