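import Pool.Agent.Helper17.CL.Gext
import Pool.Agent.Helper44.CL.Main

/-!
# Project CL: names for the reals of generic extensions of `L`, in terms of sets of reals
-/

set_option autoImplicit false

namespace Pool.Agent.Helper17.CL

open ZFSet
open Pool.Agent.Helper44.CL (jn tag tag_inj SeqIn RelIn Dense Generic NamesFor rset mem_rset
  rl_mem_rset amF_consJ rl_mem_of_am)

/-- The sets of constructible reals which are elements of `L`. -/
abbrev LL2 : Set (Set (Set ℕ)) := Pool.Agent.Helper44.CL.L2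

universe u₁

section

variable {M : Set ZFSet.{0}} (h : IsInner M) {α : Type u₁} [Cod α]
include h

theorem AmF.jn {f g : α → Set ℕ} (hf : AmF M f) (hg : AmF M g) :
    AmF M (fun x => Pool.Agent.Helper44.CL.jn (f x) (g x)) := by
  have he : rl ∅ ∈ M := rl_empty_mem h
  have h1 := (amF_consJ h).comp h (f := fun x : α => (f x, Pool.Agent.Helper44.CL.join
    (Pool.Agent.Helper44.CL.cons (g x) (Pool.Agent.Helper44.CL.col ∅)))) (hf.prod h
      ((amF_consJ h).comp h (f := fun x : α => (g x, (∅ : Set ℕ))) (hg.prod h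
        (AmF.const h (∅ : Set ℕ) he))))
  refine h1.congr h fun x _ => ?_
  show Pool.Agent.Helper44.CL.join _ = Pool.Agent.Helper44.CL.join _
  congr 1
  funext i
  rcases i with _ | _ | i
  · rfl
  · simp
  · simp only [Pool.Agent.Helper44.CL.cons_succ, Pool.Agent.Helper44.CL.col_join]
    ext n
    simp [Pool.Agent.Helper44.CL.col]

theorem AmF.tag {f : α → ℕ} {g : α → Set ℕ} (hf : AmF M f) (hg : AmF M g) :
    AmF M (fun x => Pool.Agent.Helper44.CL.tag (f x) (g x)) := by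
  refine AmF.jn h (f := fun x => {f x}) ?_ hg
  refine (AmF.setOf h (R := fun (x : α) (n : ℕ) => n = f x) (Am.eq h (AmF.snd h)
    (hf.comp h (AmF.fst h)))).congr h fun x _ => ?_
  ext n
  simp

end

/-- The relation between codes. -/
def lez (P : Set (Set ℕ)) (le : Set ℕ → Set ℕ → Prop) (a b : ZFSet.{0}) : Prop :=
  ∃ p q : Set ℕ, rl p = a ∧ rl q = b ∧ p ∈ P ∧ q ∈ P ∧ le p q

theorem lez_rl {P : Set (Set ℕ)} {le : Set ℕ → Set ℕ → Prop} {p q : Set ℕ} :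
    lez P le (rl p) (rl q) ↔ p ∈ P ∧ q ∈ P ∧ le p q := by
  constructor
  · rintro ⟨p', q', h1, h2, h3⟩
    rw [rl_inj h1, rl_inj h2] at h3
    exact h3
  · exact fun h => ⟨p, q, rfl, rfl, h⟩

/-- Generic filters in terms of sets of reals. -/
theorem forc_of_generic {P : Set (Set ℕ)} {le : Set ℕ → Set ℕ → Prop} (hP : P ∈ LL2)
    (hle : RelIn LL2 P le) (hrefl : ∀ p ∈ P, le p p)
    (htrans : ∀ p ∈ P, ∀ q ∈ P, ∀ r ∈ P, le p q → le q r → le p r) {G : Set (Set ℕ)}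
    (hG : Generic LL2 P le G) : Forc (Lc ∅) (rset P) (lez P le) (rl '' G) where
  inner := lc_inner ∅
  mem := hP.2
  am := by
    have h := lc_inner ∅
    have h1 : Am (Lc ∅) (fun q : ZFSet.{0} × ZFSet.{0} => ∃ x : Set ℕ, code x ∈ Lc ∅ ∧
        ∃ y : Set ℕ, code y ∈ Lc ∅ ∧ rl x = q.1 ∧ rl y = q.2 ∧
          rl (jn x y) ∈ rset {x | ∃ p ∈ P, ∃ q ∈ P, le p q ∧ x = jn p q}) := by
      refine Am.ex h (R := fun (q : ZFSet.{0} × ZFSet.{0}) (x : Set ℕ) =>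
        ∃ y : Set ℕ, code y ∈ Lc ∅ ∧ rl x = q.1 ∧ rl y = q.2 ∧
          rl (jn x y) ∈ rset {x | ∃ p ∈ P, ∃ q ∈ P, le p q ∧ x = jn p q}) ?_
      refine Am.ex h (R := fun (q : (ZFSet.{0} × ZFSet.{0}) × Set ℕ) (y : Set ℕ) =>
        rl q.2 = q.1.1 ∧ rl y = q.1.2 ∧
          rl (jn q.2 y) ∈ rset {x | ∃ p ∈ P, ∃ q ∈ P, le p q ∧ x = jn p q}) ?_
      have v1 : AmF (Lc ∅) (fun q : ((ZFSet.{0} × ZFSet.{0}) × Set ℕ) × Set ℕ => q.1.2) :=
        (AmF.snd h).comp h (AmF.fst h)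
      have v2 : AmF (Lc ∅) (fun q : ((ZFSet.{0} × ZFSet.{0}) × Set ℕ) × Set ℕ => q.1.1) :=
        (AmF.fst h).comp h (AmF.fst h)
      have v3 : AmF (Lc ∅) (fun q : ((ZFSet.{0} × ZFSet.{0}) × Set ℕ) × Set ℕ => q.2) :=
        AmF.snd h
      refine Am.and h (Am.eq h ((AmF.code h).comp h v1) ((AmF.fst h).comp h v2)) (Am.and h
        (Am.eq h ((AmF.code h).comp h v3) ((AmF.snd h).comp h v2)) ?_)
      exact Am.mem h ((AmF.code h).comp h (AmF.jn h v1 v3)) (AmF.const h _ hle.2)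
    refine h1.congr h fun q _ => ?_
    constructor
    · rintro ⟨x, y, hx, hy, h2, h3, h4⟩
      refine ⟨x, hP.1 x h2, y, hP.1 y h3, hx, hy, ?_⟩
      exact rl_mem_rset.2 ⟨x, h2, y, h3, h4, rfl⟩
    · rintro ⟨x, _, y, _, hx, hy, h2⟩
      obtain ⟨x', h3, y', h4, h5, h6⟩ := rl_mem_rset.1 h2
      obtain ⟨rfl, rfl⟩ := Pool.Agent.Helper44.CL.jn_inj h6
      exact ⟨x, y, hx, hy, h3, h4, h5⟩
  refl a ha := by
    obtain ⟨p, hp, rfl⟩ := mem_rset.1 ha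
    exact lez_rl.2 ⟨hp, hp, hrefl p hp⟩
  trans a ha b hb c hc h1 h2 := by
    obtain ⟨p, hp, rfl⟩ := mem_rset.1 ha
    obtain ⟨q, hq, rfl⟩ := mem_rset.1 hb
    obtain ⟨r, hr, rfl⟩ := mem_rset.1 hc
    exact lez_rl.2 ⟨hp, hr, htrans p hp q hq r hr (lez_rl.1 h1).2.2 (lez_rl.1 h2).2.2⟩
  sub := by
    rintro _ ⟨p, hp, rfl⟩
    exact rl_mem_rset.2 (hG.sub hp)
  up := by
    rintro _ ⟨p, hp, rfl⟩ b hb h1
    obtain ⟨q, hq, rfl⟩ := mem_rset.1 hb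
    exact ⟨q, hG.up p hp q hq (lez_rl.1 h1).2.2, rfl⟩
  dir := by
    rintro _ ⟨p, hp, rfl⟩ _ ⟨q, hq, rfl⟩
    obtain ⟨r, hr, h1, h2⟩ := hG.dir p hp q hq
    exact ⟨rl r, ⟨r, hr, rfl⟩, lez_rl.2 ⟨hG.sub hr, hG.sub hp, h1⟩,
      lez_rl.2 ⟨hG.sub hr, hG.sub hq, h2⟩⟩
  meets := by
    intro D hD hsub hdense
    have h := lc_inner ∅
    have h1 : {x : Set ℕ | rl x ∈ D} ∈ LL2 := by
      refine ⟨fun x hx => h.trans _ hD _ hx, ?_⟩
      refine mem_of_eq ?_ hD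
      ext z
      rw [mem_rset]
      constructor
      · rintro ⟨x, hx, rfl⟩
        exact hx
      · intro hz
        obtain ⟨x, _, rfl⟩ := mem_rset.1 (hsub hz)
        exact ⟨x, hz, rfl⟩
    obtain ⟨p, hp, hpD⟩ := hG.meets _ h1 ⟨fun x hx => rl_mem_rset.1 (hsub hx), fun p hp => by
      obtain ⟨b, hb, hbp⟩ := hdense (rl p) (rl_mem_rset.2 hp)
      obtain ⟨q, hq, rfl⟩ := mem_rset.1 (hsub hb)
      exact ⟨q, hb, (lez_rl.1 hbp).2.2⟩⟩
    exact ⟨rl p, ⟨p, hp, rfl⟩, hpD⟩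

/-- The interface field, from the forceability of the equality of values. -/
theorem namesFor_of (hE : ∀ (P : ZFSet.{0}) (le : ZFSet.{0} → ZFSet.{0} → Prop)
    (G : Set ZFSet.{0}), Forc (Lc ∅) P le G →
      FR (Lc ∅) P le G (fun q : ZFSet.{0} × ZFSet.{0} => vl G q.1 = vl G q.2)) :
    NamesFor ConFrom LL2 := by
  intro P le hP hle hrefl htrans G hG E hEL z hz
  have F := forc_of_generic hP hle hrefl htrans hG
  have hE' := hE _ _ _ F
  have hi : IsInner (Gext (Lc ∅) (rl '' G)) := F.gext_inner hE'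
  have h := lc_inner ∅
  -- the real `g` is in the extension
  have hg : rl {n | ∃ p ∈ G, p ∈ E n} ∈ Gext (Lc ∅) (rl '' G) := by
    apply rl_mem_of_am hi
    have h1 : Am (Gext (Lc ∅) (rl '' G)) (fun n : ℕ => ∃ x : Set ℕ,
        code x ∈ Gext (Lc ∅) (rl '' G) ∧ rl x ∈ ZFSet.sep (fun p => p ∈ rl '' G) (rset P) ∧
          rl (tag n x) ∈ rset {x | ∃ n, ∃ y ∈ E n, x = tag n y}) := by
      refine Am.ex hi (R := fun (n : ℕ) (x : Set ℕ) =>
        rl x ∈ ZFSet.sep (fun p => p ∈ rl '' G) (rset P) ∧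
          rl (tag n x) ∈ rset {x | ∃ n, ∃ y ∈ E n, x = tag n y}) (Am.and hi ?_ ?_)
      · exact Am.mem hi ((AmF.code hi).comp hi (AmF.snd hi)) (AmF.const hi _ F.gen_mem)
      · exact Am.mem hi ((AmF.code hi).comp hi (AmF.tag hi (AmF.fst hi) (AmF.snd hi)))
          (AmF.const hi _ (F.sub_gext hEL.2))
    refine h1.congr hi fun n _ => ?_
    constructor
    · rintro ⟨p, hp, hpE⟩
      refine ⟨p, F.sub_gext (hP.1 p (hG.sub hp)), ?_, rl_mem_rset.2 ⟨n, p, hpE, rfl⟩⟩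
      exact mem_sep.2 ⟨rl_mem_rset.2 (hG.sub hp), p, hp, rfl⟩
    · rintro ⟨x, _, hx, h2⟩
      obtain ⟨_, p, hp, he⟩ := mem_sep.1 hx
      rw [rl_inj he] at hp
      obtain ⟨m, y, hy, h3⟩ := rl_mem_rset.1 h2
      obtain ⟨rfl, rfl⟩ := tag_inj h3
      exact ⟨x, hp, hy⟩
  have hz' : rl z ∈ Gext (Lc ∅) (rl '' G) := lc_subset hi hg hz
  obtain ⟨D, hD, hdense, ht, hf⟩ := F.real_name hE' hz'
  refine ⟨fun e n => {x | x ∈ P ∧ D e n (rl x)}, ?_, ?_, ?_, ?_⟩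
  · intro e
    have hmem : ∀ n y, y ∈ P → rl (tag n y) ∈ Lc ∅ := fun n y hy =>
      (AmF.tag h (f := fun _ : ZFSet.{0} => n) (g := fun _ => y) (AmF.const h n
        (AbsCod.mem h n)) (AmF.const h y (hP.1 y hy))).mem ∅ h.empty_mem
    refine ⟨?_, ?_⟩
    · rintro x ⟨n, y, hy, rfl⟩
      exact hmem n y hy.1
    · refine h.mem_of_am (R := fun z => ∃ n : ℕ, ∃ y : Set ℕ, code y ∈ Lc ∅ ∧
        rl y ∈ rset P ∧ D e n (rl y) ∧ z = rl (tag n y)) ?_ ?_ ?_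
      · intro z hz
        obtain ⟨x, ⟨n, y, hy, rfl⟩, rfl⟩ := mem_rset.1 hz
        exact hmem n y hy.1
      · refine Am.exA h (R := fun (z : ZFSet.{0}) (n : ℕ) => ∃ y : Set ℕ, code y ∈ Lc ∅ ∧
          rl y ∈ rset P ∧ D e n (rl y) ∧ z = rl (tag n y)) ?_
        refine Am.ex h (R := fun (q : ZFSet.{0} × ℕ) (y : Set ℕ) =>
          rl y ∈ rset P ∧ D e q.2 (rl y) ∧ q.1 = rl (tag q.2 y)) ?_
        have vy : AmF (Lc ∅) (fun q : (ZFSet.{0} × ℕ) × Set ℕ => rl q.2) :=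
          (AmF.code h).comp h (AmF.snd (β := Set ℕ) h)
        have vn : AmF (Lc ∅) (fun q : (ZFSet.{0} × ℕ) × Set ℕ => q.1.2) :=
          (AmF.snd h).comp h (AmF.fst h)
        refine Am.and h (Am.mem h vy (AmF.const h _ hP.2)) (Am.and h ?_ ?_)
        · exact (hD e).comp h (f := fun q : (ZFSet.{0} × ℕ) × Set ℕ => (q.1.2, rl q.2))
            (vn.prod h vy)
        · exact Am.eq h ((AmF.fst h).comp h (AmF.fst h)) ((AmF.code h).comp h
            (AmF.tag h vn (AmF.snd h)))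
      · intro z _
        rw [mem_rset]
        constructor
        · rintro ⟨x, ⟨n, y, hy, rfl⟩, rfl⟩
          exact ⟨n, y, hP.1 y hy.1, rl_mem_rset.2 hy.1, hy.2, rfl⟩
        · rintro ⟨n, y, _, h1, h2, rfl⟩
          exact ⟨tag n y, ⟨n, y, ⟨rl_mem_rset.1 h1, h2⟩, rfl⟩, rfl⟩
  · intro n
    refine ⟨?_, ?_⟩
    · rintro x (hx | hx)
      · exact hx.1
      · exact hx.1
    · intro p hp
      obtain ⟨b, hb, hbp, h1⟩ := hdense n (rl p) (rl_mem_rset.2 hp)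
      obtain ⟨q, hq, rfl⟩ := mem_rset.1 hb
      refine ⟨q, ?_, (lez_rl.1 hbp).2.2⟩
      rcases h1 with h1 | h1
      · exact Or.inl ⟨hq, h1⟩
      · exact Or.inr ⟨hq, h1⟩
  · intro n
    rw [ht n]
    constructor
    · rintro ⟨_, ⟨p, hp, rfl⟩, h1⟩
      exact ⟨p, hp, hG.sub hp, h1⟩
    · rintro ⟨p, hp, _, h1⟩
      exact ⟨rl p, ⟨p, hp, rfl⟩, h1⟩
  · intro n
    rw [hf n]
    constructor
    · rintro ⟨_, ⟨p, hp, rfl⟩, h1⟩
      exact ⟨p, hp, hG.sub hp, h1⟩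
    · rintro ⟨p, hp, _, h1⟩
      exact ⟨rl p, ⟨p, hp, rfl⟩, h1⟩

end Pool.Agent.Helper17.CL
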