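import Pool.Agent.Helper17.CL.Calc

/-!
# Project CL: definitions by recursion in inner models
-/

set_option autoImplicit false

namespace Pool.Agent.Helper17.CL

open ZFSet

universe u₁ u₂ u₃

section

variable {M : Set ZFSet.{0}} (h : IsInner M)
variable {α : Type u₁} {β : Type u₂} {γ : Type u₃}
variable [Cod α] [Cod β] [Cod γ]

include h

theorem Am.isTransitive {f : α → ZFSet.{0}} (hf : AmF M f) :
    Am M (fun x => (f x).IsTransitive) := by
  refine (Am.ball h hf (R := fun x z => z ⊆ f x)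
    (Am.subset h (AmF.snd h) (hf.comp h (AmF.fst h)))).congr h fun x _ => ?_
  rfl

theorem Am.isOrdinal {f : α → ZFSet.{0}} (hf : AmF M f) :
    Am M (fun x => (f x).IsOrdinal) := by
  refine ((Am.isTransitive h hf).and h (Am.ball h hf (R := fun _ z => z.IsTransitive)
    (Am.isTransitive h (AmF.snd h)))).congr h fun x _ => ?_
  rw [isOrdinal_iff_forall_mem_isTransitive]

omit h [Cod α] in
/-- Attempts. -/
def Att (H : α → ZFSet.{0} → ZFSet.{0} → ZFSet.{0}) (p : α) (t g : ZFSet.{0}) : Prop :=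
  t.IsTransitive ∧ (∀ z ∈ g, ∃ x ∈ t, z = ZFSet.pair x (app g x)) ∧
    ∀ x ∈ t, ZFSet.pair x (app g x) ∈ g ∧ app g x = H p x (res g x)

omit h [Cod α] in
theorem att_iff {H : α → ZFSet.{0} → ZFSet.{0} → ZFSet.{0}} {F : α → ZFSet.{0} → ZFSet.{0}}
    (hF : ∀ p x, F p x = H p x (gr (F p) x)) {p : α} {t g : ZFSet.{0}} :
    Att H p t g ↔ t.IsTransitive ∧ g = gr (F p) t := by
  constructor
  · rintro ⟨ht, h1, h2⟩
    refine ⟨ht, ?_⟩
    have key : ∀ x, x ∈ t → app g x = F p x := by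
      intro x
      induction x using ZFSet.inductionOn with
      | h x ih =>
        intro hx
        rw [(h2 x hx).2, hF]
        congr 1
        ext z
        unfold res
        rw [mem_sep, mem_gr]
        constructor
        · rintro ⟨hz, y, hy, w, rfl⟩
          have hyt := ht.mem_trans hy hx
          obtain ⟨x', hx', h3⟩ := h1 _ hz
          rw [pair_inj] at h3
          obtain ⟨rfl, rfl⟩ := h3
          exact ⟨y, hy, by rw [ih y hy hyt]⟩
        · rintro ⟨y, hy, rfl⟩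
          have hyt := ht.mem_trans hy hx
          refine ⟨?_, y, hy, _, rfl⟩
          rw [← ih y hy hyt]
          exact (h2 y hyt).1
    ext z
    rw [mem_gr]
    constructor
    · intro hz
      obtain ⟨x, hx, h3⟩ := h1 z hz
      exact ⟨x, hx, by rw [h3, key x hx]⟩
    · rintro ⟨x, hx, rfl⟩
      rw [← key x hx]
      exact (h2 x hx).1
  · rintro ⟨ht, rfl⟩
    refine ⟨ht, ?_, ?_⟩
    · intro z hz
      rw [mem_gr] at hz
      obtain ⟨x, hx, rfl⟩ := hz
      exact ⟨x, hx, by rw [app_gr hx]⟩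
    · intro x hx
      rw [app_gr hx, res_gr (ht.subset_of_mem hx)]
      exact ⟨pair_mem_gr.2 ⟨hx, rfl⟩, hF p x⟩

theorem am_att {H : α → ZFSet.{0} → ZFSet.{0} → ZFSet.{0}}
    (hH : AmF M (fun q : α × ZFSet.{0} × ZFSet.{0} => H q.1 q.2.1 q.2.2)) {p : γ → α}
    {t g : γ → ZFSet.{0}} (hp : AmF M p) (ht : AmF M t) (hg : AmF M g) :
    Am M (fun q : γ => Att H (p q) (t q) (g q)) := by
  unfold Att
  refine (Am.isTransitive h ht).and h (Am.and h ?_ ?_)
  · refine Am.ball h hg (R := fun q z => ∃ x ∈ t q, z = ZFSet.pair x (app (g q) x))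
      (Am.bex h (ht.comp h (AmF.fst h))
        (R := fun (q : γ × ZFSet.{0}) x => q.2 = ZFSet.pair x (app (g q.1) x)) ?_)
    exact Am.eq h ((AmF.snd h).comp h (AmF.fst h)) ((AmF.snd h).pair h
      ((hg.comp h ((AmF.fst h).comp h (AmF.fst h))).app h (AmF.snd h)))
  · refine Am.ball h ht (R := fun q x => ZFSet.pair x (app (g q) x) ∈ g q ∧
      app (g q) x = H (p q) x (res (g q) x)) (Am.and h ?_ ?_)
    · exact Am.mem h ((AmF.snd h).pair h ((hg.comp h (AmF.fst h)).app h (AmF.snd h)))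
        (hg.comp h (AmF.fst h))
    · refine Am.eq h ((hg.comp h (AmF.fst h)).app h (AmF.snd h)) ?_
      exact hH.comp h (f := fun q : γ × ZFSet.{0} => (p q.1, q.2, res (g q.1) q.2))
        ((hp.comp h (AmF.fst h)).prod h ((AmF.snd h).prod h
          ((hg.comp h (AmF.fst h)).res h (AmF.snd h))))

/-- Definitions by recursion on the membership relation. -/
theorem AmF.rec_mem {H : α → ZFSet.{0} → ZFSet.{0} → ZFSet.{0}}
    (hH : AmF M (fun q : α × ZFSet.{0} × ZFSet.{0} => H q.1 q.2.1 q.2.2))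
    {F : α → ZFSet.{0} → ZFSet.{0}} (hF : ∀ p x, F p x = H p x (CL.gr (F p) x)) :
    AmF M (fun q : α × ZFSet.{0} => F q.1 q.2) := by
  have key : ∀ p : α, Cod.code p ∈ M → ∀ x, x ∈ M →
      ∃ t ∈ M, t.IsTransitive ∧ x ∈ t ∧ CL.gr (F p) t ∈ M := by
    intro p hp x
    induction x using ZFSet.inductionOn with
    | h x ih =>
      intro hx
      obtain ⟨b, hb, _, hcol⟩ := h.collect x (fun y t => t.IsTransitive ∧ y ∈ t ∧
        CL.gr (F p) t ∈ M)
      have hB1 : Am M (fun t : ZFSet.{0} => ∃ g : ZFSet.{0}, Cod.code g ∈ M ∧ Att H p t g) :=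
        Am.ex h (R := fun t g => Att H p t g) (am_att h hH (AmF.const h p hp) (AmF.fst h)
          (AmF.snd h))
      obtain ⟨B, hBdef⟩ : ∃ B, B = ZFSet.sep (fun t => ∃ g : ZFSet.{0}, Cod.code g ∈ M ∧
          Att H p t g) b := ⟨_, rfl⟩
      have hB : B ∈ M := by
        rw [hBdef]
        refine mem_of_eq ?_ (hB1 b hb)
        ext z
        simp only [mem_sep, code_set, exists_eq_left]
      have hBmem : ∀ t ∈ B, t.IsTransitive ∧ CL.gr (F p) t ∈ M := by
        intro t ht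
        rw [hBdef, mem_sep] at ht
        obtain ⟨_, g, hg, ha⟩ := ht
        rw [att_iff hF] at ha
        refine ⟨ha.1, ?_⟩
        rw [← ha.2]
        exact hg
      have hT : (⋃₀ B : ZFSet.{0}).IsTransitive :=
        IsTransitive.sUnion' fun t ht => (hBmem t ht).1
      have hxT : x ⊆ (⋃₀ B : ZFSet.{0}) := by
        intro y hy
        obtain ⟨t, ht, ht1, ht2, ht3⟩ := ih y hy (h.trans _ hx _ hy)
        obtain ⟨t', ht', h1, h2, h3⟩ := hcol y hy ⟨t, ht, ht1, ht2, ht3⟩
        rw [mem_sUnion]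
        refine ⟨t', ?_, h2⟩
        rw [hBdef, mem_sep]
        exact ⟨ht', CL.gr (F p) t', h3, (att_iff hF).2 ⟨h1, rfl⟩⟩
      have hG : CL.gr (F p) (⋃₀ B) ∈ M := by
        refine h.mem_of_am (R := fun z => ∃ t ∈ B, ∃ g : ZFSet.{0}, Cod.code g ∈ M ∧
          Att H p t g ∧ z ∈ g) ?_ ?_ ?_
        · intro z hz
          rw [mem_gr] at hz
          obtain ⟨y, hy, rfl⟩ := hz
          obtain ⟨t, ht, hyt⟩ := mem_sUnion.1 hy
          exact h.trans _ (hBmem t ht).2 _ (pair_mem_gr.2 ⟨hyt, rfl⟩)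
        · refine Am.bex h (AmF.const h B hB) (R := fun z t => ∃ g : ZFSet.{0}, Cod.code g ∈ M ∧
            Att H p t g ∧ z ∈ g) (Am.ex h (R := fun (q : ZFSet.{0} × ZFSet.{0}) g =>
              Att H p q.2 g ∧ q.1 ∈ g) (Am.and h ?_ ?_))
          · exact am_att h hH (AmF.const h p hp) ((AmF.snd h).comp h (AmF.fst h)) (AmF.snd h)
          · exact Am.mem h ((AmF.fst h).comp h (AmF.fst h)) (AmF.snd h)
        · intro z _
          rw [mem_gr]
          constructor
          · rintro ⟨y, hy, rfl⟩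
            obtain ⟨t, ht, hyt⟩ := mem_sUnion.1 hy
            exact ⟨t, ht, _, (hBmem t ht).2, (att_iff hF).2 ⟨(hBmem t ht).1, rfl⟩,
              pair_mem_gr.2 ⟨hyt, rfl⟩⟩
          · rintro ⟨t, ht, g, _, ha, hz⟩
            rw [att_iff hF] at ha
            rw [ha.2, mem_gr] at hz
            obtain ⟨y, hy, rfl⟩ := hz
            exact ⟨y, mem_sUnion.2 ⟨t, ht, hy⟩, rfl⟩
      have hFx : F p x ∈ M := by
        rw [hF, ← res_gr hxT]
        exact hH.mem (p, x, _) ((code_mem_prod h).2 ⟨hp, (code_mem_prod h).2 ⟨hx,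
          (AmF.res h (AmF.fst h) (AmF.snd h)).mem (CL.gr (F p) (⋃₀ B), x)
            ((code_mem_prod h).2 ⟨hG, hx⟩)⟩⟩)
      refine ⟨Insert.insert x (⋃₀ B), h.insert_mem hx (h.sUnion_mem hB), ?_, by simp, ?_⟩
      · intro y hy
        rw [mem_insert_iff] at hy
        rcases hy with rfl | hy
        · exact fun z hz => mem_insert_of_mem _ (hxT hz)
        · exact fun z hz => mem_insert_of_mem _ (hT.mem_trans hz hy)
      · refine mem_of_eq ?_ (h.insert_mem (h.pair_mem hx hFx) hG)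
        ext z
        simp only [mem_gr, mem_insert_iff]
        constructor
        · rintro ⟨y, rfl | hy, rfl⟩
          · exact Or.inl rfl
          · exact Or.inr ⟨y, hy, rfl⟩
        · rintro (rfl | ⟨y, hy, rfl⟩)
          · exact ⟨x, Or.inl rfl, rfl⟩
          · exact ⟨y, Or.inr hy, rfl⟩
  refine AmF.mk' ?_ ?_
  · rintro ⟨p, x⟩ hx
    rw [code_mem_prod h] at hx
    obtain ⟨t, _, _, hxt, hg⟩ := key p hx.1 x hx.2
    have h1 := h.trans _ hg _ (pair_mem_gr.2 ⟨hxt, rfl⟩)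
    exact (h.pair_mem_iff.1 h1).2
  · have h1 : Am M (fun q : (α × ZFSet.{0}) × ZFSet.{0} => ∃ t : ZFSet.{0}, Cod.code t ∈ M ∧
        ∃ g : ZFSet.{0}, Cod.code g ∈ M ∧ Att H q.1.1 t g ∧ q.1.2 ∈ t ∧
          ZFSet.pair q.1.2 q.2 ∈ g) := by
      refine Am.ex h (R := fun (q : (α × ZFSet.{0}) × ZFSet.{0}) t => ∃ g : ZFSet.{0},
        Cod.code g ∈ M ∧ Att H q.1.1 t g ∧ q.1.2 ∈ t ∧ ZFSet.pair q.1.2 q.2 ∈ g)
        (Am.ex h (R := fun (q : ((α × ZFSet.{0}) × ZFSet.{0}) × ZFSet.{0}) g =>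
          Att H q.1.1.1 q.2 g ∧ q.1.1.2 ∈ q.2 ∧ ZFSet.pair q.1.1.2 q.1.2 ∈ g) ?_)
      have e1 : AmF M (fun q : (((α × ZFSet.{0}) × ZFSet.{0}) × ZFSet.{0}) × ZFSet.{0} =>
        q.1.1) := (AmF.fst h).comp h (AmF.fst h)
      have e2 : AmF M (fun q : (((α × ZFSet.{0}) × ZFSet.{0}) × ZFSet.{0}) × ZFSet.{0} =>
        q.1.1.1) := (AmF.fst h).comp h e1
      refine Am.and h ?_ (Am.and h ?_ ?_)
      · exact am_att h hH ((AmF.fst h).comp h e2) ((AmF.snd h).comp h (AmF.fst h)) (AmF.snd h)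
      · exact Am.mem h ((AmF.snd h).comp h e2) ((AmF.snd h).comp h (AmF.fst h))
      · exact Am.mem h (((AmF.snd h).comp h e2).pair h ((AmF.snd h).comp h e1)) (AmF.snd h)
    refine h1.congr h fun q hq => ?_
    obtain ⟨⟨p, x⟩, y⟩ := q
    rw [code_mem_prod h, code_mem_prod h] at hq
    simp only at hq ⊢
    constructor
    · rintro rfl
      obtain ⟨t, ht, htt, hxt, hg⟩ := key p hq.1.1 x hq.1.2
      exact ⟨t, ht, _, hg, (att_iff hF).2 ⟨htt, rfl⟩, hxt, pair_mem_gr.2 ⟨hxt, rfl⟩⟩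
    · rintro ⟨t, _, g, _, ha, _, hp⟩
      rw [att_iff hF] at ha
      rw [ha.2, pair_mem_gr] at hp
      exact hp.2.symm

/-! ### Recursion on the ordinals -/

omit h in
open Classical in
/-- The ordinal with the code `x`, or zero. -/
noncomputable def ordOf (x : ZFSet.{0}) : Ordinal.{0} := if x.IsOrdinal then x.rank else 0

omit h in
@[simp] theorem ordOf_toZFSet (o : Ordinal.{0}) : ordOf o.toZFSet = o := by
  unfold ordOf
  rw [if_pos (isOrdinal_toZFSet o), Ordinal.rank_toZFSet]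

omit h in
/-- The graph of `f` on the ordinal `o`. -/
noncomputable def gro (f : Ordinal.{0} → ZFSet.{0}) (o : Ordinal.{0}) : ZFSet.{0} :=
  ZFSet.range (fun a : Set.Iio o => ZFSet.pair a.1.toZFSet (f a))

omit h in
theorem mem_gro {f : Ordinal.{0} → ZFSet.{0}} {o : Ordinal.{0}} {t : ZFSet.{0}} :
    t ∈ gro f o ↔ ∃ a < o, t = ZFSet.pair a.toZFSet (f a) := by
  unfold gro
  rw [mem_range]
  constructor
  · rintro ⟨⟨a, ha⟩, rfl⟩
    exact ⟨a, ha, rfl⟩
  · rintro ⟨a, ha, rfl⟩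
    exact ⟨⟨a, ha⟩, rfl⟩

omit h in
theorem gro_eq (f : Ordinal.{0} → ZFSet.{0}) (o : Ordinal.{0}) :
    gro f o = gr (fun x => f (ordOf x)) o.toZFSet := by
  ext t
  rw [mem_gro, mem_gr]
  constructor
  · rintro ⟨a, ha, rfl⟩
    exact ⟨a.toZFSet, Ordinal.toZFSet_mem_toZFSet_iff.2 ha, by rw [ordOf_toZFSet]⟩
  · rintro ⟨z, hz, rfl⟩
    obtain ⟨a, ha, rfl⟩ := Ordinal.mem_toZFSet_iff.1 hz
    exact ⟨a, ha, by rw [ordOf_toZFSet]⟩

omit h in
theorem app_gro {f : Ordinal.{0} → ZFSet.{0}} {o a : Ordinal.{0}} (ha : a < o) :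
    app (gro f o) a.toZFSet = f a := by
  rw [gro_eq, app_gr (Ordinal.toZFSet_mem_toZFSet_iff.2 ha), ordOf_toZFSet]

theorem AmF.ordOf {f : α → ZFSet.{0}} (hf : AmF M f) : AmF M (fun x => CL.ordOf (f x)) := by
  have h1 : AmF M (fun x : ZFSet.{0} => CL.ordOf x) := by
    refine AmF.mk' (fun x _ => h.ord_mem _) ?_
    refine (((Am.isOrdinal h (AmF.fst h)).and h (Am.eq h (AmF.fst h)
      ((AmF.code h).comp h (AmF.snd (β := Ordinal.{0}) h)))).or h
        (((Am.isOrdinal h (AmF.fst h)).not h).and h (Am.eq h (AmF.const h (0 : Ordinal.{0})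
          (h.ord_mem 0)) (AmF.snd (β := Ordinal.{0}) h)))).congr h fun q _ => ?_
    obtain ⟨x, o⟩ := q
    simp only [code_ord]
    unfold CL.ordOf
    by_cases hx : x.IsOrdinal
    · simp only [hx, if_true, true_and, not_true_eq_false, false_and, or_false]
      constructor
      · rintro rfl
        exact hx.toZFSet_rank_eq.symm
      · rintro rfl
        exact Ordinal.rank_toZFSet o
    · simp only [hx, if_false, false_and, not_false_eq_true, true_and, false_or]
  exact h1.comp h hf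

/-- Definitions by recursion on the ordinals. -/
theorem AmF.rec_ord {H : α → Ordinal.{0} → ZFSet.{0} → ZFSet.{0}}
    (hH : AmF M (fun q : α × Ordinal.{0} × ZFSet.{0} => H q.1 q.2.1 q.2.2))
    {F : α → Ordinal.{0} → ZFSet.{0}} (hF : ∀ p o, F p o = H p o (CL.gro (F p) o)) :
    AmF M (fun q : α × Ordinal.{0} => F q.1 q.2) := by
  classical
  have h1 : AmF M (fun q : α × ZFSet.{0} => (fun p (x : ZFSet.{0}) =>
      if x.IsOrdinal then F p (CL.ordOf x) else ∅) q.1 q.2) := by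
    refine AmF.rec_mem h (H := fun p x g => if x.IsOrdinal then H p (CL.ordOf x) g else ∅)
      (F := fun p (x : ZFSet.{0}) => if x.IsOrdinal then F p (CL.ordOf x) else ∅) ?_ ?_
    · refine AmF.ite h (R := fun q : α × ZFSet.{0} × ZFSet.{0} => q.2.1.IsOrdinal)
        (f := fun q => H q.1 (CL.ordOf q.2.1) q.2.2)
        (Am.isOrdinal h ((AmF.fst h).comp h (AmF.snd h))) ?_ (AmF.empty h)
      exact hH.comp h (f := fun q : α × ZFSet.{0} × ZFSet.{0} => (q.1, CL.ordOf q.2.1, q.2.2))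
        ((AmF.fst h).prod h ((AmF.ordOf h ((AmF.fst h).comp h (AmF.snd h))).prod h
          ((AmF.snd h).comp h (AmF.snd h))))
    · intro p x
      by_cases hx : x.IsOrdinal
      · rw [if_pos hx, if_pos hx, hF]
        congr 1
        rw [CL.gro_eq]
        have h2 : (CL.ordOf x).toZFSet = x := by
          unfold CL.ordOf
          rw [if_pos hx]
          exact hx.toZFSet_rank_eq
        rw [h2]
        ext t
        rw [mem_gr, mem_gr]
        refine exists_congr fun z => and_congr_right fun hz => ?_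
        rw [if_pos (hx.mem hz)]
      · rw [if_neg hx, if_neg hx]
  have h2 := h1.comp h (f := fun q : α × Ordinal.{0} => (q.1, q.2.toZFSet))
    ((AmF.fst h).prod h ((AmF.code h).comp h (AmF.snd (β := Ordinal.{0}) h)))
  simpa only [ordOf_toZFSet, isOrdinal_toZFSet, if_true] using h2

/-! ### Recursion on the natural numbers -/

/-- Definitions by recursion on the natural numbers, for functions with values in a coded type. -/
theorem AmF.rec_nat {G : α → β} {H : α → ℕ → β → β} {F : α → ℕ → β} (hG : AmF M G)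
    (hH : AmF M (fun q : α × ℕ × β => H q.1 q.2.1 q.2.2)) (hF0 : ∀ p, F p 0 = G p)
    (hFS : ∀ p n, F p (n + 1) = H p n (F p n)) : AmF M (fun q : α × ℕ => F q.1 q.2) := by
  classical
  -- the set valued function
  obtain ⟨F', hF'⟩ : ∃ F' : α → ZFSet.{0} → ZFSet.{0}, F' = fun p x =>
    if hx : ∃ n : ℕ, x = nat n then Cod.code (F p hx.choose) else ∅ := ⟨_, rfl⟩
  have hF'n : ∀ p n, F' p (nat n) = Cod.code (F p n) := by
    intro p n
    have hx : ∃ m : ℕ, nat n = nat m := ⟨n, rfl⟩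
    rw [hF']
    simp only
    rw [dif_pos hx, ← nat_inj hx.choose_spec]
  have hF'e : ∀ p x, (¬ ∃ n : ℕ, x = nat n) → F' p x = ∅ := by
    intro p x hx
    rw [hF']
    simp only
    rw [dif_neg hx]
  obtain ⟨H', hH'⟩ : ∃ H' : α → ZFSet.{0} → ZFSet.{0} → ZFSet.{0}, H' = fun p x g =>
    if x = ∅ then Cod.code (G p) else
      if hx : ∃ (k : ℕ) (y : β), x = nat (k + 1) ∧ Cod.code y = CL.app g (nat k) then
        Cod.code (H p hx.choose hx.choose_spec.choose) else ∅ := ⟨_, rfl⟩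
  have hH'0 : ∀ p g, H' p ∅ g = Cod.code (G p) := by
    intro p g
    rw [hH']
    exact if_pos rfl
  have hsucc : ∀ k : ℕ, nat (k + 1) ≠ ∅ := by
    intro k hk
    rw [← nat_zero] at hk
    exact absurd (nat_inj hk) (by omega)
  have hH'S : ∀ p g k (y : β), Cod.code y = CL.app g (nat k) →
      H' p (nat (k + 1)) g = Cod.code (H p k y) := by
    intro p g k y hy
    have hx : ∃ (k' : ℕ) (y' : β), nat (k + 1) = nat (k' + 1) ∧
      Cod.code y' = CL.app g (nat k') := ⟨k, y, rfl, hy⟩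
    rw [hH']
    simp only
    rw [if_neg (hsucc k), dif_pos hx]
    have h1 := hx.choose_spec.choose_spec
    have h2 : hx.choose = k := by
      have := nat_inj h1.1
      omega
    have h3 : hx.choose_spec.choose = y := by
      apply Cod.inj
      rw [h1.2, hy, h2]
    have h4 : ∀ (k' : ℕ) (y' : β), k' = k → y' = y →
        Cod.code (H p k' y') = Cod.code (H p k y) := by
      rintro k' y' rfl rfl
      rfl
    exact h4 _ _ h2 h3
  have hH'e : ∀ p x g, x ≠ ∅ → (¬ ∃ (k : ℕ) (y : β), x = nat (k + 1) ∧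
      Cod.code y = CL.app g (nat k)) → H' p x g = ∅ := by
    intro p x g hx hx'
    rw [hH']
    simp only
    rw [if_neg hx, dif_neg hx']
  have hrec : ∀ p x, F' p x = H' p x (CL.gr (F' p) x) := by
    intro p x
    by_cases hx : ∃ n : ℕ, x = nat n
    · obtain ⟨n, rfl⟩ := hx
      rw [hF'n]
      cases n with
      | zero => rw [nat_zero, hH'0, hF0]
      | succ k =>
        rw [hH'S p _ k (F p k), hFS]
        rw [app_gr (nat_mem_nat.2 (Nat.lt_succ_self k)), hF'n]
    · rw [hF'e p x hx, hH'e]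
      · rintro rfl
        exact hx ⟨0, nat_zero.symm⟩
      · rintro ⟨k, y, h1, _⟩
        exact hx ⟨k + 1, h1⟩
  -- the amenability of `H'`
  have hH'a : AmF M (fun q : α × ZFSet.{0} × ZFSet.{0} => H' q.1 q.2.1 q.2.2) := by
    have hE : Am M (fun q : α × ZFSet.{0} × ZFSet.{0} => ∃ (k : ℕ), ∃ (y : β), Cod.code y ∈ M ∧
        q.2.1 = nat (k + 1) ∧ Cod.code y = CL.app q.2.2 (nat k)) := by
      refine Am.exA h (R := fun (q : α × ZFSet.{0} × ZFSet.{0}) (k : ℕ) => ∃ (y : β),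
        Cod.code y ∈ M ∧ q.2.1 = nat (k + 1) ∧ Cod.code y = CL.app q.2.2 (nat k))
        (Am.ex h (R := fun (q : (α × ZFSet.{0} × ZFSet.{0}) × ℕ) (y : β) =>
          q.1.2.1 = nat (q.2 + 1) ∧ Cod.code y = CL.app q.1.2.2 (nat q.2)) (Am.and h ?_ ?_))
      · exact Am.eq h ((AmF.fst h).comp h ((AmF.snd h).comp h ((AmF.fst h).comp h (AmF.fst h))))
          ((AmF.code h).comp h (AmF.natSucc h ((AmF.snd h).comp h (AmF.fst h))))
      · exact Am.eq h ((AmF.code h).comp h (AmF.snd h)) (AmF.app h ((AmF.snd h).comp h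
          ((AmF.snd h).comp h ((AmF.fst h).comp h (AmF.fst h))))
            ((AmF.code h).comp h ((AmF.snd h).comp h (AmF.fst h))))
    refine AmF.mk' ?_ ?_
    · rintro ⟨p, x, g⟩ hq
      rw [code_mem_prod h, code_mem_prod h] at hq
      simp only at hq ⊢
      by_cases hx : x = ∅
      · subst hx
        rw [hH'0]
        exact hG.mem p hq.1
      · by_cases hx' : ∃ (k : ℕ) (y : β), x = nat (k + 1) ∧ Cod.code y = CL.app g (nat k)
        · obtain ⟨k, y, rfl, hy⟩ := hx'
          rw [hH'S p g k y hy]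
          have hyM : Cod.code y ∈ M := by
            rw [hy]
            exact (AmF.app h (AmF.fst h) (AmF.snd h)).mem (g, nat k)
              ((code_mem_prod h).2 ⟨hq.2.2, AbsCod.mem h k⟩)
          exact hH.mem (p, k, y) ((code_mem_prod h).2 ⟨hq.1, (code_mem_prod h).2
            ⟨AbsCod.mem h k, hyM⟩⟩)
        · rw [hH'e p x g hx hx']
          exact h.empty_mem
    · have hD : Am M (fun q : (α × ZFSet.{0} × ZFSet.{0}) × ZFSet.{0} =>
          (q.1.2.1 = ∅ ∧ q.2 = Cod.code (G q.1.1)) ∨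
          (q.1.2.1 ≠ ∅ ∧ ∃ (k : ℕ), ∃ (y : β), Cod.code y ∈ M ∧ (q.1.2.1 = nat (k + 1) ∧
            Cod.code y = CL.app q.1.2.2 (nat k)) ∧ q.2 = Cod.code (H q.1.1 k y)) ∨
          (q.1.2.1 ≠ ∅ ∧ (¬ ∃ (k : ℕ), ∃ (y : β), Cod.code y ∈ M ∧ q.1.2.1 = nat (k + 1) ∧
            Cod.code y = CL.app q.1.2.2 (nat k)) ∧ q.2 = ∅)) := by
        have e1 : Am M (fun q : (α × ZFSet.{0} × ZFSet.{0}) × ZFSet.{0} => q.1.2.1 = ∅) :=
          Am.eq h ((AmF.fst h).comp h ((AmF.snd h).comp h (AmF.fst h))) (AmF.empty h)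
        refine Am.or h (Am.and h e1 ?_) (Am.or h (Am.and h (e1.not h) ?_)
          (Am.and h (e1.not h) (Am.and h (Am.not h ?_) ?_)))
        · exact Am.eq h (AmF.snd h) ((AmF.code h).comp h (hG.comp h ((AmF.fst h).comp h
            (AmF.fst h))))
        · refine Am.exA h (R := fun (q : (α × ZFSet.{0} × ZFSet.{0}) × ZFSet.{0}) (k : ℕ) =>
            ∃ (y : β), Cod.code y ∈ M ∧ (q.1.2.1 = nat (k + 1) ∧
            Cod.code y = CL.app q.1.2.2 (nat k)) ∧ q.2 = Cod.code (H q.1.1 k y))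
            (Am.ex h (R := fun (q : ((α × ZFSet.{0} × ZFSet.{0}) × ZFSet.{0}) × ℕ) (y : β) =>
              (q.1.1.2.1 = nat (q.2 + 1) ∧ Cod.code y = CL.app q.1.1.2.2 (nat q.2)) ∧
                q.1.2 = Cod.code (H q.1.1.1 q.2 y)) (Am.and h (Am.and h ?_ ?_) ?_))
          · exact Am.eq h ((AmF.fst h).comp h ((AmF.snd h).comp h ((AmF.fst h).comp h
              ((AmF.fst h).comp h (AmF.fst h)))))
              ((AmF.code h).comp h (AmF.natSucc h ((AmF.snd h).comp h (AmF.fst h))))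
          · exact Am.eq h ((AmF.code h).comp h (AmF.snd h)) (AmF.app h ((AmF.snd h).comp h
              ((AmF.snd h).comp h ((AmF.fst h).comp h ((AmF.fst h).comp h (AmF.fst h)))))
              ((AmF.code h).comp h ((AmF.snd h).comp h (AmF.fst h))))
          · refine Am.eq h ((AmF.snd h).comp h ((AmF.fst h).comp h (AmF.fst h)))
              ((AmF.code h).comp h ?_)
            exact hH.comp h (f := fun q : (((α × ZFSet.{0} × ZFSet.{0}) × ZFSet.{0}) × ℕ) × β =>
              (q.1.1.1.1, q.1.2, q.2)) (((AmF.fst h).comp h ((AmF.fst h).comp h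
                ((AmF.fst h).comp h (AmF.fst h)))).prod h
                  (((AmF.snd h).comp h (AmF.fst h)).prod h (AmF.snd h)))
        · exact hE.comp h (AmF.fst h)
        · exact Am.eq h (AmF.snd h) (AmF.empty h)
      refine hD.congr h ?_
      rintro ⟨⟨p, x, g⟩, w⟩ hq
      rw [code_mem_prod h, code_mem_prod h, code_mem_prod h] at hq
      simp only at hq ⊢
      have happ : ∀ (k : ℕ) (y : β), Cod.code y = CL.app g (nat k) → Cod.code y ∈ M := by
        intro k y hy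
        rw [hy]
        exact (AmF.app h (AmF.fst h) (AmF.snd h)).mem (g, nat k)
          ((code_mem_prod h).2 ⟨hq.1.2.2, AbsCod.mem h k⟩)
      constructor
      · rintro rfl
        by_cases hx : x = ∅
        · subst hx
          exact Or.inl ⟨rfl, hH'0 p g⟩
        · by_cases hx' : ∃ (k : ℕ) (y : β), x = nat (k + 1) ∧ Cod.code y = CL.app g (nat k)
          · obtain ⟨k, y, rfl, hy⟩ := hx'
            exact Or.inr (Or.inl ⟨hx, k, y, happ k y hy, ⟨rfl, hy⟩, hH'S p g k y hy⟩)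
          · refine Or.inr (Or.inr ⟨hx, ?_, hH'e p x g hx hx'⟩)
            rintro ⟨k, y, _, h1, h2⟩
            exact hx' ⟨k, y, h1, h2⟩
      · rintro (⟨rfl, rfl⟩ | ⟨_, k, y, _, ⟨rfl, hy⟩, rfl⟩ | ⟨hx, hx', rfl⟩)
        · exact hH'0 p g
        · exact hH'S p g k y hy
        · refine hH'e p x g hx ?_
          rintro ⟨k, y, h1, h2⟩
          exact hx' ⟨k, y, happ k y h2, h1, h2⟩
  have hfin := AmF.rec_mem h hH'a hrec
  refine AmF.mk' ?_ ?_
  · rintro ⟨p, n⟩ hq
    rw [code_mem_prod h] at hq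
    have h1 := hfin.mem (p, nat n) ((code_mem_prod h).2 ⟨hq.1, AbsCod.mem h n⟩)
    simp only [hF'n] at h1
    exact h1
  · have h1 : Am M (fun q : (α × ℕ) × β => F' q.1.1 (Cod.code q.1.2) = Cod.code q.2) := by
      refine Am.eq h ?_ ((AmF.code h).comp h (AmF.snd h))
      exact hfin.comp h (f := fun q : (α × ℕ) × β => (q.1.1, Cod.code q.1.2))
        (((AmF.fst h).comp h (AmF.fst h)).prod h ((AmF.code h).comp h
          ((AmF.snd h).comp h (AmF.fst h))))
    refine h1.congr h fun q _ => ?_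
    rw [code_nat, hF'n]
    exact (Cod.inj.eq_iff).symm

end

end Pool.Agent.Helper17.CL
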