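import Pool.Agent.Helper17.CL.ListC
import Pool.Agent.Helper17.CL.Inner
import Pool.Agent.Helper8.CL.Nat

/-!
# Project CL: satisfaction of coded formulas; the definable subsets
-/

set_option autoImplicit false

namespace Pool.Agent.Helper17.CL

open ZFSet

universe u₁ u₂ u₃

/-- The formula with the number `n`. -/
def fdec (n : ℕ) : Fml :=
  if n % 4 = 0 then .mem (n / 4).unpair.1 (n / 4).unpair.2
  else if n % 4 = 1 then .eq (n / 4).unpair.1 (n / 4).unpair.2
  else if n % 4 = 2 then .nand (fdec (n / 4).unpair.1) (fdec (n / 4).unpair.2)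
  else .all (fdec (n / 4))
termination_by n
decreasing_by
  · have := Nat.unpair_left_le (n / 4)
    omega
  · have := Nat.unpair_right_le (n / 4)
    omega
  · omega

theorem fdec_surj (φ : Fml) : ∃ n, fdec n = φ := by
  induction φ with
  | mem i j =>
    refine ⟨4 * Nat.pair i j, ?_⟩
    rw [fdec]
    have h1 : 4 * Nat.pair i j / 4 = Nat.pair i j := by omega
    simp [h1]
  | eq i j =>
    refine ⟨4 * Nat.pair i j + 1, ?_⟩
    rw [fdec]
    have h1 : (4 * Nat.pair i j + 1) / 4 = Nat.pair i j := by omega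
    have h2 : (4 * Nat.pair i j + 1) % 4 = 1 := by omega
    simp [h1, h2]
  | nand φ ψ ih1 ih2 =>
    obtain ⟨a, ha⟩ := ih1
    obtain ⟨b, hb⟩ := ih2
    refine ⟨4 * Nat.pair a b + 2, ?_⟩
    rw [fdec]
    have h1 : (4 * Nat.pair a b + 2) / 4 = Nat.pair a b := by omega
    have h2 : (4 * Nat.pair a b + 2) % 4 = 2 := by omega
    simp [h1, h2, ha, hb]
  | all φ ih =>
    obtain ⟨a, ha⟩ := ih
    refine ⟨4 * a + 3, ?_⟩
    rw [fdec]
    have h1 : (4 * a + 3) / 4 = a := by omega
    have h2 : (4 * a + 3) % 4 = 3 := by omega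
    simp [h1, h2, ha]

theorem sat_nand {u : Set ZFSet.{0}} {φ ψ : Fml} {v : ℕ → ZFSet.{0}} :
    Sat u (.nand φ ψ) v ↔ ¬ (Sat u φ v ∧ Sat u ψ v) := Iff.rfl

theorem sat_all {u : Set ZFSet.{0}} {φ : Fml} {v : ℕ → ZFSet.{0}} :
    Sat u (.all φ) v ↔ ∀ a ∈ u, Sat u φ (cons a v) := Iff.rfl

/-- The assignment given by the list `l`, with the default value `d`. -/
def env (d : ZFSet.{0}) (l : List ZFSet.{0}) (i : ℕ) : ZFSet.{0} := l.getD i d

theorem env_cons (d a : ZFSet.{0}) (l : List ZFSet.{0}) : env d (a :: l) = cons a (env d l) := by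
  funext i
  cases i with
  | zero => rfl
  | succ i => rfl

theorem env_mem {d u : ZFSet.{0}} {l : List ZFSet.{0}} (hd : d ∈ u) (hl : ∀ a ∈ l, a ∈ u)
    (i : ℕ) : env d l i ∈ u := by
  unfold env
  by_cases hi : i < l.length
  · rw [List.getD_eq_getElem _ _ hi]
    exact hl _ (List.getElem_mem hi)
  · rw [List.getD_eq_default _ _ (not_lt.1 hi)]
    exact hd

theorem sat_fin (φ : Fml) : ∃ k : ℕ, ∀ (u : Set ZFSet.{0}) (v w : ℕ → ZFSet.{0}),
    (∀ i < k, v i = w i) → (Sat u φ v ↔ Sat u φ w) := by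
  induction φ with
  | mem i j =>
    refine ⟨max i j + 1, fun u v w e => ?_⟩
    unfold Sat
    rw [e i (by omega), e j (by omega)]
  | eq i j =>
    refine ⟨max i j + 1, fun u v w e => ?_⟩
    unfold Sat
    rw [e i (by omega), e j (by omega)]
  | nand φ ψ ih1 ih2 =>
    obtain ⟨k1, h1⟩ := ih1
    obtain ⟨k2, h2⟩ := ih2
    refine ⟨max k1 k2, fun u v w e => ?_⟩
    unfold Sat
    rw [h1 u v w fun i hi => e i (lt_of_lt_of_le hi (le_max_left _ _)),
      h2 u v w fun i hi => e i (lt_of_lt_of_le hi (le_max_right _ _))]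
  | all φ ih =>
    obtain ⟨k, hk⟩ := ih
    refine ⟨k, fun u v w e => ?_⟩
    unfold Sat
    refine forall_congr' fun a => imp_congr_right fun _ => hk u _ _ fun i hi => ?_
    cases i with
    | zero => rfl
    | succ i => exact e i (by omega)

/-- The lists which satisfy the formula with the number `n` in `u`. -/
noncomputable def SatS (u d : ZFSet.{0}) (n : ℕ) : ZFSet.{0} :=
  ZFSet.sep (fun c => ∃ l : List ZFSet.{0}, code l = c ∧ Sat (u : Set ZFSet.{0}) (fdec n) (env d l))
    (lists u)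

theorem code_mem_satS {u d : ZFSet.{0}} {n : ℕ} {l : List ZFSet.{0}} :
    code l ∈ SatS u d n ↔ (∀ a ∈ l, a ∈ u) ∧ Sat (u : Set ZFSet.{0}) (fdec n) (env d l) := by
  unfold SatS
  rw [mem_sep, mem_lists]
  constructor
  · rintro ⟨⟨l', h1, h2⟩, l'', h3, h4⟩
    have h5 := Cod.inj h2
    have h6 := Cod.inj h3
    subst h5
    subst h6
    exact ⟨h1, h4⟩
  · rintro ⟨h1, h2⟩
    exact ⟨⟨l, h1, rfl⟩, l, rfl, h2⟩

section

variable {M : Set ZFSet.{0}} (h : IsInner M)
variable {α : Type u₁} {β : Type u₂} {γ : Type u₃}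
variable [Cod α] [Cod β] [Cod γ]

include h

/-- Course of values recursion. -/
theorem AmF.rec_nat' {H : α → ℕ → List β → β} {F : α → ℕ → β}
    (hH : AmF M (fun q : α × ℕ × List β => H q.1 q.2.1 q.2.2))
    (hF : ∀ p n, F p n = H p n ((List.range n).map (F p))) :
    AmF M (fun q : α × ℕ => F q.1 q.2) := by
  have h1 : AmF M (fun q : α × ℕ => (List.range q.2).map (F q.1)) := by
    refine AmF.rec_nat h (F := fun p n => (List.range n).map (F p)) (G := fun _ => ([] : List β))
      (H := fun p n l => l ++ [H p n l]) (AmF.nil h) ?_ (fun _ => rfl) (fun p n => ?_)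
    · exact AmF.append h ((AmF.snd h).comp h (AmF.snd h)) (AmF.lcons h hH (AmF.nil h))
    · rw [List.range_succ, List.map_append, ← hF]
      rfl
  refine (hH.comp h (f := fun q : α × ℕ => (q.1, q.2, (List.range q.2).map (F q.1)))
    ((AmF.fst h).prod h ((AmF.snd h).prod h h1))).congr h fun q _ => ?_
  exact hF _ _

theorem AmF.satS {f g : α → ZFSet.{0}} {k : α → ℕ} (hf : AmF M f) (hg : AmF M g)
    (hk : AmF M k) : AmF M (fun x => CL.SatS (f x) (g x) (k x)) := by
  have h1 : AmF M (fun q : (ZFSet.{0} × ZFSet.{0}) × ℕ => CL.SatS q.1.1 q.1.2 q.2) := by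
    refine AmF.rec_nat' h (F := fun (p : ZFSet.{0} × ZFSet.{0}) n => CL.SatS p.1 p.2 n)
      (H := fun (p : ZFSet.{0} × ZFSet.{0}) (n : ℕ) (L : List ZFSet.{0}) =>
        ZFSet.sep (fun c => ∃ l : List ZFSet.{0}, Cod.code l = c ∧
        ((n % 4 = 0 ∧ l.getD (n / 4).unpair.1 p.2 ∈ l.getD (n / 4).unpair.2 p.2) ∨
        (n % 4 = 1 ∧ l.getD (n / 4).unpair.1 p.2 = l.getD (n / 4).unpair.2 p.2) ∨
        (n % 4 = 2 ∧ ¬ (c ∈ L.getD (n / 4).unpair.1 ∅ ∧ c ∈ L.getD (n / 4).unpair.2 ∅)) ∨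
        (n % 4 = 3 ∧ ∀ x ∈ p.1, Cod.code (x :: l) ∈ L.getD (n / 4) ∅))) (CL.lists p.1)) ?_ ?_
    · refine AmF.sep h (g := fun q : (ZFSet.{0} × ZFSet.{0}) × ℕ × List ZFSet.{0} =>
        CL.lists q.1.1) (AmF.lists h ((AmF.fst h).comp h (AmF.fst h))) ?_
      refine Am.congr (R := fun x : ((ZFSet.{0} × ZFSet.{0}) × ℕ × List ZFSet.{0}) × ZFSet.{0} =>
        ∃ l : List ZFSet.{0}, Cod.code l ∈ M ∧ Cod.code l = x.2 ∧
        ((x.1.2.1 % 4 = 0 ∧ l.getD (x.1.2.1 / 4).unpair.1 x.1.1.2 ∈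
            l.getD (x.1.2.1 / 4).unpair.2 x.1.1.2) ∨
        (x.1.2.1 % 4 = 1 ∧ l.getD (x.1.2.1 / 4).unpair.1 x.1.1.2 =
            l.getD (x.1.2.1 / 4).unpair.2 x.1.1.2) ∨
        (x.1.2.1 % 4 = 2 ∧ ¬ (x.2 ∈ x.1.2.2.getD (x.1.2.1 / 4).unpair.1 ∅ ∧
          x.2 ∈ x.1.2.2.getD (x.1.2.1 / 4).unpair.2 ∅)) ∨
        (x.1.2.1 % 4 = 3 ∧ ∀ z ∈ x.1.1.1, Cod.code (z :: l) ∈ x.1.2.2.getD (x.1.2.1 / 4) ∅)))
          ?_ h fun x hx => ?_
      · refine Am.ex h (R := fun (x : ((ZFSet.{0} × ZFSet.{0}) × ℕ × List ZFSet.{0}) × ZFSet.{0})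
          (l : List ZFSet.{0}) => Cod.code l = x.2 ∧
          ((x.1.2.1 % 4 = 0 ∧ l.getD (x.1.2.1 / 4).unpair.1 x.1.1.2 ∈
              l.getD (x.1.2.1 / 4).unpair.2 x.1.1.2) ∨
          (x.1.2.1 % 4 = 1 ∧ l.getD (x.1.2.1 / 4).unpair.1 x.1.1.2 =
              l.getD (x.1.2.1 / 4).unpair.2 x.1.1.2) ∨
          (x.1.2.1 % 4 = 2 ∧ ¬ (x.2 ∈ x.1.2.2.getD (x.1.2.1 / 4).unpair.1 ∅ ∧
            x.2 ∈ x.1.2.2.getD (x.1.2.1 / 4).unpair.2 ∅)) ∨
          (x.1.2.1 % 4 = 3 ∧ ∀ z ∈ x.1.1.1, Cod.code (z :: l) ∈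
            x.1.2.2.getD (x.1.2.1 / 4) ∅))) ?_
        -- the variables
        let C := (((ZFSet.{0} × ZFSet.{0}) × ℕ × List ZFSet.{0}) × ZFSet.{0}) × List ZFSet.{0}
        have vl : AmF M (fun y : C => y.2) := AmF.snd h
        have vc : AmF M (fun y : C => y.1.2) := (AmF.snd h).comp h (AmF.fst h)
        have vp : AmF M (fun y : C => y.1.1.1) := (AmF.fst h).comp h ((AmF.fst h).comp h
          (AmF.fst h))
        have vr : AmF M (fun y : C => y.1.1.2) := (AmF.snd h).comp h ((AmF.fst h).comp h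
          (AmF.fst h))
        have vu : AmF M (fun y : C => y.1.1.1.1) := (AmF.fst h).comp h vp
        have vd : AmF M (fun y : C => y.1.1.1.2) := (AmF.snd h).comp h vp
        have vn : AmF M (fun y : C => y.1.1.2.1) := (AmF.fst h).comp h vr
        have vL : AmF M (fun y : C => y.1.1.2.2) := (AmF.snd h).comp h vr
        have vm : AmF M (fun y : C => y.1.1.2.1 % 4) :=
          AmF.primrec h (f := fun n => n % 4) (Primrec.nat_mod.comp Primrec.id
            (Primrec.const 4)) vn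
        have vq : AmF M (fun y : C => y.1.1.2.1 / 4) :=
          AmF.primrec h (f := fun n => n / 4) (Primrec.nat_div.comp Primrec.id
            (Primrec.const 4)) vn
        have va : AmF M (fun y : C => (y.1.1.2.1 / 4).unpair.1) :=
          (AmF.fst h).comp h (AmF.natUnpair h vq)
        have vb : AmF M (fun y : C => (y.1.1.2.1 / 4).unpair.2) :=
          (AmF.snd h).comp h (AmF.natUnpair h vq)
        have vk : ∀ k : ℕ, Am M (fun y : C => y.1.1.2.1 % 4 = k) := fun k =>
          Am.eq h vm (AmF.const h k (AbsCod.mem h k))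
        refine Am.and h (Am.eq h ((AmF.code h).comp h vl) vc) ?_
        refine Am.or h (Am.and h (vk 0) (Am.mem h (AmF.getD h vl va vd)
          (AmF.getD h vl vb vd))) ?_
        refine Am.or h (Am.and h (vk 1) (Am.eq h (AmF.getD h vl va vd)
          (AmF.getD h vl vb vd))) ?_
        refine Am.or h (Am.and h (vk 2) (Am.not h (Am.and h (Am.mem h vc (AmF.getD h vL va
          (AmF.empty h))) (Am.mem h vc (AmF.getD h vL vb (AmF.empty h)))))) ?_
        refine Am.and h (vk 3) (Am.ball h (f := fun y : C => y.1.1.1.1) vu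
          (R := fun (y : C) z => Cod.code (z :: y.2) ∈ y.1.1.2.2.getD (y.1.1.2.1 / 4) ∅) ?_)
        exact Am.mem h ((AmF.code h).comp h (AmF.lcons h (AmF.snd h) (vl.comp h (AmF.fst h))))
          (AmF.getD h (vL.comp h (AmF.fst h)) (vq.comp h (AmF.fst h)) (AmF.empty h))
      · refine exists_congr fun l => ?_
        constructor
        · rintro ⟨h1, h2⟩
          refine ⟨?_, h1, h2⟩
          rw [h1]
          exact ((code_mem_prod h).1 hx).2
        · rintro ⟨_, h1, h2⟩
          exact ⟨h1, h2⟩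
    · rintro ⟨u, d⟩ n
      have hL : ∀ m < n, ((List.range n).map (CL.SatS u d)).getD m ∅ = CL.SatS u d m := by
        intro m hm
        rw [List.getD_eq_getElem _ _ (by simpa using hm)]
        simp
      have hl4 : n % 4 < 4 := Nat.mod_lt _ (by norm_num)
      have hun1 := Nat.unpair_left_le (n / 4)
      have hun2 := Nat.unpair_right_le (n / 4)
      have hdiv : n % 4 ≠ 0 → n / 4 < n := by omega
      ext c
      simp only
      rw [mem_sep]
      have key : ∀ l : List ZFSet.{0}, (∀ a ∈ l, a ∈ u) →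
          (Sat (u : Set ZFSet.{0}) (fdec n) (env d l) ↔
          ((n % 4 = 0 ∧ l.getD (n / 4).unpair.1 d ∈ l.getD (n / 4).unpair.2 d) ∨
          (n % 4 = 1 ∧ l.getD (n / 4).unpair.1 d = l.getD (n / 4).unpair.2 d) ∨
          (n % 4 = 2 ∧ ¬ (Cod.code l ∈ ((List.range n).map (CL.SatS u d)).getD
            (n / 4).unpair.1 ∅ ∧
            Cod.code l ∈ ((List.range n).map (CL.SatS u d)).getD (n / 4).unpair.2 ∅)) ∨
          (n % 4 = 3 ∧ ∀ x ∈ u, Cod.code (x :: l) ∈
            ((List.range n).map (CL.SatS u d)).getD (n / 4) ∅))) := by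
        intro l hl
        rw [fdec]
        by_cases c0 : n % 4 = 0
        · rw [if_pos c0]
          simp only [c0, true_and, OfNat.zero_ne_ofNat, false_and, or_false, zero_ne_one]
          rfl
        rw [if_neg c0]
        by_cases c1 : n % 4 = 1
        · rw [if_pos c1]
          simp only [c1, true_and, OfNat.one_ne_ofNat, false_and, or_false, one_ne_zero,
            false_or]
          rfl
        rw [if_neg c1]
        by_cases c2 : n % 4 = 2
        · rw [if_pos c2, hL _ (by omega), hL _ (by omega), code_mem_satS, code_mem_satS]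
          simp only [c2, true_and, OfNat.ofNat_ne_zero, false_and, OfNat.ofNat_ne_one,
            false_or, Nat.reduceEqDiff, or_false]
          rw [sat_nand, and_iff_right hl, and_iff_right hl]
        rw [if_neg c2, hL (n / 4) (by omega)]
        have c3 : n % 4 = 3 := by omega
        simp only [c3, true_and, OfNat.ofNat_ne_zero, false_and, OfNat.ofNat_ne_one,
          false_or, Nat.reduceEqDiff]
        rw [sat_all]
        refine forall_congr' fun x => forall_congr' fun hx => ?_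
        rw [code_mem_satS, env_cons]
        constructor
        · intro h1
          refine ⟨?_, h1⟩
          intro a ha
          rcases List.mem_cons.1 ha with rfl | ha
          · exact hx
          · exact hl a ha
        · exact fun h1 => h1.2
      constructor
      · intro hc
        unfold CL.SatS at hc
        rw [mem_sep] at hc
        obtain ⟨hc, l, rfl, h1⟩ := hc
        refine ⟨hc, l, rfl, ?_⟩
        obtain ⟨l', hl', he⟩ := mem_lists.1 hc
        rw [← Cod.inj he] at hl'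
        exact (key l hl').1 h1
      · rintro ⟨hc, l, rfl, h1⟩
        obtain ⟨l', hl', he⟩ := mem_lists.1 hc
        rw [← Cod.inj he] at hl'
        exact code_mem_satS.2 ⟨hl', (key l hl').2 h1⟩
  exact h1.comp h (f := fun x => ((f x, g x), k x)) ((hf.prod h hg).prod h hk)

theorem Am.sat {f g : α → ZFSet.{0}} {l : α → List ZFSet.{0}} {k : α → ℕ} (hf : AmF M f)
    (hg : AmF M g) (hl : AmF M l) (hk : AmF M k) :
    Am M (fun x => (∀ a ∈ l x, a ∈ f x) ∧
      Sat (f x : Set ZFSet.{0}) (fdec (k x)) (env (g x) (l x))) := by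
  refine (Am.mem h ((AmF.code h).comp h hl) (AmF.satS h hf hg hk)).congr h fun x _ => ?_
  rw [code_mem_satS]

end

/-- The set defined over `u` by the formula with the number `n` and the parameters `l`. -/
noncomputable def DefS (u d : ZFSet.{0}) (n : ℕ) (l : List ZFSet.{0}) : ZFSet.{0} :=
  ZFSet.sep (fun z => Sat (u : Set ZFSet.{0}) (fdec n) (env d (z :: l))) u

theorem isDef_iff {u x : ZFSet.{0}} : IsDef u x ↔ ∃ d ∈ u, ∃ (n : ℕ) (l : List ZFSet.{0}),
    (∀ a ∈ l, a ∈ u) ∧ x = DefS u d n l := by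
  constructor
  · rintro ⟨φ, v, hv, hx⟩
    obtain ⟨n, rfl⟩ := fdec_surj φ
    obtain ⟨k, hk⟩ := sat_fin (fdec n)
    refine ⟨v 0, hv 0, n, (List.range k).map v, ?_, ?_⟩
    · intro a ha
      obtain ⟨i, _, rfl⟩ := List.mem_map.1 ha
      exact hv i
    · ext z
      unfold DefS
      rw [hx, mem_sep]
      refine and_congr_right fun _ => hk _ _ _ fun i hi => ?_
      rw [env_cons]
      cases i with
      | zero => rfl
      | succ i =>
        show v i = ((List.range k).map v).getD i (v 0)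
        rw [List.getD_eq_getElem _ _ (by simp; omega)]
        simp
  · rintro ⟨d, hd, n, l, hl, rfl⟩
    refine ⟨fdec n, env d l, env_mem hd hl, fun z => ?_⟩
    unfold DefS
    rw [mem_sep, env_cons]

section

variable {M : Set ZFSet.{0}} (h : IsInner M)
variable {α : Type u₁} {β : Type u₂} {γ : Type u₃}
variable [Cod α] [Cod β] [Cod γ]

include h

/-- The sets `DefS u d n l` for parameters `l` in `u`; otherwise the empty set. -/
theorem AmF.defS {f g : α → ZFSet.{0}} {k : α → ℕ} {l : α → List ZFSet.{0}} (hf : AmF M f)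
    (hg : AmF M g) (hk : AmF M k) (hl : AmF M l) :
    AmF M (fun x => ZFSet.sep (fun z => (∀ a ∈ z :: l x, a ∈ f x) ∧
      Sat (f x : Set ZFSet.{0}) (fdec (k x)) (env (g x) (z :: l x))) (f x)) := by
  refine AmF.sep h hf (R := fun x z => (∀ a ∈ z :: l x, a ∈ f x) ∧
      Sat (f x : Set ZFSet.{0}) (fdec (k x)) (env (g x) (z :: l x))) ?_
  exact Am.sat h (f := fun q : α × ZFSet.{0} => f q.1) (g := fun q => g q.1)
    (l := fun q => q.2 :: l q.1) (k := fun q => k q.1) (hf.comp h (AmF.fst h))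
    (hg.comp h (AmF.fst h)) (AmF.lcons h (AmF.snd h) (hl.comp h (AmF.fst h)))
    (hk.comp h (AmF.fst h))

omit h in
theorem defS_eq {u d : ZFSet.{0}} {n : ℕ} {l : List ZFSet.{0}} (hl : ∀ a ∈ l, a ∈ u) :
    ZFSet.sep (fun z => (∀ a ∈ z :: l, a ∈ u) ∧
      Sat (u : Set ZFSet.{0}) (fdec n) (env d (z :: l))) u = DefS u d n l := by
  ext z
  unfold DefS
  rw [mem_sep, mem_sep]
  refine and_congr_right fun hz => ?_
  constructor
  · exact fun h1 => h1.2
  · intro h1
    refine ⟨?_, h1⟩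
    intro a ha
    rcases List.mem_cons.1 ha with rfl | ha
    · exact hz
    · exact hl a ha

theorem isDef_mem {u x : ZFSet.{0}} (hu : u ∈ M) (hx : IsDef u x) : x ∈ M := by
  obtain ⟨d, hd, n, l, hl, rfl⟩ := isDef_iff.1 hx
  rw [← defS_eq hl]
  have hl' : Cod.code l ∈ M := by
    rw [code_mem_list h]
    exact fun a ha => h.trans _ hu _ (hl a ha)
  exact (AmF.defS h (f := fun _ : ZFSet.{0} => u) (g := fun _ => d) (k := fun _ => n)
    (l := fun _ => l) (AmF.const h u hu) (AmF.const h d (h.trans _ hu _ hd))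
    (AmF.const h n (AbsCod.mem h n)) (AmF.const h l hl')).mem ∅ h.empty_mem

theorem Am.isDef {f g : α → ZFSet.{0}} (hf : AmF M f) (hg : AmF M g) :
    Am M (fun x => IsDef (f x) (g x)) := by
  refine (Am.bex h hf (R := fun x d => ∃ n : ℕ, ∃ l : List ZFSet.{0}, Cod.code l ∈ M ∧
    (∀ a ∈ l, a ∈ f x) ∧ g x = ZFSet.sep (fun z => (∀ a ∈ z :: l, a ∈ f x) ∧
      Sat (f x : Set ZFSet.{0}) (fdec n) (env d (z :: l))) (f x)) ?_).congr h fun x hx => ?_
  · refine Am.exA h (R := fun (q : α × ZFSet.{0}) (n : ℕ) => ∃ l : List ZFSet.{0},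
      Cod.code l ∈ M ∧ (∀ a ∈ l, a ∈ f q.1) ∧ g q.1 = ZFSet.sep (fun z =>
      (∀ a ∈ z :: l, a ∈ f q.1) ∧
      Sat (f q.1 : Set ZFSet.{0}) (fdec n) (env q.2 (z :: l))) (f q.1)) ?_
    refine Am.ex h (R := fun (q : (α × ZFSet.{0}) × ℕ) (l : List ZFSet.{0}) =>
      (∀ a ∈ l, a ∈ f q.1.1) ∧ g q.1.1 = ZFSet.sep (fun z =>
      (∀ a ∈ z :: l, a ∈ f q.1.1) ∧
      Sat (f q.1.1 : Set ZFSet.{0}) (fdec q.2) (env q.1.2 (z :: l))) (f q.1.1)) ?_
    let C := ((α × ZFSet.{0}) × ℕ) × List ZFSet.{0}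
    have vl : AmF M (fun y : C => y.2) := AmF.snd h
    have vn : AmF M (fun y : C => y.1.2) := (AmF.snd h).comp h (AmF.fst h)
    have vq : AmF M (fun y : C => y.1.1) := (AmF.fst h).comp h (AmF.fst h)
    have vf : AmF M (fun y : C => f y.1.1.1) := hf.comp h ((AmF.fst h).comp h vq)
    have vg : AmF M (fun y : C => g y.1.1.1) := hg.comp h ((AmF.fst h).comp h vq)
    have vd : AmF M (fun y : C => y.1.1.2) := (AmF.snd h).comp h vq
    refine Am.and h ?_ (Am.eq h vg (AmF.defS h (f := fun y : C => f y.1.1.1)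
      (g := fun y : C => y.1.1.2) (k := fun y : C => y.1.2) (l := fun y : C => y.2)
      vf vd vn vl))
    refine (Am.mem h (f := fun y : C => Cod.code y.2) (g := fun y : C => CL.lists (f y.1.1.1))
      ((AmF.code h).comp h vl) (AmF.lists h vf)).congr h fun y _ => ?_
    rw [mem_lists]
    constructor
    · exact fun h1 => ⟨y.2, h1, rfl⟩
    · rintro ⟨l, hl, he⟩
      rw [Cod.inj he]
      exact hl
  · rw [isDef_iff]
    refine exists_congr fun d => and_congr_right fun hd => exists_congr fun n =>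
      exists_congr fun l => ?_
    constructor
    · rintro ⟨hl, h1⟩
      refine ⟨?_, hl, ?_⟩
      · rw [code_mem_list h]
        exact fun a ha => h.trans _ (hf.mem x hx) _ (hl a ha)
      · rw [h1, defS_eq hl]
    · rintro ⟨_, hl, h1⟩
      refine ⟨hl, ?_⟩
      rw [h1, defS_eq hl]

theorem AmF.def' {f : α → ZFSet.{0}} (hf : AmF M f) : AmF M (fun x => Def (f x)) := by
  have h1 : Am M (fun q : α × ZFSet.{0} => q.2 ∈ Def (f q.1)) := by
    refine (Am.isDef h (hf.comp h (AmF.fst h)) (AmF.snd h)).congr h fun q _ => ?_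
    rw [mem_def]
  refine AmF.ofMem h (fun x hx => ?_) h1
  refine h.mem_of_am (R := fun z => z ∈ Def (f x)) (fun z hz => ?_) ?_ (fun z _ => Iff.rfl)
  · exact isDef_mem h (hf.mem x hx) (mem_def.1 hz)
  · exact h1.comp h (f := fun z : ZFSet.{0} => (x, z)) ((AmF.const h x hx).prod h (AmF.id h))

end

end Pool.Agent.Helper17.CL
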